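import Pool.Agent.N659.HB.Stm
import Pool.Agent.W792.WA.G12

/-!
The chain of levels for arbitrary classes of laws which enter one after the other (adapted from
`Pool.Agent.W792.WA.G11` and `Pool.Agent.W792.WA.G12`).
-/

set_option autoImplicit false

namespace Run7.h475.NP.ChG

open MeasureTheory Filter Pool.Agent.W792.LL Pool.Agent.W792.WA Pool.Agent.W792.WA.Ch
  Pool.Agent.W792.WA.ChK Pool.Agent.N659.HB
open scoped Topology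

noncomputable section

/-- Laws controlled at stage `n`. -/
def Xn (En : ℕ → Set MX) (n : ℕ) : Set MX := {X | ∃ j ≤ n, X ∈ En j}

/-- Invariant of stage `n`. -/
def InvG {d : ℕ} (K : C(UnitAddTorus (Fin d), ℝ)) (ρ : ℕ → Measure ℝ) (T : ℕ → ℝ) (J : ℝ) (En : ℕ → Set MX) (se : ℕ → ℝ) (n : ℕ)
    (a : C(ℝ, ℝ) × ℝ) : Prop :=
  (∀ t, |a.1 t| ≤ T 0 - T n) ∧
  (∀ j ≤ n, ∀ X ∈ En j, GapK (qlaw X) (ρ n) (kg K a.1) (se j * (1 / 2 + 1 / 2 ^ (n + 1)))) ∧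
  (∀ z ∈ Zs d, J * (1 / 2 + 1 / 2 ^ (n + 1)) ≤ jf (ρ n) (kg K a.1) z) ∧ 0 < a.2 ∧
  ∃ q : ℝ, 0 ≤ q ∧ q < 1 ∧ a.2 ≤ (1 - q ^ 2) / 8 ∧ ∀ X ∈ Xn En n, CtrK (qlaw X) (ρ n) (kg K a.1) q

/-- Relation of two stages. -/
def RelG {d : ℕ} (K : C(UnitAddTorus (Fin d), ℝ)) (ψ : C(UnitAddCircle, ℝ)) (l : ℕ → ℝ) (ρ : ℕ → Measure ℝ) (En : ℕ → Set MX) (n : ℕ)
    (a b : C(ℝ, ℝ) × ℝ) : Prop :=
  (∃ M : ℕ, b.1 = nx ψ a.1 (l n) M) ∧ b.2 ≤ a.2 ∧ ∀ X ∈ Xn En n, ∀ z ∈ Zs d, ∀ s s',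
    IsFix (qlaw X) (ρ n) (wz (kg K a.1) z) s →
    IsFix (qlaw X) (ρ (n + 1)) (wz (kg K b.1) z) s' →
      ∫ v, ‖Zf (UU (ρ n) (wz (kg K a.1) z) s) (fun x => cay (v x))
        - Zf (UU (ρ (n + 1)) (wz (kg K b.1) z) s') (fun x => cay (v x))‖
          ∂(Pn (qlaw X) (Fin d → ℤ)) ≤ a.2 / (64 * 8 ^ n)

/-- Data fixed in advance. -/
structure PrG {d : ℕ} (K : C(UnitAddTorus (Fin d), ℝ)) (ψ : C(UnitAddCircle, ℝ)) where
  /-- levels -/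
  l : ℕ → ℝ
  /-- laws of the future levels -/
  ρ : ℕ → Measure ℝ
  /-- tails -/
  T : ℕ → ℝ
  /-- lower bound -/
  J : ℝ
  /-- classes -/
  En : ℕ → Set MX
  /-- gaps at the entry -/
  se : ℕ → ℝ
  hψ : ∀ t, |ψ t| ≤ 1
  hl : ∀ n, 0 < l n
  hT : ∀ n, l n + T (n + 1) ≤ T n
  hTp : ∀ n, 0 ≤ T n
  hρ1 : ∀ n, IsProbabilityMeasure (ρ n)
  hρ2 : ∀ n, ρ n = (lev ψ (l n)).conv (ρ (n + 1))
  hρ3 : ∀ n, ρ n (Set.Icc (-(T n)) (T n))ᶜ = 0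
  hρ4 : ∀ (n : ℕ) (a b : ℝ), ρ n {a, b} < 1
  hJ : 0 < J
  hJ0 : ∀ z ∈ Zs d, J ≤ jf (ρ 0) K z
  se_pos : ∀ n, 0 < se n
  hQ : ∀ n, ∀ X ∈ En n, X ∈ Qf
  hv : ∀ n, ∀ X ∈ En n, 0 < vr (qlaw X)
  entry0 : ∀ X ∈ En 0, GapK (qlaw X) (ρ 0) K (se 0)
  entry1 : ∀ (n : ℕ) (f : C(ℝ, ℝ)), (∀ z ∈ Zs d, J / 2 ≤ jf (ρ (n + 1)) (kg K f) z) →
    ∀ X ∈ En (n + 1), GapK (qlaw X) (ρ (n + 1)) (kg K f) (se (n + 1))

namespace PrG

variable {d : ℕ} {K : C(UnitAddTorus (Fin d), ℝ)} {ψ : C(UnitAddCircle, ℝ)} (D : PrG K ψ)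

theorem Xn_vr {n : ℕ} {X : MX} (hX : X ∈ Xn D.En n) : 0 < vr (qlaw X) := by
  obtain ⟨j, -, h⟩ := hX
  exact D.hv j X h

theorem Xn_TB (hN : S_NETX2) (n : ℕ) : TB (Xn D.En n) := by
  refine TB_mono ?_ hN
  rintro X ⟨j, -, h⟩
  exact D.hQ j X h

theorem weaken {n m : ℕ} {f : C(ℝ, ℝ)} {X : MX}
    (h : GapK (qlaw X) (D.ρ n) (kg K f) (D.se m)) :
    GapK (qlaw X) (D.ρ n) (kg K f) (D.se m * (1 / 2 + 1 / 2 ^ (n + 1))) := by
  intro z hz s hs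
  have h6 := h z hz s hs
  have h8 : D.se m * (1 / 2 + 1 / 2 ^ (n + 1)) ≤ D.se m * 1 := by
    have h9 : (1 : ℝ) / 2 ^ (n + 1) ≤ 1 / 2 := by
      apply one_div_le_one_div_of_le (by norm_num)
      rw [pow_succ]
      have : (1 : ℝ) ≤ 2 ^ n := one_le_pow₀ (by norm_num)
      linarith
    have := D.se_pos m
    gcongr
    linarith
  linarith

/-- Uniform gap. -/
theorem ugap {n : ℕ} {f : C(ℝ, ℝ)}
    (h : ∀ j ≤ n, ∀ X ∈ D.En j, GapK (qlaw X) (D.ρ n) (kg K f) (D.se j * (1 / 2 + 1 / 2 ^ (n + 1)))) :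
    ∃ σ : ℝ, 0 < σ ∧ (∀ j ≤ n, σ ≤ D.se j / 2) ∧ ∀ X ∈ Xn D.En n, GapK (qlaw X) (D.ρ n) (kg K f) σ := by
  obtain ⟨σ, h1, h2⟩ := exists_lb (fun j => D.se j / 2) (fun j => by
    have := D.se_pos j
    positivity) n
  refine ⟨σ, h1, h2, ?_⟩
  rintro X ⟨j, hj, hX⟩ z hz s hs
  have h3 := h j hj X hX z hz s hs
  have h4 := h2 j hj
  have h5 : 0 < D.se j * (1 / 2 ^ (n + 1)) := by
    have := D.se_pos j
    positivity
  linarith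

theorem ctr (hU2 : S_UNI2) {n : ℕ} {f : C(ℝ, ℝ)}
    (h : ∀ j ≤ n, ∀ X ∈ D.En j, GapK (qlaw X) (D.ρ n) (kg K f) (D.se j * (1 / 2 + 1 / 2 ^ (n + 1)))) :
    ∃ q : ℝ, 0 ≤ q ∧ q < 1 ∧ ∀ X ∈ Xn D.En n, CtrK (qlaw X) (D.ρ n) (kg K f) q := by
  obtain ⟨σ, h1, -, h2⟩ := D.ugap h
  have := D.hρ1 n
  obtain ⟨q, h3, h4, h5⟩ := (hU2 d (D.ρ n) (D.T n) σ (kg K f) (D.hρ3 n) (D.hρ4 n) h1).1
  exact ⟨q, h3, h4, fun X hX => (h5 (qlaw X) (D.Xn_vr hX) (h2 X hX)).2⟩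

theorem init (hU2 : S_UNI2) : ∃ a, InvG K D.ρ D.T D.J D.En D.se 0 a ∧ (0 = 0 → a.1 = 0) := by
  have h0 : ∀ j ≤ 0, ∀ X ∈ D.En j, GapK (qlaw X) (D.ρ 0) (kg K 0)
      (D.se j * (1 / 2 + 1 / 2 ^ (0 + 1))) := by
    intro j hj X hX
    obtain rfl := Nat.le_zero.1 hj
    refine D.weaken ?_
    rw [kg_zero]
    exact D.entry0 X hX
  obtain ⟨q, hq0, hq1, hq2⟩ := D.ctr hU2 h0
  have hq3 : 0 < (1 - q ^ 2) / 8 := by
    have : q ^ 2 < 1 := by nlinarith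
    linarith
  refine ⟨(0, (1 - q ^ 2) / 8), ⟨fun t => by simp, h0, fun z hz => ?_, hq3, q, hq0, hq1, le_rfl,
    hq2⟩, fun _ => rfl⟩
  have e : D.J * (1 / 2 + 1 / 2 ^ (0 + 1)) = D.J := by ring
  rw [e]
  change D.J ≤ jf (D.ρ 0) (kg K 0) z
  rw [kg_zero]
  exact D.hJ0 z hz

theorem step (hU2 : S_UNI2) (hS2 : S_STEP2) (hJS : S_JSTEP) (hN : S_NETX2) (hd : 0 < d)
    (hψ : IsSemi ψ) (n : ℕ) (a : C(ℝ, ℝ) × ℝ) (ha : InvG K D.ρ D.T D.J D.En D.se n a) :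
    ∃ b, InvG K D.ρ D.T D.J D.En D.se (n + 1) b ∧ RelG K ψ D.l D.ρ D.En n a b := by
  obtain ⟨h0, h1, h2, h3, -⟩ := ha
  obtain ⟨σ, hσ, hσ1, hσ2⟩ := D.ugap h1
  have i0 := D.hρ1 n
  have i1 := D.hρ1 (n + 1)
  have i2 := D.hρ1 (n + 1 + 1)
  have hJ := D.hJ
  set e : ℝ := min (a.2 / (64 * 8 ^ n)) (σ / 2 ^ (n + 1)) with he
  have he0 : 0 < e := lt_min (by positivity) (by positivity)
  have hσ2' : ∀ X ∈ Xn D.En n, ∀ z ∈ Zs d, ∀ s,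
      IsFix (qlaw X) ((lev ψ (D.l n)).conv (D.ρ (n + 1))) (wz (kg K a.1) z) s → ‖s‖ ≤ 1 - σ := by
    rw [← D.hρ2 n]; exact hσ2
  obtain ⟨M₁, hM₁⟩ := hS2 d ψ (D.ρ (n + 1)) (D.T (n + 1)) σ (D.l n) (kg K a.1) (Xn D.En n) hd hψ
    (fun X hX => D.Xn_vr hX) (D.Xn_TB hN n) (D.hρ3 (n + 1)) (D.hρ4 (n + 1)) (D.hl n)
    hσ hσ2' e he0
  obtain ⟨M₂, hM₂⟩ := hJS ψ hψ d (kg K a.1) (D.l n) (D.l (n + 1)) (D.T (n + 1 + 1))
    (D.ρ (n + 1 + 1)) hd (D.hl n) (D.hl (n + 1)) (D.hρ3 _) (D.J / 2 ^ (n + 2)) (by positivity)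
  have hM1 := hM₁ (max M₁ M₂) (le_max_left _ _)
  have hM2 := hM₂ (max M₁ M₂) (le_max_right _ _)
  rw [← D.hρ2 n] at hM1
  rw [← D.hρ2 (n + 1), ← D.hρ2 n] at hM2
  set M := max M₁ M₂ with hM
  rw [← kg_nx] at hM1
  have hjf : ∀ z ∈ Zs d, D.J * (1 / 2 + 1 / 2 ^ (n + 1 + 1))
      ≤ jf (D.ρ (n + 1)) (kg K (nx ψ a.1 (D.l n) M)) z := by
    intro z hz
    have h4 := h2 z hz
    have h5 := hM2 z hz
    rw [kg_nx]
    have h6 : D.J * (1 / 2 + 1 / 2 ^ (n + 1)) = D.J * (1 / 2 + 1 / 2 ^ (n + 1 + 1))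
        + D.J / 2 ^ (n + 2) := by
      field_simp
      ring
    linarith
  have hid : ∀ t, |nx ψ a.1 (D.l n) M t| ≤ D.T 0 - D.T (n + 1) := by
    intro t
    have h4 := h0 t
    have h5 := D.hT n
    have h6 : |D.l n * ψ ((M * t / (2 * Real.pi) : ℝ) : UnitAddCircle)| ≤ D.l n := by
      rw [abs_mul, abs_of_pos (D.hl n)]
      exact mul_le_of_le_one_right (D.hl n).le (D.hψ _)
    change |a.1 t + D.l n * ψ _| ≤ _
    refine (abs_add_le _ _).trans ?_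
    linarith
  have hgap : ∀ j ≤ n + 1, ∀ X ∈ D.En j, GapK (qlaw X) (D.ρ (n + 1))
      (kg K (nx ψ a.1 (D.l n) M)) (D.se j * (1 / 2 + 1 / 2 ^ (n + 1 + 1))) := by
    intro j hj X hX
    rcases Nat.lt_or_ge n j with h | h
    · obtain rfl : j = n + 1 := by omega
      refine D.weaken (D.entry1 n _ (fun z hz => ?_) X hX)
      refine le_trans ?_ (hjf z hz)
      have : 0 < D.J * (1 / 2 ^ (n + 1 + 1)) := by positivity
      linarith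
    · intro z hz s' hs'
      have hXn : X ∈ Xn D.En n := ⟨j, h, hX⟩
      have hex := ((hU2 d (D.ρ n) (D.T n) σ (kg K a.1) (D.hρ3 n) (D.hρ4 n) hσ).1.choose_spec.2.2
        (qlaw X) (D.Xn_vr hXn) (hσ2 X hXn)).1 z hz
      obtain ⟨s, hs, -⟩ := hex
      have h4 := (hM1 X hXn z hz s s' hs hs').1
      have h5 := h1 j h X hX z hz s hs
      have h6 : ‖s'‖ ≤ ‖s‖ + ‖s - s'‖ := by
        have := norm_sub_le s (s - s')
        rwa [sub_sub_cancel] at this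
      have h7 : e ≤ σ / 2 ^ (n + 1) := min_le_right _ _
      have h8 : σ / 2 ^ (n + 1) ≤ D.se j / 2 / 2 ^ (n + 1) := by
        have := hσ1 j h
        gcongr
      have h9 : D.se j * (1 / 2 + 1 / 2 ^ (n + 1)) = D.se j * (1 / 2 + 1 / 2 ^ (n + 1 + 1))
          + D.se j / 2 / 2 ^ (n + 1) := by
        field_simp
        ring
      linarith
  obtain ⟨q, hq0, hq1, hq2⟩ := D.ctr hU2 hgap
  have hq3 : 0 < (1 - q ^ 2) / 8 := by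
    have : q ^ 2 < 1 := by nlinarith
    linarith
  refine ⟨(nx ψ a.1 (D.l n) M, min a.2 ((1 - q ^ 2) / 8)), ⟨hid, hgap, hjf, lt_min h3 hq3,
    q, hq0, hq1, min_le_right _ _, hq2⟩, ⟨M, rfl⟩, min_le_left _ _, ?_⟩
  intro X hX z hz s s' hs hs'
  exact (hM1 X hX z hz s s' hs hs').2.trans (min_le_left _ _)

end PrG

/-- The main construction: one function for all classes. -/
theorem exists_fG (hX : S_CX) (hUU : S_UUC) (hL : S_SCL) (hZ : S_ZF) (hCay : S_CAY)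
    (hM : S_MZP) (hU : S_UNI) (hU2 : S_UNI2) (hS2 : S_STEP2) (hJS : S_JSTEP) (hN : S_NETX2)
    {d : ℕ} (hd : 0 < d) {K : C(UnitAddTorus (Fin d), ℝ)} {ψ : C(UnitAddCircle, ℝ)}
    (hψ : IsSemi ψ) {r : ℝ} (D : PrG K ψ) (hDT : D.T = fun n => 2 * r * (1 / 16) ^ n) :
    ∃ f : C(ℝ, ℝ), IsSum ψ (2 * r) f ∧
      ∀ (n : ℕ), ∀ X ∈ D.En n, MestK (kg K f) (qlaw X) := by
  obtain ⟨x, hx⟩ := exists_seq (α := C(ℝ, ℝ) × ℝ)
    (fun n a => InvG K D.ρ D.T D.J D.En D.se n a ∧ (n = 0 → a.1 = 0))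
    (fun n a b => RelG K ψ D.l D.ρ D.En n a b) (D.init hU2) (by
      intro n a ha
      obtain ⟨b, hb1, hb2⟩ := D.step hU2 hS2 hJS hN hd hψ n a ha.1
      exact ⟨b, ⟨hb1, fun h => absurd h (Nat.succ_ne_zero n)⟩, hb2⟩)
  have hMe : ∀ n, ∃ M : ℕ, (x (n + 1)).1 = nx ψ (x n).1 (D.l n) M := fun n => (hx n).2.1
  choose M hMe using hMe
  have hq : ∀ n, ∃ q : ℝ, 0 ≤ q ∧ q < 1 ∧ (x n).2 ≤ (1 - q ^ 2) / 8 ∧
      ∀ X ∈ Xn D.En n, CtrK (qlaw X) (D.ρ n) (kg K (x n).1) q := fun n => (hx n).1.1.2.2.2.2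
  choose q hq0 hq1 hq2 hq3 using hq
  let L : LvK ψ := {
    l := D.l, T := D.T, f := fun n => (x n).1, M := M
    hψ := hψ.bound
    hl := D.hl
    hT := D.hT
    hTp := D.hTp
    f0 := (hx 0).1.2 rfl
    fs := hMe }
  have hT0 : D.T 0 = 2 * r := by rw [hDT]; simp
  have hTt : Tendsto D.T atTop (𝓝 0) := by
    rw [hDT]
    have h1 := (tendsto_pow_atTop_nhds_zero_of_lt_one (by norm_num : (0 : ℝ) ≤ 1 / 16)
      (by norm_num : (1 : ℝ) / 16 < 1)).const_mul (2 * r)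
    simpa using h1
  have hsumle : ∑' j, L.l j ≤ 2 * r := by
    refine Real.tsum_le_of_sum_range_le (fun n => (L.hl n).le) fun m => ?_
    have h1 := L.sum_l 0 m
    have h2 := L.hTp (0 + m)
    simp only [zero_add] at h1 h2
    have h3 : L.T 0 = 2 * r := hT0
    linarith
  refine ⟨L.fI, ⟨L.l, L.M, fun j => (L.hl j).le, L.summable_l, hsumle, fun t => rfl⟩,
    fun j X hXj => ?_⟩
  have hXn : ∀ n, X ∈ Xn D.En (n + j) := fun n => ⟨j, by omega, hXj⟩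
  let E : CEK (qlaw X) K := {
    ρ := fun n => D.ρ (n + j)
    T := fun n => D.T (n + j)
    σ := D.se j / 2
    f := fun n => (x (n + j)).1
    fI := L.fI
    B := D.T 0
    p := fun n => (x (n + j)).2
    q := fun n => q (n + j)
    hv := D.Xn_vr (hXn 0)
    T_anti := fun a b hab => L.T_anti (by omega)
    hTp := fun n => D.hTp _
    hT0 := hTt.comp (tendsto_add_atTop_nat j)
    hρ1 := fun n => D.hρ1 _
    hρ3 := fun n => D.hρ3 _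
    hρ4 := fun n => D.hρ4 _
    hσ := by have := D.se_pos j; positivity
    gap := by
      intro n z hz s hs
      have h1 := (hx (n + j)).1.1.2.1 j (by omega) X hXj z hz s hs
      have h2 : 0 < D.se j * (1 / 2 ^ (n + j + 1)) := by
        have := D.se_pos j
        positivity
      linarith
    hp := fun n => (hx (n + j)).1.1.2.2.2.1
    anti := by
      intro n
      have e : n + 1 + j = n + j + 1 := by omega
      rw [e]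
      exact (hx (n + j)).2.2.1
    hq0 := fun n => hq0 _
    hq1 := fun n => hq1 _
    hq2 := fun n => hq2 _
    ctr := fun n => hq3 _ X (hXn n)
    fI_diff := fun n t => L.fI_diff (n + j) t
    fI_id := L.fI_id
    f_id := fun n t => L.f_id (n + j) t
    rel := by
      intro n z hz s s' hs hs'
      have e : n + 1 + j = n + j + 1 := by omega
      rw [e] at hs' ⊢
      refine ((hx (n + j)).2.2.2 X (hXn n) z hz s s' hs hs').trans ?_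
      have h1 := (hx (n + j)).1.1.2.2.2.1
      apply div_le_div_of_nonneg_left h1.le (by positivity)
      have h2 : (8 : ℝ) ^ n ≤ 8 ^ (n + j) := pow_le_pow_right₀ (by norm_num) (by omega)
      linarith }
  exact E.concl hX hUU hL hZ hCay hM hU

end

end Run7.h475.NP.ChG
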