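import Pool.Agent.Run7.h475.NP.JsB

/-!
Lower bound for the averaged imaginary part after averaging over a level which is often small.
-/

set_option autoImplicit false

namespace Run7.h475.NP.Jlo

open MeasureTheory Filter Set Pool.Agent.W792.LL Pool.Agent.W792.WA Pool.Agent.W335.WAB.BaseJ
  Pool.Agent.W577.WAJ
open scoped Topology

theorem Hf_im {ψ : C(UnitAddCircle, ℝ)} (hψ : IsSemi ψ) {r : ℝ} (hr : 0 < r) {y : ℂ}
    (hy : y.im < 0) (ρ : Measure ℝ) [IsProbabilityMeasure ρ] : 0 ≤ (Hf ψ r ρ y).im := by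
  rw [Hf_eq ψ hr]
  have h : (∫ a : ℝ, ((1 / r : ℝ) : ℂ) * Mf ψ ((y + a) / r) ∂ρ).im =
      ∫ a : ℝ, (((1 / r : ℝ) : ℂ) * Mf ψ ((y + a) / r)).im ∂ρ :=
    (integral_im (inner_int hψ hr hy ρ)).symm
  rw [h]
  apply integral_nonneg
  intro a
  simp only [Pi.zero_apply]
  rw [Complex.im_ofReal_mul]
  exact mul_nonneg (by positivity) (Mf_im ψ (im_div hy hr a))

theorem Hf_shift {ψ : C(UnitAddCircle, ℝ)} (hψ : IsSemi ψ) {r : ℝ} (hr : 0 < r) {y : ℂ}
    (hy : y.im < 0) (ρ : Measure ℝ) (c : ℝ) :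
    Hf ψ r ρ (y + c) = Hf ψ r (ρ.map fun x => x + c) y := by
  rw [Hf_eq ψ hr, Hf_eq ψ hr, integral_map (by fun_prop)
    (inner_cont hψ hr hy).aestronglyMeasurable]
  congr 1
  funext a
  congr 3
  push_cast
  ring

theorem jlo {ψ : C(UnitAddCircle, ℝ)} (hψ : IsSemi ψ) (ψ₁ : C(UnitAddCircle, ℝ)) {d : ℕ}
    (K : C(UnitAddTorus (Fin d), ℝ)) {R r J : ℝ} (hr : 0 < r) (hJ : 0 < J)
    (ρ : Measure ℝ) [IsProbabilityMeasure ρ] (hρ : ρ (Icc (-(r / 15)) (r / 15))ᶜ = 0) {z : ℂ}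
    (hz : 0 < z.im)
    (hJ0 : ∀ (ρ' : Measure ℝ) [IsProbabilityMeasure ρ'], ρ' (Icc (-(r / 8)) (r / 8))ᶜ = 0 →
      J ≤ jf ((lev ψ r).conv ρ') K z)
    (hμ : 1 / 2 ≤ (volume.restrict (Ioc (0 : ℝ) 1)).real
      {φ : ℝ | |R * ψ₁ (φ : UnitAddCircle)| ≤ r / 20}) :
    J / 2 ≤ jf ((lev ψ₁ R).conv ((lev ψ r).conv ρ)) K z := by
  have e1 := JsB.jf_eq2 (ψ := ψ) (ψ₁ := ψ₁) K (l := R) (l' := r) ρ hz
  rw [e1]
  set P : Measure ℝ := volume.restrict (Ioc (0 : ℝ) 1) with hP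
  have hPp : IsProbabilityMeasure P := ⟨by simp [hP]⟩
  have hVp : IsProbabilityMeasure (volume : Measure (UnitAddTorus (Fin d))) := by
    rw [Pool.Agent.W577.WAJ.vol_eq]
    unfold Pool.Agent.W191.LL.mu
    infer_instance
  have hGc : Continuous fun p : UnitAddTorus (Fin d) × ℝ =>
      JsB.G ψ ψ₁ K R r ρ z (p.1, (p.2 : UnitAddCircle)) :=
    (JsB.G_cont hψ K hr ρ hz).comp (continuous_fst.prodMk
      ((AddCircle.continuous_mk' (1 : ℝ)).comp continuous_snd))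
  have hGb : ∀ p : UnitAddTorus (Fin d) × ℝ,
      ‖JsB.G ψ ψ₁ K R r ρ z (p.1, (p.2 : UnitAddCircle))‖ ≤ 2 / r := fun p =>
    JsB.G_bound hψ K hr ρ hz _
  have hint : Integrable (fun p : UnitAddTorus (Fin d) × ℝ =>
      (JsB.G ψ ψ₁ K R r ρ z (p.1, (p.2 : UnitAddCircle))).im)
      ((volume : Measure (UnitAddTorus (Fin d))).prod P) := by
    refine Integrable.of_bound (Complex.continuous_im.comp hGc).aestronglyMeasurable (2 / r)
      (ae_of_all _ fun p => ?_)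
    rw [Real.norm_eq_abs]
    exact (Complex.abs_im_le_norm _).trans (hGb p)
  have e2 : (∫ k, (JsB.Ga ψ ψ₁ K R r ρ z k).im) =
      ∫ φ, (∫ k, (JsB.G ψ ψ₁ K R r ρ z (k, ((φ : ℝ) : UnitAddCircle))).im) ∂P := by
    rw [← integral_integral_swap hint]
    congr 1
    funext k
    exact (integral_im (JsB.Gk_int hψ K hr ρ hz k)).symm
  rw [e2]
  have hF : ∀ φ : ℝ, |R * ψ₁ (φ : UnitAddCircle)| ≤ r / 20 →
      J ≤ ∫ k, (JsB.G ψ ψ₁ K R r ρ z (k, (φ : UnitAddCircle))).im := by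
    intro φ hφ
    set c : ℝ := R * ψ₁ (φ : UnitAddCircle) with hc
    have hpm : IsProbabilityMeasure (ρ.map fun x => x + c) :=
      Measure.isProbabilityMeasure_map (by fun_prop)
    have hs : (ρ.map fun x => x + c) (Icc (-(r / 8)) (r / 8))ᶜ = 0 := by
      rw [Measure.map_apply (by fun_prop) measurableSet_Icc.compl]
      refine measure_mono_null ?_ hρ
      intro x hx hx2
      apply hx
      have h3 := abs_le.1 hφ
      constructor
      · linarith [hx2.1, h3.1]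
      · linarith [hx2.2, h3.2]
    have h4 := hJ0 (ρ.map fun x => x + c) hs
    rw [jf_eq1 (ρ.map fun x => x + c) hz K] at h4
    refine h4.trans (le_of_eq ?_)
    congr 1
    funext k
    unfold JsB.G
    rw [← Hf_shift hψ hr (im_neg hz (K k)) ρ c]
    congr 2
    rw [hc]
    push_cast
    ring
  have hF0 : ∀ φ : ℝ, 0 ≤ ∫ k, (JsB.G ψ ψ₁ K R r ρ z (k, (φ : UnitAddCircle))).im := by
    intro φ
    apply integral_nonneg
    intro k
    exact Hf_im hψ hr (im_neg hz _) ρ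
  have hms : MeasurableSet {φ : ℝ | |R * ψ₁ (φ : UnitAddCircle)| ≤ r / 20} := by
    have : Continuous fun φ : ℝ => |R * ψ₁ (φ : UnitAddCircle)| :=
      (continuous_const.mul (cont_psi ψ₁)).abs
    exact this.measurable measurableSet_Iic
  have hind : ∫ φ, ({φ : ℝ | |R * ψ₁ (φ : UnitAddCircle)| ≤ r / 20}.indicator
      (fun _ => J)) φ ∂P = P.real {φ : ℝ | |R * ψ₁ (φ : UnitAddCircle)| ≤ r / 20} * J := by
    rw [integral_indicator_const J hms, smul_eq_mul]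
  calc J / 2 ≤ P.real {φ : ℝ | |R * ψ₁ (φ : UnitAddCircle)| ≤ r / 20} * J := by nlinarith
    _ = ∫ φ, ({φ : ℝ | |R * ψ₁ (φ : UnitAddCircle)| ≤ r / 20}.indicator (fun _ => J)) φ ∂P :=
        hind.symm
    _ ≤ _ := by
        apply integral_mono ((integrable_const J).indicator hms) hint.integral_prod_right
        intro φ
        by_cases h : φ ∈ {φ : ℝ | |R * ψ₁ (φ : UnitAddCircle)| ≤ r / 20}
        · rw [indicator_of_mem h]
          exact hF φ h
        · rw [indicator_of_notMem h]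
          exact hF0 φ

/-- Markov's inequality for a level. -/
theorem markov (ψ₁ : C(UnitAddCircle, ℝ)) {R p t e : ℝ} (ht : 0 < t) (hp : 0 < p)
    (he : ∫ φ in Ioc (0 : ℝ) 1, |R * ψ₁ (φ : UnitAddCircle)| ^ p ≤ e) (het : e ≤ t ^ p / 2) :
    1 / 2 ≤ (volume.restrict (Ioc (0 : ℝ) 1)).real
      {φ : ℝ | |R * ψ₁ (φ : UnitAddCircle)| ≤ t} := by
  set P : Measure ℝ := volume.restrict (Ioc (0 : ℝ) 1) with hP
  have hPp : IsProbabilityMeasure P := ⟨by simp [hP]⟩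
  have hc : Continuous fun φ : ℝ => |R * ψ₁ (φ : UnitAddCircle)| :=
    (continuous_const.mul (cont_psi ψ₁)).abs
  have hcp : Continuous fun φ : ℝ => |R * ψ₁ (φ : UnitAddCircle)| ^ p :=
    hc.rpow_const fun _ => Or.inr hp.le
  have hms : MeasurableSet {φ : ℝ | |R * ψ₁ (φ : UnitAddCircle)| ≤ t} :=
    hc.measurable measurableSet_Iic
  have hi : Integrable (fun φ : ℝ => |R * ψ₁ (φ : UnitAddCircle)| ^ p) P := by
    have h1 : IntegrableOn (fun φ : ℝ => |R * ψ₁ (φ : UnitAddCircle)| ^ p) (Icc 0 1) :=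
      hcp.continuousOn.integrableOn_compact isCompact_Icc
    exact h1.mono_set Ioc_subset_Icc_self
  have hcompl : P.real {φ : ℝ | |R * ψ₁ (φ : UnitAddCircle)| ≤ t}ᶜ ≤ 1 / 2 := by
    have h1 : t ^ p * P.real {φ : ℝ | |R * ψ₁ (φ : UnitAddCircle)| ≤ t}ᶜ ≤ e := by
      calc t ^ p * P.real {φ : ℝ | |R * ψ₁ (φ : UnitAddCircle)| ≤ t}ᶜ
          = ∫ φ, ({φ : ℝ | |R * ψ₁ (φ : UnitAddCircle)| ≤ t}ᶜ.indicator
            (fun _ => t ^ p)) φ ∂P := by
            rw [integral_indicator_const _ hms.compl, smul_eq_mul, mul_comm]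
        _ ≤ ∫ φ, |R * ψ₁ ((φ : ℝ) : UnitAddCircle)| ^ p ∂P := by
            apply integral_mono ((integrable_const _).indicator hms.compl) hi
            intro φ
            by_cases h : φ ∈ {φ : ℝ | |R * ψ₁ (φ : UnitAddCircle)| ≤ t}ᶜ
            · rw [indicator_of_mem h]
              apply Real.rpow_le_rpow ht.le _ hp.le
              have : ¬ (|R * ψ₁ (φ : UnitAddCircle)| ≤ t) := h
              linarith
            · rw [indicator_of_notMem h]
              positivity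
        _ ≤ e := he
    have h2 : 0 < t ^ p := by positivity
    nlinarith
  have h3 := measureReal_compl (μ := P) hms
  rw [probReal_univ] at h3
  linarith

end Run7.h475.NP.Jlo
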