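import Pool.Agent.Run7.h475.NP.Prt
import Pool.Agent.Run7.h475.NP.ChG
import Pool.Agent.Run7.h475.NP.Jlo
import Pool.Agent.W160.WA.Base3

/-!
Project NP: all disorder strengths at once.
-/

set_option autoImplicit false

namespace Run7.h475.NP.Al2

open MeasureTheory Filter Topology Set Pool.Agent.W792.LL Pool.Agent.W792.WA Pool.Agent.N659.HB
open UnitAddTorus Run7.h475.NP.Fin Run7.h475.NP.ChG Pool.Agent.W792.WA.ChK

noncomputable section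

/-- Laws of the size `δ'`, `δ (n+1) ≤ δ' ≤ δ n`, with enough variance. -/
def Eb (δ : ℕ → ℝ) (κ : ℝ) (n : ℕ) : Set MX :=
  {X | X ∈ Qf ∧ ∃ δ' : ℝ, δ (n + 1) ≤ δ' ∧ δ' ≤ δ n ∧ (∀ᵐ x ∂(qlaw X), |x| ≤ δ') ∧
    κ * δ' ^ 2 ≤ vr (qlaw X)}

/-- The same with all laws with enough variance at stage `0`. -/
def EA (δ : ℕ → ℝ) (κ κ₁ : ℝ) (n : ℕ) : Set MX :=
  {X | X ∈ Eb δ κ n ∨ (n = 0 ∧ X ∈ Qf ∧ κ₁ ≤ vr (qlaw X))}

theorem base3 : S_BASE3 :=
  Pool.Agent.W160.WA.Base3.main Al.sc1 Al.uuc Al.psi Al.fix Al.pert Al.cx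

theorem vr_le_one (ν : Measure ℝ) [IsProbabilityMeasure ν] : vr ν ≤ 1 := by
  unfold vr
  nlinarith [sq_nonneg ‖∫ x, cay x ∂ν‖]

/-- Normalized form: all laws at once. -/
theorem normalized2 (d : ℕ) (hd : 0 < d) (K0 : C(UnitAddTorus (Fin d), ℝ)) (p g κ κ' e : ℝ)
    (hp : 1 < p) (hp2 : p < 2) (hg : 0 ≤ g) (hg2 : g < (d : ℝ) / 3) (hκ : 0 < κ) (hκ' : 0 < κ')
    (he : 0 < e) :
    ∃ F : C(ℝ, ℝ), (∃ B : ℝ, ∀ t, |F t| ≤ B) ∧
      (∫ k : UnitAddTorus (Fin d), |F (lap d k)| ^ p ≤ e) ∧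
      (∀ x : Fin d → ℤ, ‖mFourierCoeff
        (fun k : UnitAddTorus (Fin d) => ((F (lap d k) : ℝ) : ℂ)) x‖ ≤ e / (1 + ‖x‖) ^ g) ∧
      (∀ X ∈ Qf, κ' ≤ vr (qlaw X) → MestK (K0 + gK F d) (qlaw X)) ∧
      ∀ X ∈ Qf, ∀ δ' : ℝ, 0 < δ' → (∀ᵐ x ∂(qlaw X), |x| ≤ δ') → κ * δ' ^ 2 ≤ vr (qlaw X) →
        MestK (K0 + gK F d) (qlaw X) := by
  -- the level which enlarges the range
  obtain ⟨RA, hRA⟩ : ∃ RA : ℝ, RA = ‖K0‖ + 4 * d + 1 := ⟨_, rfl⟩
  have hRA0 : 0 < RA := by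
    rw [hRA]
    positivity
  obtain ⟨w, hw⟩ : ∃ w : ℝ, w = min (1 / 2) (e / (512 * RA ^ p)) := ⟨_, rfl⟩
  have hw0 : 0 < w := by
    rw [hw]
    exact lt_min (by norm_num) (by positivity)
  have hw1 : w ≤ 1 / 2 := by
    rw [hw]
    exact min_le_left _ _
  have hw2 : RA ^ p * (4 * w) ≤ e / 128 := by
    have h1 : w ≤ e / (512 * RA ^ p) := by
      rw [hw]
      exact min_le_right _ _
    have h2 : 0 < RA ^ p := by positivity
    rw [le_div_iff₀ (by positivity)] at h1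
    linarith
  obtain ⟨N₁, hN₁⟩ := Prt.lf_lp hd (Rng.psA w) hp (e' := e / 128) (by positivity)
    ((Rng.psA_lp hw0 hRA0 hp).trans hw2)
  obtain ⟨N₂, hN₂⟩ := Prt.lf_hop (g := g) hd (Rng.psA w) hRA0 hg hg2 (e := e / 4) (by positivity)
    (Rng.psA_hol hw0) (Rng.psA_mean w)
  obtain ⟨NA, hNA⟩ : ∃ NA : ℕ, NA = max 1 (max N₁ N₂) := ⟨_, rfl⟩
  have a1 := hN₁ NA (by rw [hNA]; exact (le_max_left _ _).trans (le_max_right _ _))
  have a2 := hN₂ NA (by rw [hNA]; exact (le_max_right _ _).trans (le_max_right _ _))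
  have a3 : 1 ≤ NA := by
    rw [hNA]
    exact le_max_left _ _
  obtain ⟨KA, hKA⟩ : ∃ KA : C(UnitAddTorus (Fin d), ℝ), KA = addL (Rng.psA w) K0 RA NA := ⟨_, rfl⟩
  have hrange : ∀ E : ℝ, 0 ≤ E → E ≤ 4 * d → ∃ k, KA k = E := by
    intro E h0 h1
    rw [hKA]
    exact Rng.range hd K0 hw0 hw1 (by rw [hRA]; linarith) a3 h0 h1
  -- the semicircle levels
  obtain ⟨ψ, hψ, hψh⟩ := Pool.Agent.W915.WA.WH.main
  obtain ⟨C, hC, hCb⟩ := Al.wd d ψ hd (Pool.Agent.W332.WA.WB.main ψ hψh)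
  obtain ⟨r, hr⟩ : ∃ r : ℝ, r = min (1 / 2) (min (e / 16) (e / (4 * (C + 1)))) := ⟨_, rfl⟩
  have hr0 : 0 < r := by
    rw [hr]
    exact lt_min (by norm_num) (lt_min (by positivity) (by positivity))
  have hr1 : r ≤ 1 / 2 := by
    rw [hr]
    exact min_le_left _ _
  have hr2 : r ≤ e / 16 := by
    rw [hr]
    exact (min_le_right _ _).trans (min_le_left _ _)
  have hr3 : r ≤ e / (4 * (C + 1)) := by
    rw [hr]
    exact (min_le_right _ _).trans (min_le_right _ _)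
  have hgeo : ∀ n : ℕ, HasSum (fun j : ℕ => r * (1 / 16 : ℝ) ^ (n + j))
      (r * (1 / 16) ^ n * (16 / 15)) := by
    intro n
    have h1 := (hasSum_geometric_of_lt_one (r := (1 / 16 : ℝ)) (by norm_num)
      (by norm_num)).mul_left (r * (1 / 16) ^ n)
    have h2 : (1 - 1 / 16 : ℝ)⁻¹ = 16 / 15 := by norm_num
    rw [h2] at h1
    refine h1.congr_fun fun j => ?_
    rw [pow_add]
    ring
  obtain ⟨ρ, hρ1, hρ2, hρ3, hρ4⟩ := Al.fut ψ hψ (fun n => r * (1 / 16) ^ n)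
    (fun n => by positivity) (by simpa using (hgeo 0).summable)
  have hρ3' : ∀ n, ρ n (Icc (-(2 * r * (1 / 16) ^ n)) (2 * r * (1 / 16) ^ n))ᶜ = 0 := by
    intro n
    refine measure_mono_null ?_ (hρ3 n)
    apply compl_subset_compl.2
    have h1 : (∑' j, r * (1 / 16 : ℝ) ^ (n + j)) ≤ 2 * r * (1 / 16) ^ n := by
      rw [(hgeo n).tsum_eq]
      have : 0 < r * (1 / 16 : ℝ) ^ n := by positivity
      linarith
    exact Icc_subset_Icc (by linarith) h1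
  have i0 := hρ1 0
  have i1 := hρ1 1
  have hs0 : ρ 0 (Icc (-(2 * r)) (2 * r))ᶜ = 0 := by
    have := hρ3' 0
    simpa using this
  have hs1 : ρ 0 (Icc (-1) 1)ᶜ = 0 := by
    refine measure_mono_null ?_ hs0
    apply compl_subset_compl.2
    exact Icc_subset_Icc (by linarith) (by linarith)
  have hs2 : ρ 1 (Icc (-(r / 15)) (r / 15))ᶜ = 0 := by
    have h1 := hρ3 1
    have h2 : (∑' j, r * (1 / 16 : ℝ) ^ (1 + j)) = r / 15 := by
      rw [(hgeo 1).tsum_eq]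
      ring
    have h3 : (∑' j, (fun n : ℕ => r * (1 / 16 : ℝ) ^ n) (1 + j)) = r / 15 := h2
    rw [h3] at h1
    exact h1
  have hρ0 : ρ 0 = (lev ψ r).conv (ρ 1) := by
    have h1 := hρ2 0
    simpa using h1
  obtain ⟨J, hJ, hJ1⟩ := Al.j0k ψ hψ r d KA hr0 hd hrange
  -- the small classes
  have hB' := fun n : ℕ => base3 ψ hψ (r * (1 / 16) ^ n) (J / 4 / 2) κ (by positivity)
    (by positivity) hκ
  choose δ₂ c hδ₂ hc hB2 using hB'
  obtain ⟨δ, hδ0, -, hδa, hδle, hδt⟩ := Pool.Agent.W792.WA.Ch.exists_eta δ₂ hδ₂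
  have hbase : ∀ (n : ℕ) (K' : C(UnitAddTorus (Fin d), ℝ)),
      (∀ z ∈ Zs d, J / 4 / 2 ≤ jf (ρ n) K' z) → ∀ X ∈ Eb δ κ n,
      GapK (qlaw X) (ρ n) K' (c n * δ (n + 1) ^ 2) := by
    intro n K' hK' X hX z hz s hs
    obtain ⟨-, δ', h1, h2, h3, h4⟩ := hX
    have j1 := hρ1 (n + 1)
    have h5 : 0 < δ' := lt_of_lt_of_le (hδ0 _) h1
    have h6 := hK' z hz
    rw [hρ2 n] at h6 hs
    have h7 := hB2 n (qlaw X) δ' d K' (ρ (n + 1)) _ z h5 (h2.trans (hδle n)) h3 h4 (hρ3' (n + 1))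
      hz.2.2.1 h6 s hs
    have h8 : c n * δ (n + 1) ^ 2 ≤ c n * δ' ^ 2 :=
      mul_le_mul_of_nonneg_left (pow_le_pow_left₀ (hδ0 _).le h1 2) (hc n).le
    linarith
  -- the large level
  obtain ⟨κ₁, hκ₁⟩ : ∃ κ₁ : ℝ, κ₁ = min (min (κ * δ 0 ^ 2) κ') 1 := ⟨_, rfl⟩
  have hκ₁0 : 0 < κ₁ := by
    rw [hκ₁]
    have := hδ0 0
    exact lt_min (lt_min (by positivity) hκ') one_pos
  have hκ₁1 : κ₁ ≤ 1 := by
    rw [hκ₁]
    exact min_le_right _ _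
  obtain ⟨eB, heB⟩ : ∃ eB : ℝ, eB = min (e / 128) ((r / 20) ^ p / 2) := ⟨_, rfl⟩
  have heB0 : 0 < eB := by
    rw [heB]
    exact lt_min (by positivity) (by positivity)
  obtain ⟨ψ₁, R, η, hlv, hR, hη, hhol, hmean, hlp, hgap⟩ :=
    gapn p κ₁ (‖KA‖ + (4 * d + 1)) eB hp hp2 hκ₁0 hκ₁1 (by positivity) heB0
  set 𝓧 : Set MX := {X | X ∈ Qf ∧ κ₁ ≤ vr (qlaw X)} with h𝓧
  have hTB : TB 𝓧 := tb_mono (fun X hX => hX.1) Al.netx2
  have hv : ∀ X ∈ 𝓧, 0 < vr (qlaw X) := fun X hX => lt_of_lt_of_le hκ₁0 hX.2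
  have hgap0 : ∀ X ∈ 𝓧, ∀ z ∈ Zs d, ∀ s,
      IsFix (qlaw X) ((lev ψ₁ R).conv (ρ 0)) (wz KA z) s → ‖s‖ ≤ 1 - η := by
    intro X hX z hz s hs
    refine hgap (qlaw X) d KA z (ρ 0) hX.2 hs1 ?_ hz.2.2.1 s hs
    have hzn := Complex.norm_le_abs_re_add_abs_im z
    rw [abs_of_nonneg hz.1, abs_of_pos hz.2.2.1] at hzn
    linarith [hz.2.1, hz.2.2.2]
  obtain ⟨M₁, hM₁⟩ := stepl d ψ₁ (ρ 0) (2 * r) η R KA 𝓧 hd hlv hv hTB hs0 (hρ4 0) hR hη hgap0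
    (η / 2) (by positivity)
  obtain ⟨M₂, hM₂⟩ := Prt.lf_lp hd ψ₁ hp (e' := e / 128) (by positivity) hlp
  obtain ⟨M₃, hM₃⟩ := Prt.lf_hop (g := g) hd ψ₁ hR hg hg2 (e := e / 4) (by positivity) hhol hmean
  obtain ⟨M₄, hM₄⟩ := JsB.main ψ hψ ψ₁ d KA R r (ρ 1) hd hr0 (J / 4) (by positivity)
  obtain ⟨M, hM⟩ : ∃ M : ℕ, M = max (max M₁ M₄) (max M₂ M₃) := ⟨_, rfl⟩
  have b1 := hM₁ M (by rw [hM]; exact (le_max_left _ _).trans (le_max_left _ _))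
  have b4 := hM₄ M (by rw [hM]; exact (le_max_right _ _).trans (le_max_left _ _))
  have b2 := hM₂ M (by rw [hM]; exact (le_max_left _ _).trans (le_max_right _ _))
  have b3 := hM₃ M (by rw [hM]; exact (le_max_right _ _).trans (le_max_right _ _))
  obtain ⟨KB, hKB⟩ : ∃ KB : C(UnitAddTorus (Fin d), ℝ), KB = addL ψ₁ KA R M := ⟨_, rfl⟩
  rw [← hKB] at b1 b4
  have hgap1 : ∀ X ∈ 𝓧, GapK (qlaw X) (ρ 0) KB (η / 2) := by
    intro X hX z hz s' hs'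
    have := Gap.lev_prob ψ₁ R
    obtain ⟨s, hs⟩ := ex_fix (qlaw X) (hv X hX) d ((lev ψ₁ R).conv (ρ 0)) (R + 1)
      (Gap.conv_supp _ _ (Gap.lev_supp hlv hR) hs1) KA z hz.2.2.1
    have h1 := (b1 X hX z hz s s' hs hs').1
    have h2 := hgap0 X hX z hz s hs
    have h3 : ‖s'‖ ≤ ‖s‖ + ‖s - s'‖ := by
      have := norm_sub_le s (s - s')
      rwa [sub_sub_cancel] at this
    linarith
  have hJB : ∀ z ∈ Zs d, J / 4 ≤ jf (ρ 0) KB z := by
    intro z hz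
    have h1 := Jlo.jlo hψ ψ₁ KA (R := R) hr0 hJ (ρ 1) hs2 hz.2.2.1
      (fun ρ' _ hρ' => hJ1 ρ' hρ' z hz)
      (Jlo.markov ψ₁ (by positivity) (by linarith) hlp (by rw [heB]; exact min_le_right _ _))
    have h2 := b4 z hz
    rw [hρ0]
    linarith
  -- the chain
  let D : PrG KB ψ := {
    l := fun n => r * (1 / 16) ^ n
    ρ := ρ
    T := fun n => 2 * r * (1 / 16) ^ n
    J := J / 4
    En := EA δ κ κ₁
    se := fun n => min (c n * δ (n + 1) ^ 2) (η / 2)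
    hψ := hψ.bound
    hl := fun n => by positivity
    hT := fun n => by
      have h1 : 0 < r * (1 / 16 : ℝ) ^ n := by positivity
      have h2 : (1 / 16 : ℝ) ^ (n + 1) = (1 / 16) ^ n * (1 / 16) := pow_succ _ _
      rw [h2]
      nlinarith
    hTp := fun n => by positivity
    hρ1 := hρ1
    hρ2 := hρ2
    hρ3 := hρ3'
    hρ4 := hρ4
    hJ := by positivity
    hJ0 := hJB
    se_pos := fun n => by
      have h1 := hδ0 (n + 1)
      have h2 := hc n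
      exact lt_min (by positivity) (by positivity)
    hQ := by
      rintro n X (hX | hX)
      · exact hX.1
      · exact hX.2.1
    hv := by
      rintro n X (⟨-, δ', h1, h2, h3, h4⟩ | hX)
      · have h5 : 0 < δ' := lt_of_lt_of_le (hδ0 _) h1
        exact lt_of_lt_of_le (by positivity) h4
      · exact lt_of_lt_of_le hκ₁0 hX.2.2
    entry0 := by
      rintro X (hX | hX) z hz s hs
      · have h1 := hbase 0 KB (fun z hz => by linarith [hJB z hz]) X hX z hz s hs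
        have h2 : min (c 0 * δ (0 + 1) ^ 2) (η / 2) ≤ c 0 * δ (0 + 1) ^ 2 := min_le_left _ _
        linarith
      · have h1 := hgap1 X hX.2 z hz s hs
        have h2 : min (c 0 * δ (0 + 1) ^ 2) (η / 2) ≤ η / 2 := min_le_right _ _
        linarith
    entry1 := by
      rintro n f hf X (hX | hX) z hz s hs
      · have h1 := hbase (n + 1) (kg KB f) hf X hX z hz s hs
        have h2 : min (c (n + 1) * δ (n + 1 + 1) ^ 2) (η / 2) ≤ c (n + 1) * δ (n + 1 + 1) ^ 2 :=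
          min_le_left _ _
        linarith
      · exact absurd hX.1 (Nat.succ_ne_zero n) }
  obtain ⟨f₂, hf₂, hMest⟩ := exists_fG Al.cx Al.uuc Al.scl Al.zf Al.cay Al.mzp Al.uni Al.uni2
    Al.step2 Al.jstep Al.netx2 hd hψ (r := r) D rfl
  have hb2 : ∀ t, |f₂ t| ≤ 2 * r := issum_le hψ.bound hf₂
  have hkey : (K0 + gK ((lf (Rng.psA w) RA NA + lf ψ₁ R M) + f₂) d :
      C(UnitAddTorus (Fin d), ℝ)) = kg KB f₂ := by
    rw [hKB, hKA]
    ext k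
    change K0 k + ((RA * Rng.psA w _ + R * ψ₁ _) + f₂ _) =
      ((K0 k + RA * Rng.psA w _) + R * ψ₁ _) + f₂ _
    ring
  refine ⟨(lf (Rng.psA w) RA NA + lf ψ₁ R M) + f₂, ⟨RA + R + 2 * r, fun t => ?_⟩, ?_,
    fun x => ?_, fun X hX hX2 => ?_, fun X hX δ' hδ' hX1 hX2 => ?_⟩
  · refine (abs_add_le _ _).trans (add_le_add ((abs_add_le _ _).trans (add_le_add ?_ ?_)) (hb2 t))
    · exact Prt.lf_bound (Rng.psA_bound hw0) hRA0 NA t
    · exact Prt.lf_bound hlv.bound hR M t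
  · have h1 := Prt.add_lp (d := d) hp hp2 (lf (Rng.psA w) RA NA + lf ψ₁ R M) f₂
    have h2 := Prt.add_lp (d := d) hp hp2 (lf (Rng.psA w) RA NA) (lf ψ₁ R M)
    have h3 := Prt.sum_lp (d := d) hψ.bound hp hr0 hr1 hf₂
    have h4 : eB ≤ e / 128 := by
      rw [heB]
      exact min_le_left _ _
    linarith
  · have h1 := Prt.add_hop (lf (Rng.psA w) RA NA) (lf ψ₁ R M) (a2 x) (b3 x)
    have h2 : 2 * r * C ≤ e / 2 := by
      have h2 : r * (4 * (C + 1)) ≤ e := by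
        rwa [le_div_iff₀ (by positivity)] at hr3
      nlinarith
    have h3 := Prt.sum_hop (g := g) hd hC.le hr0 hg2 (e := e / 2) (by positivity) h2 hCb hf₂ x
    refine (Prt.add_hop _ _ h1 h3).trans (le_of_eq ?_)
    ring
  · rw [hkey]
    refine hMest 0 X (Or.inr ⟨rfl, hX, ?_⟩)
    rw [hκ₁]
    exact (min_le_left _ _).trans ((min_le_right _ _).trans hX2)
  · rw [hkey]
    rcases le_total δ' (δ 0) with h | h
    · obtain ⟨j, -, hj2, hj3⟩ := Pool.Agent.W792.WA.Ch.find_class hδt hδ' h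
      exact hMest j X (Or.inl ⟨hX, δ', hj2, hj3, hX1, hX2⟩)
    · refine hMest 0 X (Or.inr ⟨rfl, hX, ?_⟩)
      have h1 : κ * δ 0 ^ 2 ≤ κ * δ' ^ 2 :=
        mul_le_mul_of_nonneg_left (pow_le_pow_left₀ (hδ0 0).le h 2) hκ.le
      have h2 : κ₁ ≤ κ * δ 0 ^ 2 := by
        rw [hκ₁]
        exact (min_le_left _ _).trans (min_le_left _ _)
      linarith

end

end Run7.h475.NP.Al2
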