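import Pool.Agent.N659.HB.Stm5
import Pool.Agent.W335.LLCay

/-!
Project NP: Cauchy averages.
-/

set_option autoImplicit false

namespace Run7.h475.NP.Caui

open MeasureTheory Filter Topology Pool.Agent.W792.LL Pool.Agent.W792.WA

/-- the standard Cauchy law -/
noncomputable abbrev cm : Measure ℝ := ProbabilityTheory.cauchyMeasure 0 1

theorem int_pow (k : ℕ) : Integrable (fun v : ℝ => cay v ^ k) cm := by
  refine (integrable_const (1 : ℝ)).mono' ?_ (ae_of_all _ fun v => ?_)
  · exact (Pool.Agent.W335.LLCay.cont_cay.pow k).aestronglyMeasurable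
  · rw [norm_pow, Pool.Agent.W335.LLCay.norm_cay, one_pow]

theorem avg_geom (ζ : ℂ) (hζ : ‖ζ‖ < 1) :
    ∫ v, (cay v - 1) / (1 - ζ * cay v) ∂cm = -1 := by
  set F : ℕ → ℝ → ℂ := fun k v => ζ ^ k * (cay v ^ (k + 1) - cay v ^ k) with hF
  have hint : ∀ k, Integrable (F k) cm := fun k =>
    ((int_pow (k + 1)).sub (int_pow k)).const_mul _
  have hval0 : ∫ v, F 0 v ∂cm = -1 := by
    simp only [hF, pow_zero, one_mul, zero_add]
    rw [integral_sub (int_pow 1) (integrable_const _), Pool.Agent.W335.LLCay.moment 1 one_pos]
    simp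
  have hval : ∀ k, 0 < k → ∫ v, F k v ∂cm = 0 := by
    intro k hk
    simp only [hF]
    rw [integral_const_mul, integral_sub (int_pow (k + 1)) (int_pow k),
      Pool.Agent.W335.LLCay.moment _ (Nat.succ_pos k), Pool.Agent.W335.LLCay.moment k hk]
    simp
  have hnb : ∀ k v, ‖F k v‖ ≤ 2 * ‖ζ‖ ^ k := by
    intro k v
    simp only [hF]
    rw [norm_mul, norm_pow]
    have h1 : ‖cay v ^ (k + 1) - cay v ^ k‖ ≤ 2 := by
      refine (norm_sub_le _ _).trans ?_
      rw [norm_pow, norm_pow, Pool.Agent.W335.LLCay.norm_cay]
      norm_num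
    nlinarith [pow_nonneg (norm_nonneg ζ) k]
  have hsum : Summable fun k => ∫ v, ‖F k v‖ ∂cm := by
    refine Summable.of_nonneg_of_le (fun k => integral_nonneg fun v => norm_nonneg _)
      (fun k => ?_) ((summable_geometric_of_lt_one (norm_nonneg ζ) hζ).mul_left 2)
    calc ∫ v, ‖F k v‖ ∂cm ≤ ∫ _, 2 * ‖ζ‖ ^ k ∂cm :=
          integral_mono (hint k).norm (integrable_const _) (hnb k)
      _ = 2 * ‖ζ‖ ^ k := by simp
  have h := hasSum_integral_of_summable_integral_norm hint hsum
  have h2 : HasSum (fun k => ∫ v, F k v ∂cm) (-1) := by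
    have := hasSum_single (f := fun k => ∫ v, F k v ∂cm) 0
      (fun k hk => hval k (Nat.pos_of_ne_zero hk))
    rwa [hval0] at this
  have h3 := h.unique h2
  rw [← h3]
  refine integral_congr_ae (ae_of_all _ fun v => ?_)
  have hlt : ‖ζ * cay v‖ < 1 := by
    rw [norm_mul, Pool.Agent.W335.LLCay.norm_cay, mul_one]
    exact hζ
  have hg := (hasSum_geometric_of_norm_lt_one hlt).mul_left (cay v - 1)
  have e : (fun k => (cay v - 1) * (ζ * cay v) ^ k) = fun k => F k v := by
    funext k
    simp only [hF]
    rw [mul_pow]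
    ring
  rw [e] at hg
  simp only
  rw [hg.tsum_eq, div_eq_mul_inv]

theorem avg_inv (p : ℂ) (hp : 0 < p.im) : ∫ v : ℝ, 1 / ((v : ℂ) - p) ∂cm = 1 / (-Complex.I - p) := by
  have hpi : p + Complex.I ≠ 0 := by
    intro h
    have := congrArg Complex.im h
    simp at this
    linarith
  have hζ : ‖(p - Complex.I) / (p + Complex.I)‖ < 1 := by
    rw [norm_div, div_lt_one (norm_pos_iff.2 hpi)]
    rw [← sq_lt_sq₀ (norm_nonneg _) (norm_nonneg _), ← Complex.normSq_eq_norm_sq,
      ← Complex.normSq_eq_norm_sq, Complex.normSq_apply, Complex.normSq_apply]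
    simp
    nlinarith
  have h := avg_geom _ hζ
  have e : ∀ v : ℝ, 1 / ((v : ℂ) - p) = (1 / (p + Complex.I)) *
      ((cay v - 1) / (1 - (p - Complex.I) / (p + Complex.I) * cay v)) := by
    intro v
    have h1 := Pool.Agent.W335.LLCay.sub_ne v
    have h2 : (v : ℂ) - p ≠ 0 := by
      intro h
      have := congrArg Complex.im h
      simp at this
      linarith
    have e1 : cay v - 1 = 2 * Complex.I / ((v : ℂ) - Complex.I) := by
      unfold cay
      field_simp
      ring
    have e2 : 1 - (p - Complex.I) / (p + Complex.I) * cay v =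
        2 * Complex.I * ((v : ℂ) - p) / ((p + Complex.I) * ((v : ℂ) - Complex.I)) := by
      unfold cay
      field_simp
      ring
    rw [e1, e2]
    have hI := Complex.I_ne_zero
    field_simp
  simp only [e]
  rw [integral_const_mul, h]
  have h3 : -Complex.I - p ≠ 0 := by
    intro h
    apply hpi
    linear_combination -h
  field_simp
  ring

theorem main : S_CAUI := by
  intro γ x s hγ hx hs
  have hs1 : (1 : ℂ) - s ≠ 0 := by
    intro h
    have : s = 1 := by linear_combination -h
    rw [this] at hs
    simp at hs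
  set y0 : ℂ := Complex.I * (1 + s) / (1 - s) with hy0
  have hy0im : 0 < y0.im := by
    have e : y0.im = ((1 + s) / (1 - s)).re := by
      rw [hy0, mul_div_assoc, Complex.I_mul_im]
    rw [e, Complex.div_re, ← add_div]
    apply div_pos
    · have h1 : s.re ^ 2 + s.im ^ 2 < 1 := by
        have h2 : ‖s‖ ^ 2 < 1 := by
          have := norm_nonneg s
          nlinarith
        rw [← Complex.normSq_eq_norm_sq, Complex.normSq_apply] at h2
        nlinarith
      simp
      nlinarith
    · exact Complex.normSq_pos.2 hs1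
  have hγc : (γ : ℂ) ≠ 0 := by exact_mod_cast hγ.ne'
  set p : ℂ := (y0 - x) / γ with hp
  have hpim : 0 < p.im := by
    rw [hp, Complex.div_ofReal_im]
    apply div_pos _ hγ
    rw [Complex.sub_im]
    linarith
  -- the general formula
  have key : ∀ y : ℂ, y.im < 0 → (y + Complex.I) / (y - Complex.I) /
      (1 - (y + Complex.I) / (y - Complex.I) * s) =
      1 / (1 - s) + (y0 + Complex.I) / (1 - s) * (1 / (y - y0)) := by
    intro y hy
    have h1 : y - Complex.I ≠ 0 := by
      intro h
      have := congrArg Complex.im h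
      simp at this
      linarith
    have h2 : y - y0 ≠ 0 := by
      intro h
      have := congrArg Complex.im h
      rw [Complex.sub_im, Complex.zero_im] at this
      linarith
    have h3 : 1 - (y + Complex.I) / (y - Complex.I) * s = (1 - s) * (y - y0) / (y - Complex.I) := by
      rw [hy0]
      field_simp
      ring
    rw [h3]
    field_simp
    ring
  have e : ∀ a : ℝ, cayx x (γ * a) / (1 - cayx x (γ * a) * s) =
      1 / (1 - s) + (y0 + Complex.I) / ((1 - s) * γ) * (1 / ((a : ℂ) - p)) := by
    intro a
    have hy : (x + (γ : ℂ) * a).im < 0 := by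
      have : ((γ : ℂ) * a).im = 0 := by simp
      rw [Complex.add_im, this]
      linarith
    have h := key _ hy
    unfold cayx
    push_cast
    rw [h]
    have h4 : x + (γ : ℂ) * a - y0 = γ * ((a : ℂ) - p) := by
      rw [hp]
      field_simp
      ring
    rw [h4]
    field_simp
  have e2 : cayx (x - γ * Complex.I) 0 / (1 - cayx (x - γ * Complex.I) 0 * s) =
      1 / (1 - s) + (y0 + Complex.I) / ((1 - s) * γ) * (1 / (-Complex.I - p)) := by
    have hy : (x - γ * Complex.I).im < 0 := by
      simp
      linarith
    have h := key _ hy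
    unfold cayx
    push_cast
    simp only [add_zero]
    rw [h]
    have h4 : x - (γ : ℂ) * Complex.I - y0 = γ * (-Complex.I - p) := by
      rw [hp]
      field_simp
      ring
    rw [h4]
    field_simp
  rw [e2]
  simp only [e]
  have hint : Integrable (fun a : ℝ => 1 / ((a : ℂ) - p)) cm := by
    refine (integrable_const (1 / p.im)).mono' ?_ (ae_of_all _ fun v => ?_)
    · refine Continuous.aestronglyMeasurable ?_
      refine continuous_const.div (Complex.continuous_ofReal.sub continuous_const) fun v h => ?_
      have := congrArg Complex.im h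
      simp at this
      linarith
    · rw [norm_div, norm_one]
      apply one_div_le_one_div_of_le hpim
      have := Complex.abs_im_le_norm ((v : ℂ) - p)
      have h2 : |((v : ℂ) - p).im| = p.im := by
        simp [abs_of_pos hpim]
      linarith
  rw [integral_add (integrable_const _) (hint.const_mul _), integral_const_mul, avg_inv p hpim]
  simp

end Run7.h475.NP.Caui
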