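import Pool.Agent.Run7.h475.NP.Fin

/-!
Project NP: one law, all couplings in a compact range.
-/

set_option autoImplicit false

namespace Run7.h475.NP.Cor

open MeasureTheory Filter Topology Set Pool.Agent.W792.LL Pool.Agent.W792.WA Pool.Agent.N659.HB
open UnitAddTorus

noncomputable section

theorem vr_scale (ν : Measure ℝ) [IsProbabilityMeasure ν] {lam lam₁ lam₂ : ℝ} (h1 : 0 < lam₁)
    (h2 : lam₁ ≤ lam) (h3 : lam ≤ lam₂) (hv : 0 < vr ν) :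
    min (lam₁ ^ 2) (1 / lam₂ ^ 2) * vr ν ≤ vr (ν.map fun x => lam * x) := by
  have hl : 0 < lam := lt_of_lt_of_le h1 h2
  refine le_trans ?_ (Eqd.vrs ν lam hl)
  apply mul_le_mul_of_nonneg_right _ hv.le
  apply min_le_min
  · exact pow_le_pow_left₀ h1.le h2 2
  · exact one_div_le_one_div_of_le (by positivity) (pow_le_pow_left₀ hl.le h3 2)

/-- One law, all couplings in a compact range. -/
theorem one_law (ν : Measure ℝ) [IsProbabilityMeasure ν] (hν : ∀ x : ℝ, ν {x} < 1) (d : ℕ)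
    (hd : 0 < d) (K : C(UnitAddTorus (Fin d), ℝ)) (a b p g lam₁ lam₂ ε : ℝ) (hab : a < b)
    (hp : 1 < p) (hp2 : p < 2) (hg : 0 ≤ g) (hg2 : g < (d : ℝ) / 3) (hl : 0 < lam₁)
    (hl2 : lam₁ ≤ lam₂) (hε : 0 < ε) :
    ∃ f : C(ℝ, ℝ), (∃ B : ℝ, ∀ t, |f t| ≤ B) ∧
      (∫ k : UnitAddTorus (Fin d), |f (lap d k)| ^ p ≤ ε) ∧
      (∀ x : Fin d → ℤ, ‖mFourierCoeff
        (fun k : UnitAddTorus (Fin d) => ((f (lap d k) : ℝ) : ℂ)) x‖ ≤ ε / (1 + ‖x‖) ^ g) ∧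
      ∀ lam : ℝ, lam₁ ≤ lam → lam ≤ lam₂ →
        ∀ᵐ v ∂(Pn ν (Fin d → ℤ)), ACIK (K + gK f d) 1 (fun x => lam * v x) a b := by
  have hv : 0 < vr ν := Ch.vr_pos Al.cay ν hν
  have hl22 : 0 < lam₂ := lt_of_lt_of_le hl hl2
  obtain ⟨f, h1, h2, h3, h4⟩ := Fin.np d hd K a b p g (min (lam₁ ^ 2) (1 / lam₂ ^ 2) * vr ν) ε hab
    hp hp2 hg hg2 (mul_pos (lt_min (by positivity) (by positivity)) hv) hε
  refine ⟨f, h1, h2, h3, fun lam h5 h6 => ?_⟩
  have hm : Measurable fun x : ℝ => lam * x := measurable_const.mul measurable_id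
  have hprob : IsProbabilityMeasure (ν.map fun x => lam * x) :=
    Measure.isProbabilityMeasure_map hm.aemeasurable
  have h7 := h4 (ν.map fun x => lam * x) (vr_scale ν hl h5 h6 hv)
  exact ae_map_law ν hm h7

/-- The equation for the Green function. -/
theorem sol_iff' {d : ℕ} (f : C(ℝ, ℝ)) (lam : ℝ) (ω : (Fin d → ℤ) → ℝ) (z : ℂ)
    (x : Fin d → ℤ) (u : (Fin d → ℤ) → ℂ) :
    Sol (hopK (lap d + gK f d)) 1 (fun y => lam * ω y) z x u ↔
      (Summable (fun y => ‖u y‖ ^ 2) ∧ ∀ y, ((∑ i : Fin d, (2 * u y - u (y + Pi.single i 1)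
          - u (y - Pi.single i 1)))
        + (∑' y', mFourierCoeff (fun k : UnitAddTorus (Fin d) =>
            ((f (∑ i, (2 - 2 * (fourier 1 (k i)).re)) : ℝ) : ℂ)) (y - y') * u y')
        + ((lam * ω y : ℝ) : ℂ) * u y) - z * u y = if y = x then 1 else 0) := by
  rw [Br.sol_iff (gK f d) 1 (fun y => lam * ω y) z x u]
  have e0 : (fun k : UnitAddTorus (Fin d) => ((gK f d k : ℝ) : ℂ))
      = fun k => ((f (∑ i, (2 - 2 * (fourier 1 (k i)).re)) : ℝ) : ℂ) := rfl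
  rw [e0]
  simp only [one_mul]

end

end Run7.h475.NP.Cor
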