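import Pool.Agent.Run7.h475.NP.Np2

/-!
Project NP: all disorders up to `Λ`, corollaries.
-/

set_option autoImplicit false

namespace Run7.h475.NP.Cor2

open MeasureTheory Filter Topology Set Pool.Agent.W792.LL Pool.Agent.W792.WA Pool.Agent.N659.HB
open UnitAddTorus

noncomputable section

theorem var_pos (ν : Measure ℝ) [IsProbabilityMeasure ν] (hν : ∀ x : ℝ, ν {x} < 1) {C : ℝ}
    (hC : ∀ᵐ x ∂ν, |x| ≤ C) : 0 < ∫ y, (y - ∫ y', y' ∂ν) ^ 2 ∂ν := by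
  set m := ∫ y', y' ∂ν with hm
  have h0 : 0 ≤ ∫ y, (y - m) ^ 2 ∂ν := integral_nonneg fun y => sq_nonneg _
  refine lt_of_le_of_ne h0 fun h => ?_
  have hi : Integrable (fun y : ℝ => (y - m) ^ 2) ν := by
    refine (Np2.sq_int ν hC m).congr (ae_of_all _ fun y => ?_)
    ring
  have h1 := (integral_eq_zero_iff_of_nonneg (fun y => sq_nonneg (y - m)) hi).1 h.symm
  have h2 : ∀ᵐ y ∂ν, y ∈ ({m} : Set ℝ) := by
    filter_upwards [h1] with y hy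
    have h3 : (y - m) ^ 2 = 0 := hy
    have h4 := pow_eq_zero_iff (two_ne_zero) |>.1 h3
    exact sub_eq_zero.1 h4
  have h3 : ν {m} = 1 := (prob_compl_eq_zero_iff (measurableSet_singleton m)).1 h2
  exact absurd (hν m) (by rw [h3]; exact lt_irrefl 1)

/-- One bounded law, all couplings up to `Λ`. -/
theorem one_law (ν : Measure ℝ) [IsProbabilityMeasure ν] (hν : ∀ x : ℝ, ν {x} < 1) {C : ℝ}
    (hC0 : 0 < C) (hC : ∀ᵐ x ∂ν, |x| ≤ C) (d : ℕ) (hd : 0 < d) (K : C(UnitAddTorus (Fin d), ℝ))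
    (a b p g Λ ε : ℝ) (hab : a < b) (hp : 1 < p) (hp2 : p < 2) (hg : 0 ≤ g)
    (hg2 : g < (d : ℝ) / 3) (hε : 0 < ε) :
    ∃ f : C(ℝ, ℝ), (∃ B : ℝ, ∀ t, |f t| ≤ B) ∧
      (∫ k : UnitAddTorus (Fin d), |f (lap d k)| ^ p ≤ ε) ∧
      (∀ x : Fin d → ℤ, ‖mFourierCoeff
        (fun k : UnitAddTorus (Fin d) => ((f (lap d k) : ℝ) : ℂ)) x‖ ≤ ε / (1 + ‖x‖) ^ g) ∧
      ∀ lam : ℝ, 0 < lam → lam ≤ Λ →
        ∀ᵐ v ∂(Pn ν (Fin d → ℤ)), ACIK (K + gK f d) 1 (fun x => lam * v x) a b := by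
  obtain ⟨f, h1, h2, h3, -, h5⟩ := Np2.np2 d hd K a b p g C _ Λ 1 ε hab hp hp2 hg hg2 hC0
    (var_pos ν hν hC) one_pos hε
  exact ⟨f, h1, h2, h3, fun lam hl hl2 => h5 ν hC le_rfl lam hl hl2⟩

/-- One law, a compact range of couplings, together with all bounded laws with enough variance, all
couplings up to `Λ`. -/
theorem two (ν₀ : Measure ℝ) [IsProbabilityMeasure ν₀] (hν₀ : ∀ x : ℝ, ν₀ {x} < 1)
    (d : ℕ) (hd : 0 < d) (K : C(UnitAddTorus (Fin d), ℝ))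
    (a b p g C V Λ lam₁ lam₂ ε : ℝ) (hab : a < b) (hp : 1 < p) (hp2 : p < 2) (hg : 0 ≤ g)
    (hg2 : g < (d : ℝ) / 3) (hC : 0 < C) (hV : 0 < V) (hl : 0 < lam₁) (hl2 : lam₁ ≤ lam₂)
    (hε : 0 < ε) :
    ∃ f : C(ℝ, ℝ), (∃ B : ℝ, ∀ t, |f t| ≤ B) ∧
      (∫ k : UnitAddTorus (Fin d), |f (lap d k)| ^ p ≤ ε) ∧
      (∀ x : Fin d → ℤ, ‖mFourierCoeff
        (fun k : UnitAddTorus (Fin d) => ((f (lap d k) : ℝ) : ℂ)) x‖ ≤ ε / (1 + ‖x‖) ^ g) ∧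
      (∀ lam : ℝ, lam₁ ≤ lam → lam ≤ lam₂ →
        ∀ᵐ v ∂(Pn ν₀ (Fin d → ℤ)), ACIK (K + gK f d) 1 (fun x => lam * v x) a b) ∧
      ∀ (ν : Measure ℝ) [IsProbabilityMeasure ν], (∀ᵐ x ∂ν, |x| ≤ C) →
        V ≤ ∫ y, (y - ∫ y', y' ∂ν) ^ 2 ∂ν → ∀ lam : ℝ, 0 < lam → lam ≤ Λ →
        ∀ᵐ v ∂(Pn ν (Fin d → ℤ)), ACIK (K + gK f d) 1 (fun x => lam * v x) a b := by
  have hv : 0 < vr ν₀ := Ch.vr_pos Al.cay ν₀ hν₀
  have hl22 : 0 < lam₂ := lt_of_lt_of_le hl hl2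
  obtain ⟨f, h1, h2, h3, h4, h5⟩ := Np2.np2 d hd K a b p g C V Λ
    (min (lam₁ ^ 2) (1 / lam₂ ^ 2) * vr ν₀) ε hab hp hp2 hg hg2 hC hV
    (mul_pos (lt_min (by positivity) (by positivity)) hv) hε
  refine ⟨f, h1, h2, h3, fun lam h6 h7 => ?_, fun ν _ h6 h7 lam h8 h9 => h5 ν h6 h7 lam h8 h9⟩
  have hm : Measurable fun x : ℝ => lam * x := measurable_const.mul measurable_id
  have hprob : IsProbabilityMeasure (ν₀.map fun x => lam * x) :=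
    Measure.isProbabilityMeasure_map hm.aemeasurable
  exact ae_map_law ν₀ hm (h4 (ν₀.map fun x => lam * x) (Cor.vr_scale ν₀ hl h6 h7 hv))

end

end Run7.h475.NP.Cor2
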