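import Pool.Agent.N659.HB.Stm5
import Pool.Agent.W792.WA.All2
import Pool.Agent.W191.LL.Avg0

/-!
Project NP: equidistribution of `M lap / 2π`, scaling of the variance.
-/

set_option autoImplicit false

namespace Run7.h475.NP.Eqd

open MeasureTheory Filter Topology Set Pool.Agent.W792.LL Pool.Agent.W792.WA Pool.Agent.N659.HB
open Pool.Agent.W191.LL UnitAddTorus

noncomputable section

theorem vol_eq (d : ℕ) : (volume : Measure (UnitAddTorus (Fin d))) = mu d := by
  have h : (volume : Measure UnitAddCircle) = AddCircle.haarAddCircle := by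
    rw [AddCircle.volume_eq_smul_haarAddCircle, ENNReal.ofReal_one, one_smul]
  unfold mu
  rw [← h]
  rfl

theorem mfc_zero {d : ℕ} (f : UnitAddTorus (Fin d) → ℂ) :
    mFourierCoeff f 0 = ∫ k, f k ∂(mu d) := by
  rw [mfc_eq]
  congr 1
  ext k
  rw [neg_zero, mFourier_zero]
  simp

theorem eqd : S_EQD := by
  intro d h hd e he
  have hAvg : S_AVG0 := Pool.Agent.W191.LL.main Pool.Agent.W688.LL.Osc.main
  let F : C(UnitAddTorus (Fin d) × UnitAddCircle, ℂ) := ⟨fun p => ((h p.2 : ℝ) : ℂ), by fun_prop⟩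
  obtain ⟨M₀, hM₀⟩ := hAvg d hd F e he
  refine ⟨M₀, fun M hM => ?_⟩
  have h1 := hM₀ M hM 0
  rw [mfc_zero] at h1
  have hc : Continuous fun k : UnitAddTorus (Fin d) =>
      ((M * lap d k / (2 * Real.pi) : ℝ) : UnitAddCircle) :=
    (AddCircle.continuous_mk' (1 : ℝ)).comp (by fun_prop)
  have hi : Integrable (fun k : UnitAddTorus (Fin d) =>
      F (k, ((M * lap d k / (2 * Real.pi) : ℝ) : UnitAddCircle))) (mu d) := by
    have : Continuous fun k : UnitAddTorus (Fin d) =>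
        F (k, ((M * lap d k / (2 * Real.pi) : ℝ) : UnitAddCircle)) :=
      F.continuous.comp (continuous_id.prodMk hc)
    exact this.integrable_of_hasCompactSupport (HasCompactSupport.of_compactSpace _)
  have e2 : ∀ k : UnitAddTorus (Fin d), (∫ φ in Ioc (0 : ℝ) 1, F (k, (φ : UnitAddCircle))) =
      ((∫ φ in Ioc (0 : ℝ) 1, h (φ : UnitAddCircle) : ℝ) : ℂ) := by
    intro k
    exact integral_ofReal (𝕜 := ℂ) (f := fun φ : ℝ => h (φ : UnitAddCircle))
  simp only [e2] at h1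
  rw [integral_sub hi (integrable_const _)] at h1
  have e3 : (∫ k, F (k, ((M * lap d k / (2 * Real.pi) : ℝ) : UnitAddCircle)) ∂(mu d)) =
      ((∫ k : UnitAddTorus (Fin d), h ((M * lap d k / (2 * Real.pi) : ℝ) : UnitAddCircle) : ℝ)
        : ℂ) := by
    rw [vol_eq]
    exact integral_ofReal (𝕜 := ℂ) (f := fun k : UnitAddTorus (Fin d) =>
      h ((M * lap d k / (2 * Real.pi) : ℝ) : UnitAddCircle))
  rw [e3, integral_const, probReal_univ, one_smul, ← Complex.ofReal_sub, Complex.norm_real,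
    Real.norm_eq_abs] at h1
  exact h1

theorem dbl (ν : Measure ℝ) [IsProbabilityMeasure ν] (u : ℝ → ℂ) (hm : Measurable u)
    (hu : ∀ x, ‖u x‖ = 1) :
    (∀ x, Integrable (fun y => ‖u x - u y‖ ^ 2) ν) ∧
    Integrable (fun x => ∫ y, ‖u x - u y‖ ^ 2 ∂ν) ν ∧
    1 - ‖∫ x, u x ∂ν‖ ^ 2 = (1 / 2) * ∫ x, ∫ y, ‖u x - u y‖ ^ 2 ∂ν ∂ν := by
  have hui : Integrable u ν := (integrable_const (1 : ℝ)).mono' hm.aestronglyMeasurable
    (ae_of_all _ fun x => (hu x).le)
  have hci : Integrable (fun y => (starRingEnd ℂ) (u y)) ν := by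
    refine (integrable_const (1 : ℝ)).mono' ?_ (ae_of_all _ fun x => ?_)
    · exact (Complex.continuous_conj.measurable.comp hm).aestronglyMeasurable
    · rw [RCLike.norm_conj]
      exact (hu x).le
  set m := ∫ x, u x ∂ν with hmd
  have hcm : ∫ y, (starRingEnd ℂ) (u y) ∂ν = (starRingEnd ℂ) m := integral_conj
  have e : ∀ x y, ‖u x - u y‖ ^ 2 = 2 - 2 * (u x * (starRingEnd ℂ) (u y)).re := fun x y =>
    Pool.Agent.W999.WA.Vr.norm_sub_sq (hu x) (hu y)
  have hxi : ∀ x, Integrable (fun y => u x * (starRingEnd ℂ) (u y)) ν := fun x =>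
    hci.const_mul _
  have hxr : ∀ x, Integrable (fun y => (u x * (starRingEnd ℂ) (u y)).re) ν := fun x =>
    (hxi x).re
  have h1 : ∀ x, Integrable (fun y => ‖u x - u y‖ ^ 2) ν := by
    intro x
    simp only [e]
    exact (integrable_const _).sub ((hxr x).const_mul 2)
  have h2 : ∀ x, ∫ y, ‖u x - u y‖ ^ 2 ∂ν = 2 - 2 * (u x * (starRingEnd ℂ) m).re := by
    intro x
    simp only [e]
    rw [integral_sub (integrable_const _) ((hxr x).const_mul 2), integral_const_mul]
    have h3 : ∫ y, (u x * (starRingEnd ℂ) (u y)).re ∂ν =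
        (∫ y, u x * (starRingEnd ℂ) (u y) ∂ν).re := integral_re (hxi x)
    rw [h3, integral_const_mul, hcm]
    simp
  have hmi : Integrable (fun x => u x * (starRingEnd ℂ) m) ν := hui.mul_const _
  have hmr : Integrable (fun x => (u x * (starRingEnd ℂ) m).re) ν := hmi.re
  refine ⟨h1, ?_, ?_⟩
  · simp only [h2]
    exact (integrable_const _).sub (hmr.const_mul 2)
  · simp only [h2]
    rw [integral_sub (integrable_const _) (hmr.const_mul 2), integral_const_mul]
    have h3 : ∫ x, (u x * (starRingEnd ℂ) m).re ∂ν = (∫ x, u x * (starRingEnd ℂ) m ∂ν).re :=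
      integral_re hmi
    rw [h3, integral_mul_const, ← hmd, Complex.mul_conj, Complex.ofReal_re,
      Complex.normSq_eq_norm_sq]
    simp
    ring

theorem num {α x y : ℝ} (hα : 0 < α) :
    min (α ^ 2) (1 / α ^ 2) * (4 * (x - y) ^ 2 / ((1 + x ^ 2) * (1 + y ^ 2))) ≤
      4 * (α * x - α * y) ^ 2 / ((1 + (α * x) ^ 2) * (1 + (α * y) ^ 2)) := by
  rw [← mul_div_assoc, div_le_div_iff₀ (by positivity) (by positivity)]
  set c := min (α ^ 2) (1 / α ^ 2) with hc
  have hc0 : 0 < c := lt_min (by positivity) (by positivity)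
  have key : c * ((1 + (α * x) ^ 2) * (1 + (α * y) ^ 2)) ≤
      α ^ 2 * ((1 + x ^ 2) * (1 + y ^ 2)) := by
    have hα2 : 0 < α ^ 2 := by positivity
    rcases le_total α 1 with h | h
    · have h1 : c ≤ α ^ 2 := min_le_left _ _
      have h2 : α ^ 2 ≤ 1 := by nlinarith
      have h3 : (1 + (α * x) ^ 2) ≤ 1 + x ^ 2 := by
        rw [mul_pow]
        nlinarith [sq_nonneg x]
      have h4 : (1 + (α * y) ^ 2) ≤ 1 + y ^ 2 := by
        rw [mul_pow]
        nlinarith [sq_nonneg y]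
      exact mul_le_mul h1 (mul_le_mul h3 h4 (by positivity) (by positivity)) (by positivity)
        (by positivity)
    · have h1 : c ≤ 1 / α ^ 2 := min_le_right _ _
      have h2 : 1 ≤ α ^ 2 := by nlinarith
      have h3 : (1 + (α * x) ^ 2) ≤ α ^ 2 * (1 + x ^ 2) := by
        rw [mul_pow]
        nlinarith [sq_nonneg x]
      have h4 : (1 + (α * y) ^ 2) ≤ α ^ 2 * (1 + y ^ 2) := by
        rw [mul_pow]
        nlinarith [sq_nonneg y]
      calc c * ((1 + (α * x) ^ 2) * (1 + (α * y) ^ 2))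
          ≤ (1 / α ^ 2) * ((α ^ 2 * (1 + x ^ 2)) * (α ^ 2 * (1 + y ^ 2))) :=
            mul_le_mul h1 (mul_le_mul h3 h4 (by positivity) (by positivity)) (by positivity)
              (by positivity)
        _ = α ^ 2 * ((1 + x ^ 2) * (1 + y ^ 2)) := by
            field_simp
  have h5 : c * (4 * (x - y) ^ 2) * ((1 + (α * x) ^ 2) * (1 + (α * y) ^ 2)) =
      (4 * (x - y) ^ 2) * (c * ((1 + (α * x) ^ 2) * (1 + (α * y) ^ 2))) := by ring
  have h6 : 4 * (α * x - α * y) ^ 2 * ((1 + x ^ 2) * (1 + y ^ 2)) =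
      (4 * (x - y) ^ 2) * (α ^ 2 * ((1 + x ^ 2) * (1 + y ^ 2))) := by ring
  rw [h5, h6]
  exact mul_le_mul_of_nonneg_left key (by positivity)

theorem vrs : S_VRS := by
  intro ν _ α hα
  have hcm : Measurable cay := Pool.Agent.W335.LLCay.cont_cay.measurable
  have hma : Measurable fun x : ℝ => α * x := measurable_const.mul measurable_id
  obtain ⟨a1, a2, a3⟩ := dbl ν cay hcm Pool.Agent.W335.LLCay.norm_cay
  obtain ⟨b1, b2, b3⟩ := dbl ν (fun x => cay (α * x)) (hcm.comp hma)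
    (fun x => Pool.Agent.W335.LLCay.norm_cay _)
  have e1 : vr (ν.map fun x => α * x) = 1 - ‖∫ x, cay (α * x) ∂ν‖ ^ 2 := by
    unfold vr
    rw [integral_map hma.aemeasurable hcm.aestronglyMeasurable]
  rw [e1, b3]
  unfold vr
  rw [a3]
  set c := min (α ^ 2) (1 / α ^ 2) with hc
  rw [show c * (1 / 2 * ∫ x, ∫ y, ‖cay x - cay y‖ ^ 2 ∂ν ∂ν) =
    1 / 2 * (c * ∫ x, ∫ y, ‖cay x - cay y‖ ^ 2 ∂ν ∂ν) by ring, ← integral_const_mul]
  apply mul_le_mul_of_nonneg_left _ (by norm_num)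
  apply integral_mono (a2.const_mul c) b2
  intro x
  simp only
  rw [← integral_const_mul]
  apply integral_mono ((a1 x).const_mul c) (b1 x)
  intro y
  simp only
  rw [Pool.Agent.W999.WA.Vr.norm_cay_sub, Pool.Agent.W999.WA.Vr.norm_cay_sub]
  exact num hα

end

end Run7.h475.NP.Eqd
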