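import Pool.Agent.N659.HB.Stm5
import Pool.Agent.W792.WA.All4

/-!
Project NP: hopping amplitudes of one level of high frequency.
-/

set_option autoImplicit false

namespace Run7.h475.NP.Hop

open MeasureTheory Filter Topology Set Pool.Agent.W792.LL Pool.Agent.W792.WA Pool.Agent.N659.HB
open Pool.Agent.W62.WA.WD Pool.Agent.W191.LL UnitAddTorus

noncomputable section

theorem decay (d : ℕ) (hd : 0 < d) (g : ℝ) (hg : 0 ≤ g) (hg2 : g < (d : ℝ) / 3) :
    ∃ C : ℝ, 0 < C ∧ ∀ (t : ℝ) (x : Fin d → ℤ),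
      ‖mFourierCoeff (ex d t) x‖ ≤ C / ((1 + ‖x‖) ^ g * (1 + |t|) ^ ((d : ℝ) / 3 - g)) := by
  obtain ⟨C1, hC1, h1⟩ := Al.kc d hd
  obtain ⟨C2, hC2, h2⟩ := Pool.Agent.W174.WA.KA.main
  have hd0 : (0 : ℝ) < d := by exact_mod_cast hd
  refine ⟨max C1 (C2 ^ d), lt_max_of_lt_left hC1, fun t x => ?_⟩
  set C := max C1 (C2 ^ d) with hC
  have hC0 : 0 < C := lt_max_of_lt_left hC1
  set X : ℝ := 1 + ‖x‖ with hX
  set Y : ℝ := 1 + |t| with hY
  have hX1 : 1 ≤ X := by rw [hX]; linarith [norm_nonneg x]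
  have hY1 : 1 ≤ Y := by rw [hY]; linarith [abs_nonneg t]
  set A : ℝ := ‖mFourierCoeff (ex d t) x‖ with hA
  have hA0 : 0 ≤ A := norm_nonneg _
  have a1 : A ≤ C / X ^ ((d : ℝ) / 3) := by
    refine (h1 t x).trans ?_
    exact div_le_div_of_nonneg_right (le_max_left _ _) (by positivity)
  have a2 : A ≤ C / Y ^ ((d : ℝ) / 3) := by
    have e : A = ∏ i : Fin d, ‖k1 t (-x i)‖ := by
      rw [hA, ← norm_prod, ← Pool.Agent.W988.WA.KC.prodform]
      rfl
    rw [e]
    calc ∏ i : Fin d, ‖k1 t (-x i)‖ ≤ ∏ _i : Fin d, C2 / Y ^ (1 / 3 : ℝ) :=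
          Finset.prod_le_prod (fun _ _ => norm_nonneg _) fun i _ => h2 t (-x i)
      _ = C2 ^ d / Y ^ ((d : ℝ) / 3) := by
          rw [Finset.prod_const, Finset.card_univ, Fintype.card_fin, div_pow,
            ← Real.rpow_mul_natCast (by linarith)]
          congr 2
          ring
      _ ≤ C / Y ^ ((d : ℝ) / 3) :=
          div_le_div_of_nonneg_right (le_max_right _ _) (by positivity)
  have hXp : 0 < X ^ ((d : ℝ) / 3) := by positivity
  have hYp : 0 < Y ^ ((d : ℝ) / 3) := by positivity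
  rw [le_div_iff₀ hXp] at a1
  rw [le_div_iff₀ hYp] at a2
  have hXg : 0 < X ^ g := by positivity
  have hYg : 0 < Y ^ ((d : ℝ) / 3 - g) := by positivity
  rw [le_div_iff₀ (by positivity)]
  rcases le_total X Y with h | h
  · have h3 : X ^ g * Y ^ ((d : ℝ) / 3 - g) ≤ Y ^ ((d : ℝ) / 3) := by
      calc X ^ g * Y ^ ((d : ℝ) / 3 - g) ≤ Y ^ g * Y ^ ((d : ℝ) / 3 - g) :=
            mul_le_mul_of_nonneg_right (Real.rpow_le_rpow (by linarith) h hg) hYg.le
        _ = Y ^ ((d : ℝ) / 3) := by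
            rw [← Real.rpow_add (by linarith)]
            congr 1
            ring
    exact (mul_le_mul_of_nonneg_left h3 hA0).trans a2
  · have h3 : X ^ g * Y ^ ((d : ℝ) / 3 - g) ≤ X ^ ((d : ℝ) / 3) := by
      calc X ^ g * Y ^ ((d : ℝ) / 3 - g) ≤ X ^ g * X ^ ((d : ℝ) / 3 - g) :=
            mul_le_mul_of_nonneg_left (Real.rpow_le_rpow (by linarith) h (by linarith)) hXg.le
        _ = X ^ ((d : ℝ) / 3) := by
            rw [← Real.rpow_add (by linarith)]
            congr 1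
            ring
    exact (mul_le_mul_of_nonneg_left h3 hA0).trans a1

theorem main : S_HOPM := by
  intro d ψ g ε hd hg hg2 hε hhol hmean
  obtain ⟨C, hC, hb⟩ := decay d hd g hg hg2
  have hsum := Pool.Agent.W332.WA.WB.main ψ hhol
  let ψC : C(UnitAddCircle, ℂ) := ⟨fun t => ((ψ t : ℝ) : ℂ), by fun_prop⟩
  let c : ℤ → ℂ := fourierCoeff ψC
  have hsum' : Summable fun h => ‖c h‖ := hsum
  have hc0 : c 0 = 0 := by
    simp only [c]
    rw [fourierCoeff_eq_intervalIntegral _ _ 0]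
    have e : ∀ φ : ℝ, fourier (-(0 : ℤ)) (φ : UnitAddCircle) • ψC (φ : UnitAddCircle) =
        ((ψ (φ : UnitAddCircle) : ℝ) : ℂ) := by
      intro φ
      simp [ψC]
    have e2 : (∫ φ in (0 : ℝ)..0 + 1, fourier (-(0 : ℤ)) (φ : UnitAddCircle) •
        ψC (φ : UnitAddCircle)) = 0 := by
      rw [intervalIntegral.integral_congr (g := fun φ => ((ψ (φ : UnitAddCircle) : ℝ) : ℂ))
        (fun φ _ => e φ), zero_add, intervalIntegral.integral_ofReal,
        intervalIntegral.integral_of_le zero_le_one, hmean]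
      simp
    rw [e2, smul_zero]
  have hps : ∀ y, HasSum (fun i => c i • fourier i y) (ψC y) :=
    has_pointwise_sum_fourier_series_of_summable (f := ψC) hsum'.of_norm
  have hT : 0 ≤ ∑' h, ‖c h‖ := tsum_nonneg fun _ => norm_nonneg _
  set T : ℝ := ∑' h, ‖c h‖ with hTd
  set β : ℝ := (d : ℝ) / 3 - g with hβ
  have hβ0 : 0 < β := by rw [hβ]; linarith
  have htend : Tendsto (fun M : ℕ => (1 + (M : ℝ)) ^ β) atTop atTop :=
    (tendsto_rpow_atTop hβ0).comp
      (tendsto_atTop_add_const_left _ _ tendsto_natCast_atTop_atTop)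
  obtain ⟨M₀, hM₀⟩ := eventually_atTop.1 (htend.eventually_ge_atTop (T * C / ε))
  refine ⟨M₀, fun M hM x => ?_⟩
  have hMβ := hM₀ M hM
  have hMp : 0 < (1 + (M : ℝ)) ^ β := by positivity
  let F : ℤ → UnitAddTorus (Fin d) → ℂ := fun h t =>
    mFourier (-x) t * (c h * ex d ((h : ℝ) * M) t)
  have hFi : ∀ h, Integrable (F h) (mu d) := fun h =>
    mfc_int (fun t => c h * ex d ((h : ℝ) * M) t) (continuous_const.mul (ex_cont d _)) (-x)
  have hFn : ∀ h t, ‖F h t‖ ≤ ‖c h‖ := by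
    intro h t
    simp only [F]
    rw [norm_mul, norm_mul, ex_norm, mul_one]
    calc ‖mFourier (-x) t‖ * ‖c h‖ ≤ 1 * ‖c h‖ :=
          mul_le_mul_of_nonneg_right (mf_norm _ _) (norm_nonneg _)
      _ = ‖c h‖ := one_mul _
  have hFs : Summable fun h => ∫ t, ‖F h t‖ ∂(mu d) := by
    refine Summable.of_nonneg_of_le (fun h => integral_nonneg fun t => norm_nonneg _) ?_ hsum'
    intro h
    calc ∫ t, ‖F h t‖ ∂(mu d) ≤ ∫ _, ‖c h‖ ∂(mu d) :=
          integral_mono (hFi h).norm (integrable_const _) (fun t => hFn h t)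
      _ = ‖c h‖ := by simp
  have hS := hasSum_integral_of_summable_integral_norm hFi hFs
  have e1 : (∫ t, (∑' h, F h t) ∂(mu d)) = mFourierCoeff (fun k : UnitAddTorus (Fin d) =>
      ((ψ ((M * lap d k / (2 * Real.pi) : ℝ) : UnitAddCircle) : ℝ) : ℂ)) x := by
    rw [mfc_eq]
    congr 1
    ext t
    have h1 := (hps (ph d M t)).mul_left (mFourier (-x) t)
    have h2 : (fun i => mFourier (-x) t * (c i • fourier i (ph d M t))) = fun i => F i t := by
      funext i
      simp only [F]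
      rw [four, smul_eq_mul]
    rw [h2] at h1
    rw [h1.tsum_eq]
    rfl
  have e2 : ∀ h, ∫ t, F h t ∂(mu d) = c h * mFourierCoeff (ex d ((h : ℝ) * M)) x := by
    intro h
    rw [← mfc_smul, mfc_eq]
  rw [e1] at hS
  have hden : 0 < (1 + ‖x‖) ^ g := by positivity
  have hbd : ∀ h, ‖∫ t, F h t ∂(mu d)‖ ≤
      ‖c h‖ * (C / ((1 + ‖x‖) ^ g * (1 + (M : ℝ)) ^ β)) := by
    intro h
    rw [e2, norm_mul]
    by_cases hh : h = 0
    · rw [hh, hc0]
      simp
    · refine mul_le_mul_of_nonneg_left ?_ (norm_nonneg _)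
      refine (hb ((h : ℝ) * M) x).trans ?_
      apply div_le_div_of_nonneg_left hC.le (by positivity)
      apply mul_le_mul_of_nonneg_left _ hden.le
      apply Real.rpow_le_rpow (by positivity) _ hβ0.le
      have h1 : (1 : ℝ) ≤ |(h : ℝ)| := by
        rw [← Int.cast_abs]
        exact_mod_cast Int.one_le_abs hh
      rw [abs_mul, Nat.abs_cast]
      nlinarith [Nat.cast_nonneg (α := ℝ) M]
  have hle := hS.norm_le_of_bounded
    (hsum'.hasSum.mul_right (C / ((1 + ‖x‖) ^ g * (1 + (M : ℝ)) ^ β))) hbd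
  refine hle.trans ?_
  rw [← mul_div_assoc, div_le_div_iff₀ (by positivity) hden]
  rw [div_le_iff₀ hε] at hMβ
  calc T * C * (1 + ‖x‖) ^ g ≤ (1 + (M : ℝ)) ^ β * ε * (1 + ‖x‖) ^ g :=
        mul_le_mul_of_nonneg_right hMβ hden.le
    _ = ε * ((1 + ‖x‖) ^ g * (1 + (M : ℝ)) ^ β) := by ring

end

end Run7.h475.NP.Hop
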