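import Pool.Agent.Run7.h475.NP.Stp
import Pool.Agent.W930.WA.Step2

/-!
Adding one level for any level function, uniformly over a totally bounded set of laws (the proof of
`Pool.Agent.W930.WA.Step2`).
-/

namespace Run7.h475.NP.Stp2

open MeasureTheory Filter Pool.Agent.W792.LL Pool.Agent.W792.WA
open Pool.Agent.W685.WA.Step (meas_lev prob_Ioc prob_lev conv_int im_le meas_cayx cayx_add lip
  UU_apply UU_lip UU_eq_WM WC Wf conv_Bs zf_tri zf_sym zf_int tb_Zs)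
open Run7.h475.NP.Stp (S_STEPF conv_supp conv_two norm_x_le)
open Pool.Agent.W930.WA.Step2 (reps fix_lt UU_norm near norm_K_le)
open scoped Topology

noncomputable section

theorem main : S_STEPF → S_SC1 → S_SCL → S_GAIN → S_PSI → S_UUC → S_FIX → S_STAB → S_CX → S_PSIW →
    S_ZFW → S_STEPL := by
  intro hSTEP _hSC1 hSCL hGAIN _hPSI hUUC hFIX hSTAB hCX hPSIW hZFW d ψ ρ _ C σ l K 𝓧 hd hψ hvr hTB
    hρ htwo hl hσ hbnd e he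
  have hO : S_OPR := Pool.Agent.W918.LL.main
  have hCay : S_CAY := Pool.Agent.W335.LLCay.main
  have hZ : S_ZF := Pool.Agent.W762.LL.main hO Pool.Agent.W792.LL.DiaP.main
  have hM : S_MZ := Pool.Agent.W978.LL.main hO Pool.Agent.W792.LL.DiaP.main hZ hCay
  have hcm : Measurable cay := by
    unfold cay
    fun_prop
  have := prob_lev ψ l
  have hρ0s : ((lev ψ l).conv ρ) (Set.Icc (-(C + l)) (C + l))ᶜ = 0 := conv_supp hψ hl hρ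
  have hσ4 : 0 < σ / 4 := by positivity
  obtain ⟨γ₀, hγ00, hγ01, hgain₀⟩ := hGAIN ((lev ψ l).conv ρ) (C + l) (‖K‖ + l + 4 * d + 1) (σ / 4)
    hρ0s (conv_two hψ hl) hσ4
  obtain ⟨γ₁, hγ10, hγ11, hgain₁⟩ := hGAIN ρ C (‖K‖ + l + 4 * d + 1) (σ / 4) hρ htwo hσ4
  obtain ⟨q, hq⟩ : ∃ q, q = max (Real.sqrt (1 - γ₀)) (Real.sqrt (1 - γ₁)) := ⟨_, rfl⟩
  have hqs₀ : Real.sqrt (1 - γ₀) ≤ q := hq ▸ le_max_left _ _
  have hqs₁ : Real.sqrt (1 - γ₁) ≤ q := hq ▸ le_max_right _ _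
  have hq0 : 0 ≤ q := (Real.sqrt_nonneg _).trans hqs₀
  have hq1 : q < 1 := by
    rw [hq]
    refine max_lt ?_ ?_ <;>
    · rw [Real.sqrt_lt' one_pos]
      linarith
  obtain ⟨Lp, hLp0, hLp⟩ := hPSIW q hq0 hq1
  obtain ⟨Lz, hLz0, hLz⟩ := hZFW q hq0 hq1
  obtain ⟨A, hA⟩ : ∃ A, A = 8 / (σ / 4) ^ 2 := ⟨_, rfl⟩
  have hApos : 0 < A := by rw [hA]; positivity
  obtain ⟨B, hB⟩ : ∃ B, B = 1 / (1 - q) ^ 2 := ⟨_, rfl⟩
  have h1q : 0 < 1 - q := by linarith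
  have hBpos : 0 < B := by rw [hB]; positivity
  have hdiv : ∀ a b : ℝ, 0 ≤ a → a ≤ b → a / (1 - q) ^ 2 ≤ b * B := by
    intro a b _ hab
    rw [hB, mul_one_div]
    gcongr
  -- constants
  obtain ⟨θ, hθ⟩ : ∃ θ, θ = min (min 1 (e / 8)) (min (σ / 4) (e / (8 * A * B))) := ⟨_, rfl⟩
  have hθ0 : 0 < θ := by
    rw [hθ]
    exact lt_min (lt_min one_pos (by positivity)) (lt_min hσ4 (by positivity))
  have hθ1 : θ ≤ 1 := hθ ▸ (min_le_left _ _).trans (min_le_left _ _)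
  have hθe : θ ≤ e / 8 := hθ ▸ (min_le_left _ _).trans (min_le_right _ _)
  have hθσ : θ ≤ σ / 4 := hθ ▸ (min_le_right _ _).trans (min_le_left _ _)
  have hθB : A * θ * B ≤ e / 8 := by
    have h : θ ≤ e / (8 * A * B) := hθ ▸ (min_le_right _ _).trans (min_le_right _ _)
    rw [le_div_iff₀ (by positivity)] at h
    linarith
  obtain ⟨τ, hτdef⟩ : ∃ τ, τ = min (min (σ / 4 * γ₀ * θ ^ 2 / (28 * Lp))
    (σ / 4 * γ₁ * θ ^ 2 / (28 * Lp))) (e / (8 * Lz)) := ⟨_, rfl⟩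
  have hτ0 : 0 < τ := by
    rw [hτdef]
    exact lt_min (lt_min (by positivity) (by positivity)) (by positivity)
  have hτ₀ : 28 * (Lp * τ) ≤ σ / 4 * γ₀ * θ ^ 2 := by
    have h : τ ≤ σ / 4 * γ₀ * θ ^ 2 / (28 * Lp) :=
      hτdef ▸ (min_le_left _ _).trans (min_le_left _ _)
    rw [le_div_iff₀ (by positivity)] at h
    linarith
  have hτ₁ : 28 * (Lp * τ) ≤ σ / 4 * γ₁ * θ ^ 2 := by
    have h : τ ≤ σ / 4 * γ₁ * θ ^ 2 / (28 * Lp) :=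
      hτdef ▸ (min_le_left _ _).trans (min_le_right _ _)
    rw [le_div_iff₀ (by positivity)] at h
    linarith
  have hτz : Lz * τ ≤ e / 8 := by
    have h : τ ≤ e / (8 * Lz) := hτdef ▸ min_le_right _ _
    rw [le_div_iff₀ (by positivity)] at h
    linarith
  obtain ⟨e1, he1⟩ : ∃ e1, e1 = min (e / 8) (σ / 4) := ⟨_, rfl⟩
  have he10 : 0 < e1 := by
    rw [he1]
    exact lt_min (by positivity) hσ4
  have he1e : e1 ≤ e / 8 := he1 ▸ min_le_left _ _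
  have he1σ : e1 ≤ σ / 4 := he1 ▸ min_le_right _ _
  -- the net
  obtain ⟨F, hF, hFX, hnet⟩ := reps hCay hcm hTB hτ0
  have hev : ∀ Y ∈ F, ∀ᶠ M : ℕ in atTop, ∀ z ∈ Zs d, ∀ s s',
      IsFix (qlaw Y) ((lev ψ l).conv ρ) (wz K z) s → IsFix (qlaw Y) ρ (wz (addL ψ K l M) z) s' →
      ‖s - s'‖ ≤ e1 ∧ ∫ v, ‖Zf (UU ((lev ψ l).conv ρ) (wz K z) s) (fun x => cay (v x))
        - Zf (UU ρ (wz (addL ψ K l M) z) s') (fun x => cay (v x))‖ ∂(Pn (qlaw Y) (Fin d → ℤ))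
          ≤ e1 := by
    intro Y hY
    obtain ⟨M₀, hM₀⟩ := hSTEP (qlaw Y) d ψ ρ C σ l K hd hψ (hvr Y (hFX hY)) hρ htwo hl hσ
      (hbnd Y (hFX hY)) e1 he10
    filter_upwards [eventually_ge_atTop M₀] with M hM
    exact hM₀ M hM
  obtain ⟨M₀, hM₀⟩ := eventually_atTop.1 ((eventually_all_finite hF).2 hev)
  refine ⟨M₀, fun M hMM X hX z hz s s' hs hs' => ?_⟩
  obtain ⟨Y, hY, hXY⟩ := hnet X hX
  have hzi := hz.2.2.1
  have hD₀ : ∀ k, ‖(K k : ℂ) - z‖ ≤ ‖K‖ + l + 4 * d + 1 := norm_K_le hl K hz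
  have hD₁ : ∀ k, ‖(addL ψ K l M k : ℂ) - z‖ ≤ ‖K‖ + l + 4 * d + 1 :=
    fun k => norm_x_le hψ hl K hz k _
  obtain ⟨t, ht⟩ := (fix_lt hCX hFIX hρ0s hzi hD₀ (hvr Y (hFX hY))).1
  obtain ⟨t', ht'⟩ := (fix_lt hCX hFIX hρ hzi hD₁ (hvr Y (hFX hY))).1
  obtain ⟨htt, hZY⟩ := hM₀ M hMM Y hY z hz t t' ht ht'
  have hsn : ‖s‖ ≤ 1 - σ := hbnd X hX z hz s hs
  have htn : ‖t‖ ≤ 1 - σ := hbnd Y (hFX hY) z hz t ht
  have ht'n : ‖t'‖ ≤ 1 - 3 * σ / 4 := by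
    have h1 := norm_add_le (t' - t) t
    rw [sub_add_cancel, norm_sub_rev] at h1
    linarith
  have hst : ‖s - t‖ ≤ θ := near hCX hUUC hFIX hSTAB hρ0s hzi hD₀ hσ4 hγ00 hγ01 hgain₀ hq0 hqs₀
    hLp hτ0.le hXY (hvr X hX) hs ht (by linarith) hθ0 hθ1 hτ₀
  have hst' : ‖s' - t'‖ ≤ θ := near hCX hUUC hFIX hSTAB hρ hzi hD₁ hσ4 hγ10 hγ11 hgain₁ hq0 hqs₁
    hLp hτ0.le hXY (hvr X hX) hs' ht' (by linarith) hθ0 hθ1 hτ₁
  have hs'n : ‖s'‖ ≤ 1 - σ / 2 := by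
    have h1 := norm_add_le (s' - t') t'
    rw [sub_add_cancel] at h1
    linarith
  have hss : ‖s - s'‖ ≤ e := by
    have h1 := norm_sub_le_norm_sub_add_norm_sub s t s'
    have h2 := norm_sub_le_norm_sub_add_norm_sub t t' s'
    rw [norm_sub_rev t' s'] at h2
    linarith
  have hUs : ‖UU ((lev ψ l).conv ρ) (wz K z) s‖ ≤ q :=
    UU_norm hCX hUUC hρ0s hzi hD₀ hσ4 hgain₀ hq0 hqs₀ (by linarith)
  have hUt : ‖UU ((lev ψ l).conv ρ) (wz K z) t‖ ≤ q :=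
    UU_norm hCX hUUC hρ0s hzi hD₀ hσ4 hgain₀ hq0 hqs₀ (by linarith)
  have hUs' : ‖UU ρ (wz (addL ψ K l M) z) s'‖ ≤ q :=
    UU_norm hCX hUUC hρ hzi hD₁ hσ4 hgain₁ hq0 hqs₁ (by linarith)
  have hUt' : ‖UU ρ (wz (addL ψ K l M) z) t'‖ ≤ q :=
    UU_norm hCX hUUC hρ hzi hD₁ hσ4 hgain₁ hq0 hqs₁ (by linarith)
  have hUU : ‖UU ((lev ψ l).conv ρ) (wz K z) s - UU ((lev ψ l).conv ρ) (wz K z) t‖ ≤ A * θ := by
    refine (UU_lip hSCL hCX hUUC ((lev ψ l).conv ρ) hρ0s _ hσ4 hzi.le hzi.le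
      (show ‖s‖ ≤ 1 - σ / 4 by linarith) (show ‖t‖ ≤ 1 - σ / 4 by linarith)).trans ?_
    rw [← hA, sub_self, norm_zero, mul_zero, zero_add]
    exact mul_le_mul_of_nonneg_left hst hApos.le
  have hUU' : ‖UU ρ (wz (addL ψ K l M) z) t' - UU ρ (wz (addL ψ K l M) z) s'‖ ≤ A * θ := by
    refine (UU_lip hSCL hCX hUUC ρ hρ _ hσ4 hzi.le hzi.le
      (show ‖t'‖ ≤ 1 - σ / 4 by linarith) (show ‖s'‖ ≤ 1 - σ / 4 by linarith)).trans ?_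
    rw [← hA, sub_self, norm_zero, mul_zero, zero_add, norm_sub_rev]
    exact mul_le_mul_of_nonneg_left hst' hApos.le
  refine ⟨hss, ?_⟩
  have h1 := zf_tri hZ hM hCay (qlaw X) hq0 hq1 hUs hUt hUs'
  have h2 := zf_tri hZ hM hCay (qlaw X) hq0 hq1 hUt hUt' hUs'
  have h3 := (zf_int hZ hM hCay (qlaw X) hq0 hq1 hUs hUt).2.trans (hdiv _ _ (norm_nonneg _) hUU)
  have h4 := (zf_int hZ hM hCay (qlaw X) hq0 hq1 hUt' hUs').2.trans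
    (hdiv _ _ (norm_nonneg _) hUU')
  have h5 := hLz X Y τ hτ0.le hXY d _ _ hUt hUt'
  linarith

end

end Run7.h475.NP.Stp2
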