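import Pool.Agent.Run7.h475.NP.Gap
import Pool.Agent.Run7.h475.NP.Hop
import Pool.Agent.Run7.h475.NP.Eqd
import Pool.Agent.Run7.h475.NP.Stp
import Pool.Agent.Run7.h475.NP.Stp2
import Pool.Agent.Run7.h475.NP.Chn
import Pool.Agent.N659.HB.Fin0

/-!
Project NP: the theorem at arbitrary disorder.
-/

set_option autoImplicit false

namespace Run7.h475.NP.Fin

open MeasureTheory Filter Topology Set Pool.Agent.W792.LL Pool.Agent.W792.WA Pool.Agent.N659.HB
open UnitAddTorus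

noncomputable section

theorem issum_le {ψ : C(UnitAddCircle, ℝ)} (hψ : ∀ t, |ψ t| ≤ 1) {S : ℝ} {f : C(ℝ, ℝ)}
    (h : IsSum ψ S f) (t : ℝ) : |f t| ≤ S := by
  obtain ⟨l, M, h1, h2, h3, h4⟩ := h
  rw [h4, ← Real.norm_eq_abs]
  refine (tsum_of_norm_bounded h2.hasSum fun j => ?_).trans h3
  rw [norm_mul, Real.norm_of_nonneg (h1 j), Real.norm_eq_abs]
  nlinarith [h1 j, hψ ((M j * t / (2 * Real.pi) : ℝ) : UnitAddCircle)]

/-- One level as a function of the energy. -/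
def lf (ψ : C(UnitAddCircle, ℝ)) (R : ℝ) (M : ℕ) : C(ℝ, ℝ) where
  toFun t := R * ψ ((M * t / (2 * Real.pi) : ℝ) : UnitAddCircle)
  continuous_toFun := by
    have h : Continuous fun t : ℝ => ((M * t / (2 * Real.pi) : ℝ) : UnitAddCircle) :=
      (AddCircle.continuous_mk' (1 : ℝ)).comp (by fun_prop)
    exact continuous_const.mul (ψ.continuous.comp h)

theorem ex_fix (ν : Measure ℝ) [IsProbabilityMeasure ν] (hv : 0 < vr ν) (d : ℕ)
    (ρ : Measure ℝ) [IsProbabilityMeasure ρ] (C : ℝ) (hρ : ρ (Icc (-C) C)ᶜ = 0)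
    (K : C(UnitAddTorus (Fin d), ℝ)) (z : ℂ) (hz : 0 < z.im) :
    ∃ s, IsFix ν ρ (wz K z) s := by
  obtain ⟨q', hq'0, hq'1, hq'⟩ := Al.cx.2.2.1 C (‖K‖ + ‖z‖) z.im hz
  have hwb : ∀ k, ∀ a ∈ Icc (-C) C, ‖wz K z k a‖ ≤ q' := by
    intro k a ha
    refine hq' _ a ?_ (by simp) (abs_le.2 ha)
    refine (norm_sub_le _ _).trans ?_
    have h1 := K.norm_coe_le_norm k
    rw [Complex.norm_real]
    linarith
  exact (Al.fix ν d ρ C q' (wz K z) hv hρ (Al.cx.2.2.2 d K z hz.le) hq'0 hq'1 hwb).1.exists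

theorem tb_mono {A B : Set MX} (h : A ⊆ B) (hB : TB B) : TB A := by
  intro τ hτ
  obtain ⟨F, h1, h2⟩ := hB τ hτ
  exact ⟨F, h1, fun X hX => h2 X (h hX)⟩

theorem lp_add {p x y : ℝ} (hp : 1 < p) (hp2 : p < 2) :
    |x + y| ^ p ≤ 4 * (|x| ^ p + |y| ^ p) := by
  have h1 : |x + y| ≤ 2 * max |x| |y| := by
    refine (abs_add_le x y).trans ?_
    linarith [le_max_left |x| |y|, le_max_right |x| |y|]
  have hm : 0 ≤ max |x| |y| := le_max_of_le_left (abs_nonneg x)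
  calc |x + y| ^ p ≤ (2 * max |x| |y|) ^ p :=
        Real.rpow_le_rpow (abs_nonneg _) h1 (by linarith)
    _ = 2 ^ p * (max |x| |y|) ^ p := Real.mul_rpow (by norm_num) hm
    _ ≤ 4 * (|x| ^ p + |y| ^ p) := by
        have h2 : (2 : ℝ) ^ p ≤ 4 := by
          calc (2 : ℝ) ^ p ≤ 2 ^ (2 : ℝ) :=
                Real.rpow_le_rpow_of_exponent_le (by norm_num) hp2.le
            _ = 4 := by norm_num
        have h3 : (max |x| |y|) ^ p ≤ |x| ^ p + |y| ^ p := by
          have hx : 0 ≤ |x| ^ p := by positivity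
          have hy : 0 ≤ |y| ^ p := by positivity
          rcases max_choice |x| |y| with h | h
          · rw [h]
            linarith
          · rw [h]
            linarith
        have h4 : 0 ≤ (max |x| |y|) ^ p := by positivity
        exact mul_le_mul h2 h3 h4 (by norm_num)

theorem stepl : S_STEPL :=
  Stp2.main (Stp.main Al.sc1 Al.scl Al.gain Al.psi Al.uuc Al.fix Al.stab Al.cx Al.uni Al.c1)
    Al.sc1 Al.scl Al.gain Al.psi Al.uuc Al.fix Al.stab Al.cx Al.psiw Al.zfw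

theorem gapn : S_GAPN := Gap.main Al.cx Al.fix Al.psi Al.uuc (Lev.main Al.cx Al.sc1)

/-- Normalized form. -/
theorem normalized (d : ℕ) (hd : 0 < d) (K0 : C(UnitAddTorus (Fin d), ℝ)) (p g κ e : ℝ)
    (hp : 1 < p) (hp2 : p < 2) (hg : 0 ≤ g) (hg2 : g < (d : ℝ) / 3) (hκ : 0 < κ) (hκ1 : κ ≤ 1)
    (he : 0 < e) :
    ∃ F : C(ℝ, ℝ), (∃ B : ℝ, ∀ t, |F t| ≤ B) ∧
      (∫ k : UnitAddTorus (Fin d), |F (lap d k)| ^ p ≤ e) ∧
      (∀ x : Fin d → ℤ, ‖mFourierCoeff
        (fun k : UnitAddTorus (Fin d) => ((F (lap d k) : ℝ) : ℂ)) x‖ ≤ e / (1 + ‖x‖) ^ g) ∧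
      ∀ X ∈ Qf, κ ≤ vr (qlaw X) → MestK (K0 + gK F d) (qlaw X) := by
  obtain ⟨ψ₁, R, η, hlv, hR, hη, hhol, hmean, hlp, hgap⟩ :=
    gapn p κ (‖K0‖ + (4 * d + 1)) (e / 16) hp hp2 hκ hκ1 (by positivity) (by positivity)
  obtain ⟨ψ, hψ, hψh⟩ := Pool.Agent.W915.WA.WH.main
  obtain ⟨C, hC, hCb⟩ := Al.wd d ψ hd (Pool.Agent.W332.WA.WB.main ψ hψh)
  set r : ℝ := min (1 / 2) (min (e / 16) (e / (4 * (C + 1)))) with hr
  have hr0 : 0 < r := lt_min (by norm_num) (lt_min (by positivity) (by positivity))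
  have hr1 : r ≤ 1 / 2 := min_le_left _ _
  have hr2 : r ≤ e / 16 := (min_le_right _ _).trans (min_le_left _ _)
  have hr3 : r ≤ e / (4 * (C + 1)) := (min_le_right _ _).trans (min_le_right _ _)
  have hgeo : ∀ n : ℕ, HasSum (fun j : ℕ => r * (1 / 16 : ℝ) ^ (n + j))
      (r * (1 / 16) ^ n * (16 / 15)) := by
    intro n
    have h1 := (hasSum_geometric_of_lt_one (r := (1 / 16 : ℝ)) (by norm_num)
      (by norm_num)).mul_left (r * (1 / 16) ^ n)
    have h2 : (1 - 1 / 16 : ℝ)⁻¹ = 16 / 15 := by norm_num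
    rw [h2] at h1
    refine h1.congr_fun fun j => ?_
    rw [pow_add]
    ring
  obtain ⟨ρ, hρ1, hρ2, hρ3, hρ4⟩ := Al.fut ψ hψ (fun n => r * (1 / 16) ^ n)
    (fun n => by positivity) (by simpa using (hgeo 0).summable)
  have hρ3' : ∀ n, ρ n (Icc (-(2 * r * (1 / 16) ^ n)) (2 * r * (1 / 16) ^ n))ᶜ = 0 := by
    intro n
    refine measure_mono_null ?_ (hρ3 n)
    apply compl_subset_compl.2
    have h1 : (∑' j, r * (1 / 16 : ℝ) ^ (n + j)) ≤ 2 * r * (1 / 16) ^ n := by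
      rw [(hgeo n).tsum_eq]
      have : 0 < r * (1 / 16 : ℝ) ^ n := by positivity
      linarith
    exact Icc_subset_Icc (by linarith) h1
  have := hρ1 0
  set 𝓧 : Set MX := {X | X ∈ Qf ∧ κ ≤ vr (qlaw X)} with h𝓧
  have hTB : TB 𝓧 := tb_mono (fun X hX => hX.1) Al.netx2
  have hv : ∀ X ∈ 𝓧, 0 < vr (qlaw X) := fun X hX => lt_of_lt_of_le hκ hX.2
  have hs0 : ρ 0 (Icc (-(2 * r)) (2 * r))ᶜ = 0 := by
    have := hρ3' 0
    simpa using this
  have hs1 : ρ 0 (Icc (-1) 1)ᶜ = 0 := by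
    refine measure_mono_null ?_ hs0
    apply compl_subset_compl.2
    exact Icc_subset_Icc (by linarith) (by linarith)
  have hgap0 : ∀ X ∈ 𝓧, ∀ z ∈ Zs d, ∀ s,
      IsFix (qlaw X) ((lev ψ₁ R).conv (ρ 0)) (wz K0 z) s → ‖s‖ ≤ 1 - η := by
    intro X hX z hz s hs
    refine hgap (qlaw X) d K0 z (ρ 0) hX.2 hs1 ?_ hz.2.2.1 s hs
    have hzn := Complex.norm_le_abs_re_add_abs_im z
    rw [abs_of_nonneg hz.1, abs_of_pos hz.2.2.1] at hzn
    linarith [hz.2.1, hz.2.2.2]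
  obtain ⟨M₁, hM₁⟩ := stepl d ψ₁ (ρ 0) (2 * r) η R K0 𝓧 hd hlv hv hTB hs0 (hρ4 0) hR hη hgap0
    (η / 2) (by positivity)
  have hhp : Continuous fun t : UnitAddCircle => |R * ψ₁ t| ^ p :=
    (continuous_const.mul ψ₁.continuous).abs.rpow_const fun _ => Or.inr (by linarith)
  obtain ⟨M₂, hM₂⟩ := Eqd.eqd d ⟨fun t : UnitAddCircle => |R * ψ₁ t| ^ p, hhp⟩ hd (e / 16)
    (by positivity)
  obtain ⟨M₃, hM₃⟩ := Hop.main d ψ₁ g (e / (2 * R)) hd hg hg2 (by positivity) hhol hmean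
  set M : ℕ := max M₁ (max M₂ M₃) with hM
  have a1 := hM₁ M (le_max_left _ _)
  have a2 := hM₂ M ((le_max_left _ _).trans (le_max_right _ _))
  have a3 := hM₃ M ((le_max_right _ _).trans (le_max_right _ _))
  have hgap1 : ∀ X ∈ 𝓧, ∀ z ∈ Zs d, ∀ s, IsFix (qlaw X) (ρ 0) (wz (addL ψ₁ K0 R M) z) s →
      ‖s‖ ≤ 1 - η / 2 := by
    intro X hX z hz s' hs'
    have := Gap.lev_prob ψ₁ R
    obtain ⟨s, hs⟩ := ex_fix (qlaw X) (hv X hX) d ((lev ψ₁ R).conv (ρ 0)) (R + 1)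
      (Gap.conv_supp _ _ (Gap.lev_supp hlv hR) hs1) K0 z hz.2.2.1
    have h1 := (a1 X hX z hz s s' hs hs').1
    have h2 := hgap0 X hX z hz s hs
    have h3 : ‖s'‖ ≤ ‖s‖ + ‖s - s'‖ := by
      have := norm_sub_le s (s - s')
      rwa [sub_sub_cancel] at this
    linarith
  obtain ⟨f₂, hf₂, hMest⟩ := Chn.main Al.cx Al.uuc Al.scl Al.zf Al.cay Al.mzp Al.uni Al.uni2
    Al.step2 ψ hψ d hd 𝓧 hTB hv (addL ψ₁ K0 R M) r (η / 2) hr0 (by positivity) ρ hρ1 hρ2 hρ3'
    hρ4 hgap1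
  have hb2 : ∀ t, |f₂ t| ≤ 2 * r := issum_le hψ.bound hf₂
  have hb1 : ∀ t, |lf ψ₁ R M t| ≤ R := by
    intro t
    change |R * ψ₁ _| ≤ R
    rw [abs_mul, abs_of_pos hR]
    nlinarith [hlv.bound ((M * t / (2 * Real.pi) : ℝ) : UnitAddCircle)]
  have hci : ∀ G : C(UnitAddTorus (Fin d), ℝ), Integrable (fun k => |G k| ^ p)
      (volume : Measure (UnitAddTorus (Fin d))) := by
    intro G
    have h1 : Continuous fun k => |G k| ^ p :=
      G.continuous.abs.rpow_const fun _ => Or.inr (by linarith)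
    exact h1.integrable_of_hasCompactSupport (HasCompactSupport.of_compactSpace _)
  refine ⟨lf ψ₁ R M + f₂, ⟨R + 2 * r, fun t => ?_⟩, ?_, fun x => ?_, fun X hX hX2 => ?_⟩
  · exact (abs_add_le _ _).trans (add_le_add (hb1 t) (hb2 t))
  · have h1 : ∀ k : UnitAddTorus (Fin d), |(lf ψ₁ R M + f₂) (lap d k)| ^ p ≤
        4 * (|(lf ψ₁ R M) (lap d k)| ^ p + |f₂ (lap d k)| ^ p) := fun k => lp_add hp hp2
    have i1 : Integrable (fun k : UnitAddTorus (Fin d) => |(lf ψ₁ R M) (lap d k)| ^ p) :=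
      hci (gK (lf ψ₁ R M) d)
    have i2 : Integrable (fun k : UnitAddTorus (Fin d) => |f₂ (lap d k)| ^ p) := hci (gK f₂ d)
    have i3 : Integrable (fun k : UnitAddTorus (Fin d) => |(lf ψ₁ R M + f₂) (lap d k)| ^ p) :=
      hci (gK (lf ψ₁ R M + f₂) d)
    have h2 : ∫ k : UnitAddTorus (Fin d), |(lf ψ₁ R M + f₂) (lap d k)| ^ p ≤
        4 * ((∫ k : UnitAddTorus (Fin d), |(lf ψ₁ R M) (lap d k)| ^ p) +
          ∫ k : UnitAddTorus (Fin d), |f₂ (lap d k)| ^ p) := by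
      rw [← integral_add i1 i2, ← integral_const_mul]
      exact integral_mono i3 ((i1.add i2).const_mul 4) h1
    have h3 : ∫ k : UnitAddTorus (Fin d), |(lf ψ₁ R M) (lap d k)| ^ p ≤ e / 8 := by
      have h4 := (abs_le.1 a2).2
      have h5 : (∫ k : UnitAddTorus (Fin d),
          (⟨fun t : UnitAddCircle => |R * ψ₁ t| ^ p, hhp⟩ : C(UnitAddCircle, ℝ))
            ((M * lap d k / (2 * Real.pi) : ℝ) : UnitAddCircle)) =
          ∫ k : UnitAddTorus (Fin d), |(lf ψ₁ R M) (lap d k)| ^ p := rfl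
      rw [h5] at h4
      have h6 : (∫ φ in Ioc (0 : ℝ) 1,
          (⟨fun t : UnitAddCircle => |R * ψ₁ t| ^ p, hhp⟩ : C(UnitAddCircle, ℝ))
            (φ : UnitAddCircle)) ≤ e / 16 := hlp
      linarith
    have h7 : ∫ k : UnitAddTorus (Fin d), |f₂ (lap d k)| ^ p ≤ e / 8 := by
      have h8 : ∀ k : UnitAddTorus (Fin d), |f₂ (lap d k)| ^ p ≤ 2 * r := by
        intro k
        calc |f₂ (lap d k)| ^ p ≤ (2 * r) ^ p :=
              Real.rpow_le_rpow (abs_nonneg _) (hb2 _) (by linarith)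
          _ ≤ (2 * r) ^ (1 : ℝ) :=
              Real.rpow_le_rpow_of_exponent_ge (by linarith) (by linarith) hp.le
          _ = 2 * r := Real.rpow_one _
      have hvol : IsProbabilityMeasure (volume : Measure (UnitAddTorus (Fin d))) := by
        rw [Eqd.vol_eq]
        unfold Pool.Agent.W191.LL.mu
        infer_instance
      calc ∫ k : UnitAddTorus (Fin d), |f₂ (lap d k)| ^ p
          ≤ ∫ _ : UnitAddTorus (Fin d), 2 * r := integral_mono i2 (integrable_const _) h8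
        _ = 2 * r := by simp
        _ ≤ e / 8 := by linarith
    linarith
  · have hc1 : Continuous fun k : UnitAddTorus (Fin d) => (((lf ψ₁ R M) (lap d k) : ℝ) : ℂ) := by
      fun_prop
    have hc2 : Continuous fun k : UnitAddTorus (Fin d) => ((f₂ (lap d k) : ℝ) : ℂ) := by
      fun_prop
    have hsplit : (fun k : UnitAddTorus (Fin d) => (((lf ψ₁ R M + f₂) (lap d k) : ℝ) : ℂ)) =
        fun k => (((lf ψ₁ R M) (lap d k) : ℝ) : ℂ) + ((f₂ (lap d k) : ℝ) : ℂ) := by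
      funext k
      rw [ContinuousMap.add_apply]
      push_cast
      rfl
    have hadd := Pool.Agent.W191.LL.mfc_add _ _ hc1 hc2 x
    rw [hsplit]
    have hX1 : (1 : ℝ) ≤ 1 + ‖x‖ := by linarith [norm_nonneg x]
    have hden : 0 < (1 + ‖x‖) ^ g := by positivity
    have b1 : ‖mFourierCoeff (fun k : UnitAddTorus (Fin d) =>
        (((lf ψ₁ R M) (lap d k) : ℝ) : ℂ)) x‖ ≤ (e / 2) / (1 + ‖x‖) ^ g := by
      have h1 : mFourierCoeff (fun k : UnitAddTorus (Fin d) =>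
          (((lf ψ₁ R M) (lap d k) : ℝ) : ℂ)) x = (R : ℂ) * mFourierCoeff
          (fun k : UnitAddTorus (Fin d) => ((ψ₁ ((M * lap d k / (2 * Real.pi) : ℝ) :
            UnitAddCircle) : ℝ) : ℂ)) x := by
        rw [← Pool.Agent.W191.LL.mfc_smul]
        congr 1
        funext k
        change ((R * ψ₁ _ : ℝ) : ℂ) = _
        push_cast
        rfl
      rw [h1, norm_mul, Complex.norm_real, Real.norm_of_nonneg hR.le]
      calc R * ‖mFourierCoeff (fun k : UnitAddTorus (Fin d) =>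
          ((ψ₁ ((M * lap d k / (2 * Real.pi) : ℝ) : UnitAddCircle) : ℝ) : ℂ)) x‖
          ≤ R * (e / (2 * R) / (1 + ‖x‖) ^ g) := mul_le_mul_of_nonneg_left (a3 x) hR.le
        _ = (e / 2) / (1 + ‖x‖) ^ g := by
            field_simp
    have b2 : ‖mFourierCoeff (fun k : UnitAddTorus (Fin d) =>
        ((f₂ (lap d k) : ℝ) : ℂ)) x‖ ≤ (e / 2) / (1 + ‖x‖) ^ g := by
      refine (WSP.main d ψ C (2 * r) f₂ hd hC.le (by linarith) hCb hf₂ x).trans ?_
      have h1 : 2 * r * C ≤ e / 2 := by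
        have h2 : r * (4 * (C + 1)) ≤ e := by
          rwa [le_div_iff₀ (by positivity)] at hr3
        nlinarith
      have h2 : (1 + ‖x‖) ^ g ≤ (1 + ‖x‖) ^ ((d : ℝ) / 3) :=
        Real.rpow_le_rpow_of_exponent_le hX1 hg2.le
      exact div_le_div₀ (by positivity) h1 hden h2
    calc ‖mFourierCoeff (fun k : UnitAddTorus (Fin d) => (((lf ψ₁ R M) (lap d k) : ℝ) : ℂ) +
          ((f₂ (lap d k) : ℝ) : ℂ)) x‖
        ≤ (e / 2) / (1 + ‖x‖) ^ g + (e / 2) / (1 + ‖x‖) ^ g := by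
          rw [hadd]
          exact (norm_add_le _ _).trans (add_le_add b1 b2)
      _ = e / (1 + ‖x‖) ^ g := by ring
  · have hkey : (K0 + gK (lf ψ₁ R M + f₂) d : C(UnitAddTorus (Fin d), ℝ)) =
        addL ψ₁ K0 R M + gK f₂ d := by
      ext k
      change K0 k + (R * ψ₁ _ + f₂ _) = (K0 k + R * ψ₁ _) + f₂ _
      ring
    rw [hkey]
    exact hMest X ⟨hX, hX2⟩

/-- The theorem at arbitrary disorder, any kinetic energy. -/
theorem np (d : ℕ) (hd : 0 < d) (K : C(UnitAddTorus (Fin d), ℝ)) (a b p g κ ε : ℝ) (hab : a < b)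
    (hp : 1 < p) (hp2 : p < 2) (hg : 0 ≤ g) (hg2 : g < (d : ℝ) / 3) (hκ : 0 < κ) (hε : 0 < ε) :
    ∃ f : C(ℝ, ℝ), (∃ B : ℝ, ∀ t, |f t| ≤ B) ∧
      (∫ k : UnitAddTorus (Fin d), |f (lap d k)| ^ p ≤ ε) ∧
      (∀ x : Fin d → ℤ, ‖mFourierCoeff
        (fun k : UnitAddTorus (Fin d) => ((f (lap d k) : ℝ) : ℂ)) x‖ ≤ ε / (1 + ‖x‖) ^ g) ∧
      ∀ (ν : Measure ℝ) [IsProbabilityMeasure ν], κ ≤ vr ν →
        ∀ᵐ v ∂(Pn ν (Fin d → ℤ)), ACIK (K + gK f d) 1 v a b := by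
  have hd0 : (0 : ℝ) < d := by exact_mod_cast hd
  have hba : 0 < b - a := by linarith
  set α : ℝ := 4 * d / (b - a) with hα
  have hα0 : 0 < α := by positivity
  set κ' : ℝ := min (α ^ 2) (1 / α ^ 2) * min κ 1 with hκ'
  have hmin : 0 < min (α ^ 2) (1 / α ^ 2) := lt_min (by positivity) (by positivity)
  have hκ'0 : 0 < κ' := mul_pos hmin (lt_min hκ one_pos)
  have hmin1 : min (α ^ 2) (1 / α ^ 2) ≤ 1 := by
    rcases le_total α 1 with h | h
    · exact (min_le_left _ _).trans (by nlinarith)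
    · refine (min_le_right _ _).trans ?_
      rw [div_le_one (by positivity)]
      nlinarith
  have hκ'1 : κ' ≤ 1 := by
    have h1 : min κ 1 ≤ 1 := min_le_right _ _
    have h2 : 0 < min κ 1 := lt_min hκ one_pos
    rw [hκ']
    nlinarith
  set e : ℝ := min (α ^ p * ε) (α * ε) with he
  have he0 : 0 < e := lt_min (by positivity) (by positivity)
  obtain ⟨F, ⟨B, hB⟩, h1, h2, h3⟩ := normalized d hd (α • (K - ContinuousMap.const _ a)) p g κ' e
    hp hp2 hg hg2 hκ'0 hκ'1 he0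
  refine ⟨α⁻¹ • F, ⟨α⁻¹ * B, fun t => ?_⟩, ?_, fun x => ?_, ?_⟩
  · rw [ContinuousMap.smul_apply, smul_eq_mul, abs_mul, abs_of_pos (by positivity)]
    exact mul_le_mul_of_nonneg_left (hB t) (by positivity)
  · have e1 : ∀ k : UnitAddTorus (Fin d), |(α⁻¹ • F) (lap d k)| ^ p =
        (α ^ p)⁻¹ * |F (lap d k)| ^ p := by
      intro k
      rw [ContinuousMap.smul_apply, smul_eq_mul, abs_mul, abs_of_pos (by positivity),
        Real.mul_rpow (by positivity) (abs_nonneg _), Real.inv_rpow hα0.le]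
    simp only [e1]
    rw [integral_const_mul, inv_mul_le_iff₀ (by positivity)]
    exact h1.trans (min_le_left _ _)
  · have e1 : (fun k : UnitAddTorus (Fin d) => (((α⁻¹ • F) (lap d k) : ℝ) : ℂ)) =
        fun k => ((α⁻¹ : ℝ) : ℂ) * ((F (lap d k) : ℝ) : ℂ) := by
      funext k
      rw [ContinuousMap.smul_apply, smul_eq_mul]
      push_cast
      rfl
    rw [e1, Pool.Agent.W191.LL.mfc_smul, norm_mul, Complex.norm_real,
      Real.norm_of_nonneg (by positivity), inv_mul_le_iff₀ hα0]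
    refine (h2 x).trans ?_
    rw [← mul_div_assoc]
    exact div_le_div_of_nonneg_right (min_le_right _ _) (by positivity)
  · intro ν _ hν
    have hma : Measurable fun x : ℝ => α * x := measurable_const.mul measurable_id
    have hprob : IsProbabilityMeasure (ν.map fun x => α * x) :=
      Measure.isProbabilityMeasure_map hma.aemeasurable
    obtain ⟨X, hX, hXl⟩ := Al.qnt2 (ν.map fun x => α * x)
    have hvX : κ' ≤ vr (qlaw X) := by
      rw [hXl]
      refine le_trans ?_ (Eqd.vrs ν α hα0)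
      exact mul_le_mul_of_nonneg_left ((min_le_left _ _).trans hν) hmin.le
    have hM := h3 X hX hvX
    have hM' : MestK (α • (K - ContinuousMap.const _ a) + gK F d) (ν.map fun x => α * x) := by
      have : ∀ (μ : Measure ℝ) [IsProbabilityMeasure μ], qlaw X = μ →
          MestK (α • (K - ContinuousMap.const _ a) + gK F d) μ := by
        intro μ _ h
        subst h
        exact hM
      exact this _ hXl
    have hkey : (α • (K - ContinuousMap.const _ a) + gK F d : C(UnitAddTorus (Fin d), ℝ)) =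
        α • ((K + gK (α⁻¹ • F) d) - ContinuousMap.const _ a) := by
      ext k
      simp only [ContinuousMap.add_apply, ContinuousMap.smul_apply, ContinuousMap.sub_apply,
        ContinuousMap.const_apply, smul_eq_mul, gK, ContinuousMap.comp_apply]
      field_simp
      ring
    filter_upwards [Al.aeqk d ν α _ hd hα0 hM'] with v hv
    rw [hkey] at hv
    have h4 := Al.aff d (K + gK (α⁻¹ • F) d) α a 1 0 (4 * d) v hα0 (by rwa [mul_one])
    have e1 : a + 0 / α = a := by simp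
    have e2 : a + 4 * d / α = b := by
      rw [hα]
      field_simp
      ring
    rw [e1, e2] at h4
    exact h4

end

end Run7.h475.NP.Fin
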