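import Pool.Agent.Run7.h475.NP.Lev

/-!
Project NP: gap for all laws with enough variance.
-/

set_option autoImplicit false

namespace Run7.h475.NP.Gap

open MeasureTheory Filter Topology Set Pool.Agent.W792.LL Pool.Agent.W792.WA Pool.Agent.N659.HB

theorem lev_prob (ψ : C(UnitAddCircle, ℝ)) (R : ℝ) : IsProbabilityMeasure (lev ψ R) := by
  unfold lev
  have : IsProbabilityMeasure (volume.restrict (Ioc (0 : ℝ) 1)) := ⟨by simp⟩
  apply Measure.isProbabilityMeasure_map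
  have : Continuous fun φ : ℝ => R * ψ (φ : UnitAddCircle) :=
    continuous_const.mul (ψ.continuous.comp (AddCircle.continuous_mk' (1 : ℝ)))
  exact this.aemeasurable

theorem lev_supp {ψ : C(UnitAddCircle, ℝ)} (h : IsLv ψ) {R : ℝ} (hR : 0 < R) :
    lev ψ R (Icc (-R) R)ᶜ = 0 := by
  unfold lev
  rw [Measure.map_apply_of_aemeasurable _ measurableSet_Icc.compl]
  · have : (fun φ : ℝ => R * ψ (φ : UnitAddCircle)) ⁻¹' (Icc (-R) R)ᶜ = ∅ := by
      apply eq_empty_of_forall_notMem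
      intro φ hφ
      apply hφ
      have := abs_le.1 (h.bound (φ : UnitAddCircle))
      constructor <;> nlinarith [this.1, this.2]
    rw [this, measure_empty]
  · have : Continuous fun φ : ℝ => R * ψ (φ : UnitAddCircle) :=
      continuous_const.mul (ψ.continuous.comp (AddCircle.continuous_mk' (1 : ℝ)))
    exact this.aemeasurable

theorem conv_supp (μ ν : Measure ℝ) [IsProbabilityMeasure μ] [IsProbabilityMeasure ν] {a b : ℝ}
    (hμ : μ (Icc (-a) a)ᶜ = 0) (hν : ν (Icc (-b) b)ᶜ = 0) :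
    (μ.conv ν) (Icc (-(a + b)) (a + b))ᶜ = 0 := by
  have h1 : ∀ᵐ p ∂(μ.prod ν), p.1 + p.2 ∈ Icc (-(a + b)) (a + b) := by
    have hm : MeasurableSet {p : ℝ × ℝ | p.1 + p.2 ∈ Icc (-(a + b)) (a + b)} :=
      measurableSet_Icc.preimage (measurable_fst.add measurable_snd)
    rw [Measure.ae_prod_iff_ae_ae hm]
    have ha : ∀ᵐ x ∂μ, x ∈ Icc (-a) a := by rw [ae_iff]; exact hμ
    have hb : ∀ᵐ y ∂ν, y ∈ Icc (-b) b := by rw [ae_iff]; exact hν
    filter_upwards [ha] with x hx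
    filter_upwards [hb] with y hy
    exact ⟨by linarith [hx.1, hy.1], by linarith [hx.2, hy.2]⟩
  unfold Measure.conv
  rw [Measure.map_apply (show Measurable fun x : ℝ × ℝ => x.1 + x.2 from
    measurable_fst.add measurable_snd) measurableSet_Icc.compl]
  rw [ae_iff] at h1
  exact h1

theorem main (hcx : S_CX) (hfix : S_FIX) (hpsi : S_PSI) (huuc : S_UUC) (hlev : S_LEV1) :
    S_GAPN := by
  intro p κ D ε hp hp2 hκ hκ1 hD hε
  obtain ⟨ψ, R, η, q, hlv, hR, hη, hη1, hq, hq1, hηq, hhol, hmean, hlp, hU⟩ :=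
    hlev p κ D ε hp hp2 hκ hκ1 hD hε
  refine ⟨ψ, R, η, hlv, hR, hη, hhol, hmean, hlp, ?_⟩
  intro ν _ d K z ρ' _ hvr hρ hKz hz s hs
  have := lev_prob ψ R
  have hsupp : ((lev ψ R).conv ρ') (Icc (-(R + 1)) (R + 1))ᶜ = 0 :=
    conv_supp _ _ (lev_supp hlv hR) hρ
  obtain ⟨q', hq'0, hq'1, hq'⟩ := hcx.2.2.1 (R + 1) D z.im hz
  have hxk : ∀ k, ‖(K k : ℂ) - z‖ ≤ D := by
    intro k
    refine (norm_sub_le _ _).trans ?_
    have h1 := K.norm_coe_le_norm k
    rw [Complex.norm_real]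
    linarith
  have hxi : ∀ k, ((K k : ℂ) - z).im = -z.im := by
    intro k
    simp
  have hwb : ∀ k, ∀ a ∈ Icc (-(R + 1)) (R + 1), ‖wz K z k a‖ ≤ q' := by
    intro k a ha
    exact hq' _ a (hxk k) (by rw [hxi]) (abs_le.2 ha)
  have hcont := hcx.2.2.2 d K z hz.le
  have hmain := (hfix ν d ((lev ψ R).conv ρ') (R + 1) q' (wz K z) (lt_of_lt_of_le hκ hvr) hsupp
    hcont hq'0 hq'1 hwb).2.2 {s | ‖s‖ ≤ 1 - η}
    (isClosed_le continuous_norm continuous_const)
    ⟨0, by simp only [mem_ofPred_eq, norm_zero]; linarith⟩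
    (fun s hs => by
      simp only [mem_ofPred_eq] at hs
      linarith) ?_ s hs
  · exact hmain
  · intro s hs
    simp only [mem_ofPred_eq] at hs ⊢
    have hs1 : ‖s‖ ≤ 1 := by linarith
    obtain ⟨h1, -⟩ := huuc d ((lev ψ R).conv ρ') (R + 1) q' (wz K z) s hsupp hcont hq'0 hq'1.le hwb
      hs1 (by nlinarith [norm_nonneg s])
    have h2 : ‖UU ((lev ψ R).conv ρ') (wz K z) s‖ ≤ q := by
      rw [ContinuousMap.norm_le _ hq]
      intro k
      rw [h1]
      exact hU ρ' hρ _ _ (hxk k) (by rw [hxi]; linarith) ((s.norm_coe_le_norm k).trans hs)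
    have h3 := (hpsi ν d q _ _ hq hq1 h2 h2).1
    rw [ContinuousMap.norm_le _ (by linarith)]
    intro k
    have h4 := (h3 k).2.2.2.2.2
    have h5 : (1 - q ^ 2) * κ ≤ (1 - q ^ 2) * vr ν :=
      mul_le_mul_of_nonneg_left hvr (by nlinarith)
    have h6 : ‖psi ν (UU ((lev ψ R).conv ρ') (wz K z) s) k‖ ^ 2 ≤ (1 - η) ^ 2 := by
      nlinarith
    exact (pow_le_pow_iff_left₀ (norm_nonneg _) (by linarith) two_ne_zero).1 h6

end Run7.h475.NP.Gap
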