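import Pool.Agent.Run7.h475.NP.Tan

/-!
Project NP: the first level, uniform absorption.
-/

set_option autoImplicit false

namespace Run7.h475.NP.Lev

open MeasureTheory Filter Topology Set Pool.Agent.W792.LL Pool.Agent.W792.WA Pool.Agent.N659.HB
open Run7.h475.NP.Caui (cm)

theorem re_half {u : ℂ} (h : ‖u‖ < 1) : 1 / 2 ≤ (1 / (1 - u)).re := by
  have hn : ‖u‖ ^ 2 < 1 := by
    have := norm_nonneg u
    nlinarith
  rw [← Complex.normSq_eq_norm_sq, Complex.normSq_apply] at hn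
  have hre : u.re < 1 := by nlinarith [sq_nonneg u.im]
  rw [one_div (1 - u), Complex.inv_re, Complex.normSq_apply]
  simp only [Complex.sub_re, Complex.one_re, Complex.sub_im, Complex.one_im]
  have h0 : 0 < (1 - u.re) * (1 - u.re) + (0 - u.im) * (0 - u.im) := by nlinarith
  rw [div_le_div_iff₀ (by norm_num) h0]
  nlinarith

theorem gen1 (x y : ℂ) (h : 1 - x * y ≠ 0) : 1 + y * (x / (1 - x * y)) = 1 / (1 - x * y) := by
  rw [eq_div_iff h, add_mul, mul_assoc, div_mul_cancel₀ _ h]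
  ring

theorem gen2 (x y z w : ℂ) (h1 : z ≠ 0) (h2 : w ≠ 0) (e1 : z * y - w * x = y - x) :
    x / z - y / w = (x - y) / (z * w) := by
  rw [div_sub_div _ _ h1 h2]
  congr 1
  linear_combination -e1

section

variable (μ : Measure ℝ) [IsProbabilityMeasure μ] (w : ℝ → ℂ) (s : ℂ) (η : ℝ)

theorem bnd (hw : ∀ a, ‖w a‖ ≤ 1) (hη : 0 < η) (hs : ‖s‖ ≤ 1 - η) (a : ℝ) :
    η ≤ ‖1 - w a * s‖ ∧ ‖w a * s‖ < 1 ∧ 1 - w a * s ≠ 0 := by
  have h1 : ‖w a * s‖ ≤ 1 - η := by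
    rw [norm_mul]
    calc ‖w a‖ * ‖s‖ ≤ 1 * ‖s‖ := mul_le_mul_of_nonneg_right (hw a) (norm_nonneg _)
      _ ≤ 1 - η := by rw [one_mul]; exact hs
  have h2 : 1 - ‖w a * s‖ ≤ ‖1 - w a * s‖ := by
    have := norm_sub_norm_le (1 : ℂ) (w a * s)
    rwa [norm_one] at this
  refine ⟨by linarith, by linarith, ?_⟩
  rw [← norm_pos_iff]
  linarith

theorem intf (hwm : Measurable w) (hw : ∀ a, ‖w a‖ ≤ 1) (hη : 0 < η) (hs : ‖s‖ ≤ 1 - η) :
    Integrable (fun a => w a / (1 - w a * s)) μ := by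
  refine (integrable_const (1 / η)).mono' (hwm.div (measurable_const.sub
    (hwm.mul measurable_const))).aestronglyMeasurable (ae_of_all _ fun a => ?_)
  rw [norm_div]
  exact div_le_div₀ zero_le_one (hw a) hη (bnd w s η hw hη hs a).1

theorem half (hwm : Measurable w) (hw : ∀ a, ‖w a‖ ≤ 1) (hη : 0 < η) (hs : ‖s‖ ≤ 1 - η) :
    1 / 2 ≤ ‖1 + s * Bs μ w s‖ := by
  have hi := intf μ w s η hwm hw hη hs
  have e : 1 + s * Bs μ w s = ∫ a, 1 / (1 - w a * s) ∂μ := by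
    unfold Bs
    rw [← integral_const_mul]
    have h1 : (1 : ℂ) = ∫ _, (1 : ℂ) ∂μ := by simp
    nth_rewrite 1 [h1]
    rw [← integral_add (integrable_const _) (hi.const_mul s)]
    refine integral_congr_ae (ae_of_all _ fun a => ?_)
    exact gen1 _ _ (bnd w s η hw hη hs a).2.2
  have hi2 : Integrable (fun a => 1 / (1 - w a * s)) μ := by
    have h1 := (integrable_const (1 : ℂ)).add (hi.const_mul s)
    refine h1.congr (ae_of_all _ fun a => ?_)
    exact gen1 _ _ (bnd w s η hw hη hs a).2.2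
  rw [e]
  have h3 : 1 / 2 ≤ (∫ a, 1 / (1 - w a * s) ∂μ).re := by
    have h4 : (∫ a, 1 / (1 - w a * s) ∂μ).re = ∫ a, (1 / (1 - w a * s)).re ∂μ := by
      have := integral_re hi2
      exact this.symm
    rw [h4]
    calc (1 : ℝ) / 2 = ∫ _, (1 : ℝ) / 2 ∂μ := by simp
      _ ≤ _ := integral_mono (integrable_const _) hi2.re
        fun a => re_half (bnd w s η hw hη hs a).2.1
  exact h3.trans (Complex.re_le_norm _)

end

/-- difference of two effective contractions -/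
theorem us_diff (μ₁ μ₂ : Measure ℝ) [IsProbabilityMeasure μ₁] [IsProbabilityMeasure μ₂]
    (w₁ w₂ : ℝ → ℂ) (s : ℂ) (η : ℝ) (hm1 : Measurable w₁) (hm2 : Measurable w₂)
    (h1 : ∀ a, ‖w₁ a‖ ≤ 1) (h2 : ∀ a, ‖w₂ a‖ ≤ 1) (hη : 0 < η) (hs : ‖s‖ ≤ 1 - η) :
    ‖Us μ₁ w₁ s - Us μ₂ w₂ s‖ ≤ 4 * ‖Bs μ₁ w₁ s - Bs μ₂ w₂ s‖ := by
  have a1 := half μ₁ w₁ s η hm1 h1 hη hs
  have a2 := half μ₂ w₂ s η hm2 h2 hη hs
  have n1 : 1 + s * Bs μ₁ w₁ s ≠ 0 := by
    rw [← norm_pos_iff]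
    linarith
  have n2 : 1 + s * Bs μ₂ w₂ s ≠ 0 := by
    rw [← norm_pos_iff]
    linarith
  have e : Us μ₁ w₁ s - Us μ₂ w₂ s = (Bs μ₁ w₁ s - Bs μ₂ w₂ s) /
      ((1 + s * Bs μ₁ w₁ s) * (1 + s * Bs μ₂ w₂ s)) := by
    unfold Us
    exact gen2 _ _ _ _ n1 n2 (by ring)
  rw [e, norm_div, norm_mul, div_le_iff₀ (by positivity)]
  have h3 : (1 : ℝ) / 4 ≤ ‖1 + s * Bs μ₁ w₁ s‖ * ‖1 + s * Bs μ₂ w₂ s‖ := by nlinarith
  nlinarith [norm_nonneg (Bs μ₁ w₁ s - Bs μ₂ w₂ s)]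

theorem meas_cayx (x : ℂ) : Measurable (cayx x) := by
  unfold cayx
  fun_prop

theorem cayx_add (x : ℂ) (a b : ℝ) : cayx x (a + b) = cayx (x + b) a := by
  unfold cayx
  push_cast
  rw [show x + ((a : ℂ) + b) = x + b + a by ring]

/-- the convolution with the Cauchy law -/
theorem bs_conv (hcx : S_CX) (γ τ R : ℝ) (hγ : 0 < γ) (ψ : C(UnitAddCircle, ℝ))
    [IsProbabilityMeasure (lev ψ R)]
    (htv : ∀ (f : ℝ → ℂ) (F : ℝ), Measurable f → (∀ a, ‖f a‖ ≤ F) →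
      ‖∫ a, f a ∂(lev ψ R) - ∫ a, f (γ * a) ∂cm‖ ≤ 2 * τ * F)
    (ρ' : Measure ℝ) [IsProbabilityMeasure ρ'] (x s : ℂ) (η : ℝ) (hx : x.im < 0) (hη : 0 < η)
    (hs : ‖s‖ ≤ 1 - η) :
    ‖Bs ((lev ψ R).conv ρ') (cayx x) s - Bs ρ' (cayx (x - γ * Complex.I)) s‖ ≤ 2 * τ * (1 / η) := by
  have hw : ∀ a, ‖cayx x a‖ ≤ 1 := fun a => (hcx.1 x a hx.le).1
  have hwb : ∀ (b : ℝ) a, ‖cayx (x + b) a‖ ≤ 1 := fun b a => by
    refine (hcx.1 _ a ?_).1
    simp
    linarith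
  have hm := meas_cayx x
  set f : ℝ → ℂ := fun a => cayx x a / (1 - cayx x a * s) with hf
  have hfm : Measurable f := hm.div (measurable_const.sub (hm.mul measurable_const))
  have hfb : ∀ a, ‖f a‖ ≤ 1 / η := fun a => by
    simp only [hf]
    rw [norm_div]
    exact div_le_div₀ zero_le_one (hw a) hη (bnd _ s η hw hη hs a).1
  have hs1 : ‖s‖ < 1 := by linarith
  have hint : ∀ (μ : Measure ℝ) [IsProbabilityMeasure μ], Integrable f μ := fun μ _ =>
    intf μ _ s η hm hw hη hs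
  set g : ℝ → ℂ := fun a => ∫ b, f (a + b) ∂ρ' with hg
  have hgm : Measurable g := by
    have : StronglyMeasurable (Function.uncurry fun a b : ℝ => f (a + b)) :=
      (hfm.comp (measurable_fst.add measurable_snd)).stronglyMeasurable
    exact this.integral_prod_right.measurable
  have hgb : ∀ a, ‖g a‖ ≤ 1 / η := fun a => by
    simp only [hg]
    refine (norm_integral_le_of_norm_le_const (ae_of_all _ fun b => hfb (a + b))).trans ?_
    simp
  have e1 : Bs ((lev ψ R).conv ρ') (cayx x) s = ∫ a, g a ∂(lev ψ R) := by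
    unfold Bs
    exact integral_conv (hint ((lev ψ R).conv ρ'))
  have e2 : Bs ρ' (cayx (x - γ * Complex.I)) s = ∫ a, g (γ * a) ∂cm := by
    simp only [hg]
    rw [integral_integral_swap]
    · unfold Bs
      refine integral_congr_ae (ae_of_all _ fun b => ?_)
      simp only [hf]
      have h1 := Caui.main γ (x + b) s hγ (by simp; linarith) hs1
      have e : ∀ a : ℝ, cayx x (γ * a + b) / (1 - cayx x (γ * a + b) * s) =
          cayx (x + b) (γ * a) / (1 - cayx (x + b) (γ * a) * s) := by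
        intro a
        rw [cayx_add]
      simp only [e]
      rw [h1]
      have e3 : cayx (x + b - γ * Complex.I) 0 = cayx (x - γ * Complex.I) b := by
        have := cayx_add (x - γ * Complex.I) 0 b
        rw [zero_add] at this
        rw [this]
        congr 1
        ring
      rw [e3]
    · refine (integrable_const (1 / η)).mono' ?_ (ae_of_all _ fun p => hfb _)
      exact (hfm.comp ((measurable_const.mul measurable_fst).add
        measurable_snd)).aestronglyMeasurable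
  rw [e1, e2]
  exact htv g (1 / η) hgm hgb

theorem cayx_q {D γ : ℝ} (hD : 0 < D) (hγ : 0 < γ) (hγ1 : γ ≤ 1) (x : ℂ) (b : ℝ) (hx : ‖x‖ ≤ D)
    (hxi : x.im ≤ 0) (hb : |b| ≤ 1) :
    ‖cayx (x - γ * Complex.I) b‖ ≤ 1 - 2 * γ / (D + 3) ^ 2 := by
  set y : ℂ := x - γ * Complex.I + b with hy
  have him : y.im ≤ -γ := by
    rw [hy]
    simp
    linarith
  have hyn : ‖y - Complex.I‖ ≤ D + 3 := by
    rw [hy]
    calc ‖x - γ * Complex.I + b - Complex.I‖ ≤ ‖x - γ * Complex.I + b‖ + ‖Complex.I‖ :=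
          norm_sub_le _ _
      _ ≤ (‖x - γ * Complex.I‖ + ‖(b : ℂ)‖) + ‖Complex.I‖ := by
          gcongr
          exact norm_add_le _ _
      _ ≤ ((‖x‖ + ‖(γ : ℂ) * Complex.I‖) + ‖(b : ℂ)‖) + ‖Complex.I‖ := by
          gcongr
          exact norm_sub_le _ _
      _ ≤ D + 3 := by
          rw [norm_mul, Complex.norm_I, Complex.norm_real, Complex.norm_real,
            Real.norm_of_nonneg hγ.le, Real.norm_eq_abs]
          linarith
  have hA : 0 < (D + 3) ^ 2 := by positivity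
  have hne : y - Complex.I ≠ 0 := by
    intro h
    have := congrArg Complex.im h
    simp at this
    linarith
  have hn0 : 0 < ‖y - Complex.I‖ := norm_pos_iff.2 hne
  have e1 : ‖y + Complex.I‖ ^ 2 = ‖y - Complex.I‖ ^ 2 + 4 * y.im := by
    rw [← Complex.normSq_eq_norm_sq, ← Complex.normSq_eq_norm_sq, Complex.normSq_apply,
      Complex.normSq_apply]
    simp
    ring
  have h2 : ‖cayx (x - γ * Complex.I) b‖ ^ 2 ≤ 1 - 4 * γ / (D + 3) ^ 2 := by
    unfold cayx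
    rw [← hy, norm_div, div_pow, e1, div_le_iff₀ (by positivity)]
    have h3 : ‖y - Complex.I‖ ^ 2 ≤ (D + 3) ^ 2 := by
      apply pow_le_pow_left₀ (norm_nonneg _) hyn
    have h4 : 4 * γ / (D + 3) ^ 2 * ‖y - Complex.I‖ ^ 2 ≤ 4 * γ := by
      rw [div_mul_eq_mul_div, div_le_iff₀ hA]
      nlinarith
    nlinarith
  have h5 : 0 ≤ 1 - 2 * γ / (D + 3) ^ 2 := by
    have : 2 * γ / (D + 3) ^ 2 ≤ 1 := by
      rw [div_le_one hA]
      nlinarith
    linarith
  rw [← pow_le_pow_iff_left₀ (norm_nonneg _) h5 two_ne_zero]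
  refine h2.trans ?_
  have : (1 - 2 * γ / (D + 3) ^ 2) ^ 2 = 1 - 4 * γ / (D + 3) ^ 2 + (2 * γ / (D + 3) ^ 2) ^ 2 := by
    ring
  rw [this]
  nlinarith [sq_nonneg (2 * γ / (D + 3) ^ 2)]

theorem small (p e : ℝ) (hp : p < 2) (he : 0 < e) :
    ∃ γ : ℝ, 0 < γ ∧ γ ≤ 1 ∧ γ ^ (2 - p) ≤ e := by
  have h2 : 0 < 2 - p := by linarith
  have h3 : 0 < e ^ (1 / (2 - p)) := Real.rpow_pos_of_pos he _
  refine ⟨min 1 (e ^ (1 / (2 - p))), lt_min one_pos h3, min_le_left _ _, ?_⟩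
  calc (min 1 (e ^ (1 / (2 - p)))) ^ (2 - p) ≤ (e ^ (1 / (2 - p))) ^ (2 - p) :=
        Real.rpow_le_rpow (by positivity) (min_le_right _ _) h2.le
    _ = e := by
        rw [← Real.rpow_mul he.le, one_div_mul_cancel h2.ne', Real.rpow_one]

theorem main (hcx : S_CX) (hsc : S_SC1) : S_LEV1 := by
  intro p κ D ε hp hp2 hκ hκ1 hD hε
  set A : ℝ := (D + 3) ^ 2 with hA
  have hA9 : 9 ≤ A := by rw [hA]; nlinarith
  set c₁ : ℝ := (κ / (64 * A ^ 2)) ^ (1 - p) / (p - 1) with hc₁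
  have hp1 : 0 < p - 1 := by linarith
  have hκA : 0 < κ / (64 * A ^ 2) := by positivity
  have hc₁0 : 0 < c₁ := by
    rw [hc₁]
    exact div_pos (Real.rpow_pos_of_pos hκA _) hp1
  obtain ⟨γ, hγ, hγ1, hγe⟩ := small p (ε / (2 * c₁)) hp2 (by positivity)
  set η : ℝ := γ * κ / (8 * A) with hη
  set τ : ℝ := γ ^ 2 * (κ / (64 * A ^ 2)) with hτ
  set q : ℝ := 1 - γ / A with hq
  have hη0 : 0 < η := by rw [hη]; positivity
  have hτ0 : 0 < τ := by rw [hτ]; positivity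
  have hgA : γ / A ≤ 1 / 9 := by
    rw [div_le_iff₀ (by linarith)]
    nlinarith
  have hgA0 : 0 < γ / A := by positivity
  have hη1 : η ≤ 1 / 8 := by
    rw [hη, div_le_iff₀ (by positivity)]
    nlinarith [mul_le_mul hγ1 hκ1 hκ.le zero_le_one]
  have hττ : τ ≤ 1 / 2 := by
    rw [hτ]
    have h1 : κ / (64 * A ^ 2) ≤ 1 / 2 := by
      rw [div_le_iff₀ (by positivity)]
      nlinarith
    have h2 : γ ^ 2 ≤ 1 := by nlinarith
    nlinarith
  obtain ⟨ψ, R, hlv, hR, hhol, hmean, htv, hlp⟩ := Tan.main γ τ hγ hτ0 hττ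
  refine ⟨ψ, R, η, q, hlv, hR, hη0, by linarith, by rw [hq]; linarith, by rw [hq]; linarith,
    ?_, hhol, hmean, ?_, ?_⟩
  · have h1 : γ / A ≤ 1 - q ^ 2 := by
      rw [hq]
      nlinarith
    have h2 : η = γ / A * κ / 8 := by
      rw [hη]
      field_simp
    rw [h2]
    nlinarith
  · refine (hlp p hp hp2).trans ?_
    have h1 : τ ^ (1 - p) = γ ^ (2 * (1 - p)) * (κ / (64 * A ^ 2)) ^ (1 - p) := by
      rw [hτ, Real.mul_rpow (by positivity) hκA.le, Real.rpow_mul hγ.le]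
      norm_num
    have h2 : γ ^ p * γ ^ (2 * (1 - p)) = γ ^ (2 - p) := by
      rw [← Real.rpow_add hγ]
      congr 1
      ring
    have h3 : 2 * γ ^ p * τ ^ (1 - p) / (p - 1) = 2 * c₁ * γ ^ (2 - p) := by
      rw [h1, ← h2, hc₁]
      ring
    rw [h3]
    calc 2 * c₁ * γ ^ (2 - p) ≤ 2 * c₁ * (ε / (2 * c₁)) :=
          mul_le_mul_of_nonneg_left hγe (by positivity)
      _ = ε := by field_simp
  · intro ρ' _ hρ x s hx hxi hs
    have hlevp : IsProbabilityMeasure (lev ψ R) := by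
      unfold lev
      have : IsProbabilityMeasure (volume.restrict (Ioc (0 : ℝ) 1)) := ⟨by simp⟩
      apply Measure.isProbabilityMeasure_map
      have : Continuous fun φ : ℝ => R * ψ (φ : UnitAddCircle) :=
        continuous_const.mul (ψ.continuous.comp (AddCircle.continuous_mk' (1 : ℝ)))
      exact this.aemeasurable
    have hw : ∀ a, ‖cayx x a‖ ≤ 1 := fun a => (hcx.1 x a hxi.le).1
    have hxi2 : (x - γ * Complex.I).im ≤ 0 := by
      simp
      linarith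
    have hw2 : ∀ a, ‖cayx (x - γ * Complex.I) a‖ ≤ 1 := fun a => (hcx.1 _ a hxi2).1
    have hs1 : ‖s‖ ≤ 1 := by linarith
    have hB := bs_conv hcx γ τ R hγ ψ htv ρ' x s η hxi hη0 hs
    have hU := us_diff ((lev ψ R).conv ρ') ρ' (cayx x) (cayx (x - γ * Complex.I)) s η
      (meas_cayx _) (meas_cayx _) hw hw2 hη0 hs
    have hae : ∀ᵐ b ∂ρ', ‖cayx (x - γ * Complex.I) b‖ ≤ 1 - 2 * γ / A := by
      have h1 : ∀ᵐ b ∂ρ', b ∈ Icc (-1 : ℝ) 1 := by
        rw [ae_iff]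
        exact hρ
      filter_upwards [h1] with b hb
      exact cayx_q hD hγ hγ1 x b hx hxi.le (abs_le.2 hb)
    have hq0 : 0 ≤ 1 - 2 * γ / A := by
      rw [mul_div_assoc]
      linarith
    have hq01 : 1 - 2 * γ / A ≤ 1 := by
      rw [mul_div_assoc]
      linarith
    have h2 := (hsc ρ' (cayx (x - γ * Complex.I)) (1 - 2 * γ / A) s (meas_cayx _) hq0 hq01 hae hs1
      (by
        rw [mul_div_assoc] at hq01 hq0 ⊢
        nlinarith [norm_nonneg s])).2.2.1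
    have h3 : 4 * (2 * τ * (1 / η)) = γ / A := by
      rw [hτ, hη]
      field_simp
      norm_num
    have h4 : Us ((lev ψ R).conv ρ') (cayx x) s = Us ρ' (cayx (x - γ * Complex.I)) s +
        (Us ((lev ψ R).conv ρ') (cayx x) s - Us ρ' (cayx (x - γ * Complex.I)) s) := by ring
    rw [h4]
    refine (norm_add_le _ _).trans ?_
    rw [hq]
    rw [mul_div_assoc] at h2
    linarith

end Run7.h475.NP.Lev
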