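import Pool.Agent.Run7.h475.NP.Al2
import Pool.Agent.Run7.h475.NP.Cor

/-!
Project NP: one change of the kinetic energy for all bounded laws with enough variance and all
couplings in `(0, Λ]`.
-/

set_option autoImplicit false

namespace Run7.h475.NP.Np2

open MeasureTheory Filter Topology Set Pool.Agent.W792.LL Pool.Agent.W792.WA Pool.Agent.N659.HB
open UnitAddTorus

noncomputable section

theorem sq_int (ν : Measure ℝ) [IsProbabilityMeasure ν] {C : ℝ} (hC : ∀ᵐ x ∂ν, |x| ≤ C) (x : ℝ) :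
    Integrable (fun y : ℝ => (x - y) ^ 2) ν := by
  refine Integrable.of_bound (C := (|x| + C) ^ 2) (by fun_prop) ?_
  filter_upwards [hC] with y hy
  rw [Real.norm_eq_abs, abs_of_nonneg (sq_nonneg _)]
  have h1 : |x - y| ≤ |x| + C := (abs_sub _ _).trans (by linarith)
  rw [← sq_abs (x - y)]
  exact pow_le_pow_left₀ (abs_nonneg _) h1 2

/-- The variance is the minimal second moment. -/
theorem var_le (ν : Measure ℝ) [IsProbabilityMeasure ν] {C : ℝ} (hC : ∀ᵐ x ∂ν, |x| ≤ C) (x : ℝ) :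
    ∫ y, (y - ∫ y', y' ∂ν) ^ 2 ∂ν ≤ ∫ y, (x - y) ^ 2 ∂ν := by
  set m := ∫ y', y' ∂ν with hm
  have hi : Integrable (fun y : ℝ => y) ν := by
    refine Integrable.of_bound (C := C) (by fun_prop) ?_
    filter_upwards [hC] with y hy
    exact hy
  have h2 : Integrable (fun y : ℝ => (y - m) ^ 2) ν := by
    refine (sq_int ν hC m).congr (ae_of_all _ fun y => ?_)
    ring
  have e : ∀ y : ℝ, (x - y) ^ 2 = (y - m) ^ 2 + ((x - m) ^ 2 - 2 * (x - m) * (y - m)) := by
    intro y
    ring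
  have h3 : Integrable (fun y : ℝ => (x - m) ^ 2 - 2 * (x - m) * (y - m)) ν :=
    (integrable_const _).sub ((hi.sub (integrable_const m)).const_mul _)
  have i5 : Integrable (fun y : ℝ => 2 * (x - m) * (y - m)) ν :=
    (hi.sub (integrable_const m)).const_mul _
  have h5 : ∫ y, (y - m) ∂ν = 0 := by
    rw [integral_sub hi (integrable_const m), integral_const, probReal_univ, one_smul, ← hm,
      sub_self]
  have h4 : ∫ y, ((x - m) ^ 2 - 2 * (x - m) * (y - m)) ∂ν = (x - m) ^ 2 := by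
    rw [integral_sub (integrable_const _) i5, integral_const_mul, h5, integral_const,
      probReal_univ, one_smul, mul_zero, sub_zero]
  rw [integral_congr_ae (ae_of_all _ e)]
  rw [integral_add h2 h3, h4]
  linarith [sq_nonneg (x - m)]

/-- Lower bound for `vr` of a small law. -/
theorem vr_low (ν : Measure ℝ) [IsProbabilityMeasure ν] {C t T V : ℝ}
    (hC : ∀ᵐ x ∂ν, |x| ≤ C) (ht : 0 < t) (htT : t * C ≤ T)
    (hV : V ≤ ∫ y, (y - ∫ y', y' ∂ν) ^ 2 ∂ν) :
    2 * t ^ 2 * V / (1 + T ^ 2) ^ 2 ≤ vr (ν.map fun x => t * x) := by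
  have hcm : Measurable cay := Pool.Agent.W335.LLCay.cont_cay.measurable
  have hma : Measurable fun x : ℝ => t * x := measurable_const.mul measurable_id
  obtain ⟨b1, b2, b3⟩ := Eqd.dbl ν (fun x => cay (t * x)) (hcm.comp hma)
    (fun x => Pool.Agent.W335.LLCay.norm_cay _)
  have e1 : vr (ν.map fun x => t * x) = 1 - ‖∫ x, cay (t * x) ∂ν‖ ^ 2 := by
    unfold vr
    rw [integral_map hma.aemeasurable hcm.aestronglyMeasurable]
  rw [e1, b3]
  have hT0 : 0 < 1 + T ^ 2 := by positivity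
  have key : ∀ᵐ x ∂ν, 4 * t ^ 2 / (1 + T ^ 2) ^ 2 * V ≤
      ∫ y, ‖cay (t * x) - cay (t * y)‖ ^ 2 ∂ν := by
    filter_upwards [hC] with x hx
    calc 4 * t ^ 2 / (1 + T ^ 2) ^ 2 * V
        ≤ 4 * t ^ 2 / (1 + T ^ 2) ^ 2 * ∫ y, (x - y) ^ 2 ∂ν :=
          mul_le_mul_of_nonneg_left (hV.trans (var_le ν hC x)) (by positivity)
      _ = ∫ y, 4 * t ^ 2 / (1 + T ^ 2) ^ 2 * (x - y) ^ 2 ∂ν := (integral_const_mul _ _).symm
      _ ≤ ∫ y, ‖cay (t * x) - cay (t * y)‖ ^ 2 ∂ν := by
          apply integral_mono_ae ((sq_int ν hC x).const_mul _) (b1 x)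
          filter_upwards [hC] with y hy
          rw [Pool.Agent.W999.WA.Vr.norm_cay_sub, mul_comm, ← mul_div_assoc,
            div_le_div_iff₀ (by positivity) (by positivity)]
          have hb : ∀ u : ℝ, |u| ≤ C → 1 + (t * u) ^ 2 ≤ 1 + T ^ 2 := by
            intro u hu
            have h1 : |t * u| ≤ T := by
              rw [abs_mul, abs_of_pos ht]
              exact (mul_le_mul_of_nonneg_left hu ht.le).trans htT
            have h2 : (t * u) ^ 2 ≤ T ^ 2 := by
              rw [← sq_abs (t * u)]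
              exact pow_le_pow_left₀ (abs_nonneg _) h1 2
            linarith
          have h3 : (1 + (t * x) ^ 2) * (1 + (t * y) ^ 2) ≤ (1 + T ^ 2) ^ 2 := by
            rw [sq (1 + T ^ 2)]
            exact mul_le_mul (hb x hx) (hb y hy) (by positivity) (by positivity)
          have h4 : (x - y) ^ 2 * (4 * t ^ 2) = 4 * (t * x - t * y) ^ 2 := by ring
          rw [h4]
          exact mul_le_mul_of_nonneg_left h3 (by positivity)
  have h5 : 4 * t ^ 2 / (1 + T ^ 2) ^ 2 * V ≤ ∫ x, ∫ y, ‖cay (t * x) - cay (t * y)‖ ^ 2 ∂ν ∂ν := by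
    calc 4 * t ^ 2 / (1 + T ^ 2) ^ 2 * V = ∫ _ : ℝ, 4 * t ^ 2 / (1 + T ^ 2) ^ 2 * V ∂ν := by
          simp
      _ ≤ ∫ x, ∫ y, ‖cay (t * x) - cay (t * y)‖ ^ 2 ∂ν ∂ν :=
          integral_mono_ae (integrable_const _) b2 key
  have h6 : 2 * t ^ 2 * V / (1 + T ^ 2) ^ 2 = 1 / 2 * (4 * t ^ 2 / (1 + T ^ 2) ^ 2 * V) := by ring
  rw [h6]
  linarith

/-- The theorem at all disorders up to `Λ`. -/
theorem np2 (d : ℕ) (hd : 0 < d) (K : C(UnitAddTorus (Fin d), ℝ)) (a b p g C V Λ κ₀ ε : ℝ)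
    (hab : a < b) (hp : 1 < p) (hp2 : p < 2) (hg : 0 ≤ g) (hg2 : g < (d : ℝ) / 3) (hC : 0 < C)
    (hV : 0 < V) (hκ₀ : 0 < κ₀) (hε : 0 < ε) :
    ∃ f : C(ℝ, ℝ), (∃ B : ℝ, ∀ t, |f t| ≤ B) ∧
      (∫ k : UnitAddTorus (Fin d), |f (lap d k)| ^ p ≤ ε) ∧
      (∀ x : Fin d → ℤ, ‖mFourierCoeff
        (fun k : UnitAddTorus (Fin d) => ((f (lap d k) : ℝ) : ℂ)) x‖ ≤ ε / (1 + ‖x‖) ^ g) ∧
      (∀ (ν : Measure ℝ) [IsProbabilityMeasure ν], κ₀ ≤ vr ν →
        ∀ᵐ v ∂(Pn ν (Fin d → ℤ)), ACIK (K + gK f d) 1 v a b) ∧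
      ∀ (ν : Measure ℝ) [IsProbabilityMeasure ν], (∀ᵐ x ∂ν, |x| ≤ C) →
        V ≤ ∫ y, (y - ∫ y', y' ∂ν) ^ 2 ∂ν → ∀ lam : ℝ, 0 < lam → lam ≤ Λ →
        ∀ᵐ v ∂(Pn ν (Fin d → ℤ)), ACIK (K + gK f d) 1 (fun x => lam * v x) a b := by
  have hd0 : (0 : ℝ) < d := by exact_mod_cast hd
  have hba : 0 < b - a := by linarith
  obtain ⟨α, hα⟩ : ∃ α : ℝ, α = 4 * d / (b - a) := ⟨_, rfl⟩
  have hα0 : 0 < α := by
    rw [hα]
    positivity
  obtain ⟨T, hT⟩ : ∃ T : ℝ, T = α * Λ * C := ⟨_, rfl⟩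
  obtain ⟨κ, hκ⟩ : ∃ κ : ℝ, κ = 2 * V / (C ^ 2 * (1 + T ^ 2) ^ 2) := ⟨_, rfl⟩
  have hκ0 : 0 < κ := by
    rw [hκ]
    positivity
  obtain ⟨e, he⟩ : ∃ e : ℝ, e = min (α ^ p * ε) (α * ε) := ⟨_, rfl⟩
  have he0 : 0 < e := by
    rw [he]
    exact lt_min (by positivity) (by positivity)
  obtain ⟨κ', hκ'⟩ : ∃ κ' : ℝ, κ' = min (α ^ 2) (1 / α ^ 2) * κ₀ := ⟨_, rfl⟩
  have hmin : 0 < min (α ^ 2) (1 / α ^ 2) := lt_min (by positivity) (by positivity)
  have hκ'0 : 0 < κ' := by
    rw [hκ']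
    exact mul_pos hmin hκ₀
  obtain ⟨F, ⟨B, hB⟩, h1, h2, h3', h3⟩ := Al2.normalized2 d hd (α • (K - ContinuousMap.const _ a))
    p g κ κ' e hp hp2 hg hg2 hκ0 hκ'0 he0
  have hkey : (α • (K - ContinuousMap.const _ a) + gK F d : C(UnitAddTorus (Fin d), ℝ)) =
      α • ((K + gK (α⁻¹ • F) d) - ContinuousMap.const _ a) := by
    ext k
    simp only [ContinuousMap.add_apply, ContinuousMap.smul_apply, ContinuousMap.sub_apply,
      ContinuousMap.const_apply, smul_eq_mul, gK, ContinuousMap.comp_apply]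
    field_simp
    ring
  have fin : ∀ (μ : Measure ℝ) [IsProbabilityMeasure μ] (X : MX),
      qlaw X = μ.map (fun x => α * x) →
      MestK (α • (K - ContinuousMap.const _ a) + gK F d) (qlaw X) →
      ∀ᵐ v ∂(Pn μ (Fin d → ℤ)), ACIK (K + gK (α⁻¹ • F) d) 1 v a b := by
    intro μ _ X hXl hM
    have hma : Measurable fun x : ℝ => α * x := measurable_const.mul measurable_id
    have hprob : IsProbabilityMeasure (μ.map fun x => α * x) :=
      Measure.isProbabilityMeasure_map hma.aemeasurable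
    have hM' : MestK (α • (K - ContinuousMap.const _ a) + gK F d) (μ.map fun x => α * x) := by
      have : ∀ (μ : Measure ℝ) [IsProbabilityMeasure μ], qlaw X = μ →
          MestK (α • (K - ContinuousMap.const _ a) + gK F d) μ := by
        intro μ _ h
        subst h
        exact hM
      exact this _ hXl
    filter_upwards [Al.aeqk d μ α _ hd hα0 hM'] with v hv
    rw [hkey] at hv
    have h4 := Al.aff d (K + gK (α⁻¹ • F) d) α a 1 0 (4 * d) v hα0 (by rwa [mul_one])
    have e1 : a + 0 / α = a := by simp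
    have e2 : a + 4 * d / α = b := by
      rw [hα]
      field_simp
      ring
    rw [e1, e2] at h4
    exact h4
  refine ⟨α⁻¹ • F, ⟨α⁻¹ * B, fun t => ?_⟩, ?_, fun x => ?_, ?_, ?_⟩
  · rw [ContinuousMap.smul_apply, smul_eq_mul, abs_mul, abs_of_pos (by positivity)]
    exact mul_le_mul_of_nonneg_left (hB t) (by positivity)
  · have e1 : ∀ k : UnitAddTorus (Fin d), |(α⁻¹ • F) (lap d k)| ^ p =
        (α ^ p)⁻¹ * |F (lap d k)| ^ p := by
      intro k
      rw [ContinuousMap.smul_apply, smul_eq_mul, abs_mul, abs_of_pos (by positivity),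
        Real.mul_rpow (by positivity) (abs_nonneg _), Real.inv_rpow hα0.le]
    simp only [e1]
    rw [integral_const_mul, inv_mul_le_iff₀ (by positivity)]
    refine h1.trans ?_
    rw [he]
    exact min_le_left _ _
  · have e1 : (fun k : UnitAddTorus (Fin d) => (((α⁻¹ • F) (lap d k) : ℝ) : ℂ)) =
        fun k => ((α⁻¹ : ℝ) : ℂ) * ((F (lap d k) : ℝ) : ℂ) := by
      funext k
      rw [ContinuousMap.smul_apply, smul_eq_mul]
      push_cast
      rfl
    rw [e1, Pool.Agent.W191.LL.mfc_smul, norm_mul, Complex.norm_real,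
      Real.norm_of_nonneg (by positivity), inv_mul_le_iff₀ hα0]
    refine (h2 x).trans ?_
    rw [← mul_div_assoc]
    refine div_le_div_of_nonneg_right ?_ (by positivity)
    rw [he]
    exact min_le_right _ _
  · intro ν _ hν
    have hma : Measurable fun x : ℝ => α * x := measurable_const.mul measurable_id
    have hprob : IsProbabilityMeasure (ν.map fun x => α * x) :=
      Measure.isProbabilityMeasure_map hma.aemeasurable
    obtain ⟨X, hX, hXl⟩ := Al.qnt2 (ν.map fun x => α * x)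
    have hvX : κ' ≤ vr (qlaw X) := by
      rw [hXl, hκ']
      refine le_trans ?_ (Eqd.vrs ν α hα0)
      exact mul_le_mul_of_nonneg_left hν hmin.le
    exact fin ν X hXl (h3' X hX hvX)
  · intro ν _ hνC hνV lam hlam hlam2
    have hml : Measurable fun x : ℝ => lam * x := measurable_const.mul measurable_id
    have hprobl : IsProbabilityMeasure (ν.map fun x => lam * x) :=
      Measure.isProbabilityMeasure_map hml.aemeasurable
    obtain ⟨μ, hμ⟩ : ∃ μ : Measure ℝ, μ = ν.map fun x => lam * x := ⟨_, rfl⟩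
    have hμp : IsProbabilityMeasure μ := by
      rw [hμ]
      exact hprobl
    have hma : Measurable fun x : ℝ => α * x := measurable_const.mul measurable_id
    have hprob : IsProbabilityMeasure (μ.map fun x => α * x) :=
      Measure.isProbabilityMeasure_map hma.aemeasurable
    have hmm : μ.map (fun x => α * x) = ν.map fun x => (α * lam) * x := by
      rw [hμ, Measure.map_map hma hml]
      congr 1
      funext x
      simp only [Function.comp_apply]
      ring
    have ht : 0 < α * lam := mul_pos hα0 hlam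
    have htT : α * lam * C ≤ T := by
      rw [hT]
      have : α * lam ≤ α * Λ := mul_le_mul_of_nonneg_left hlam2 hα0.le
      exact mul_le_mul_of_nonneg_right this hC.le
    obtain ⟨X, hX, hXl⟩ := Al.qnt2 (μ.map fun x => α * x)
    have hsupp : ∀ᵐ x ∂(qlaw X), |x| ≤ α * lam * C := by
      rw [hXl, hmm]
      have hm : AEMeasurable (fun x : ℝ => (α * lam) * x) ν := by fun_prop
      refine (ae_map_iff (p := fun x => |x| ≤ α * lam * C) hm
        (measurableSet_le measurable_id.abs measurable_const)).2 ?_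
      filter_upwards [hνC] with x hx
      rw [abs_mul, abs_of_pos ht]
      exact mul_le_mul_of_nonneg_left hx ht.le
    have hvX : κ * (α * lam * C) ^ 2 ≤ vr (qlaw X) := by
      rw [hXl]
      have h5 := vr_low ν hνC ht htT hνV
      rw [← hmm] at h5
      refine le_trans (le_of_eq ?_) h5
      rw [hκ]
      field_simp
    have hfin := fin μ X hXl (h3 X hX (α * lam * C) (by positivity) hsupp hvX)
    subst hμ
    exact ae_map_law ν hml hfin

end

end Run7.h475.NP.Np2
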