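import Pool.Agent.Run7.h475.NP.Rng

/-!
Size of the parts of the change of the kinetic energy.
-/

set_option autoImplicit false

namespace Run7.h475.NP.Prt

open MeasureTheory Filter Topology Set Pool.Agent.W792.LL Pool.Agent.W792.WA Pool.Agent.N659.HB
open UnitAddTorus Run7.h475.NP.Fin

noncomputable section

theorem lf_bound {ψ : C(UnitAddCircle, ℝ)} (hψ : ∀ t, |ψ t| ≤ 1) {R : ℝ} (hR : 0 < R) (M : ℕ)
    (t : ℝ) : |lf ψ R M t| ≤ R := by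
  change |R * ψ _| ≤ R
  rw [abs_mul, abs_of_pos hR]
  nlinarith [hψ ((M * t / (2 * Real.pi) : ℝ) : UnitAddCircle)]

theorem hci {d : ℕ} {p : ℝ} (hp : 1 < p) (G : C(UnitAddTorus (Fin d), ℝ)) :
    Integrable (fun k => |G k| ^ p) (volume : Measure (UnitAddTorus (Fin d))) := by
  have h1 : Continuous fun k => |G k| ^ p :=
    G.continuous.abs.rpow_const fun _ => Or.inr (by linarith)
  exact h1.integrable_of_hasCompactSupport (HasCompactSupport.of_compactSpace _)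

theorem lf_lp {d : ℕ} (hd : 0 < d) (ψ : C(UnitAddCircle, ℝ)) {R p e e' : ℝ} (hp : 1 < p)
    (he' : 0 < e') (h : ∫ φ in Ioc (0 : ℝ) 1, |R * ψ (φ : UnitAddCircle)| ^ p ≤ e) :
    ∃ M₀ : ℕ, ∀ M : ℕ, M₀ ≤ M →
      ∫ k : UnitAddTorus (Fin d), |(lf ψ R M) (lap d k)| ^ p ≤ e + e' := by
  have hhp : Continuous fun t : UnitAddCircle => |R * ψ t| ^ p :=
    (continuous_const.mul ψ.continuous).abs.rpow_const fun _ => Or.inr (by linarith)
  obtain ⟨M₂, hM₂⟩ := Eqd.eqd d ⟨fun t : UnitAddCircle => |R * ψ t| ^ p, hhp⟩ hd e' he'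
  refine ⟨M₂, fun M hM => ?_⟩
  have h4 := (abs_le.1 (hM₂ M hM)).2
  have h5 : (∫ k : UnitAddTorus (Fin d),
      (⟨fun t : UnitAddCircle => |R * ψ t| ^ p, hhp⟩ : C(UnitAddCircle, ℝ))
        ((M * lap d k / (2 * Real.pi) : ℝ) : UnitAddCircle)) =
      ∫ k : UnitAddTorus (Fin d), |(lf ψ R M) (lap d k)| ^ p := rfl
  rw [h5] at h4
  have h6 : (∫ φ in Ioc (0 : ℝ) 1,
      (⟨fun t : UnitAddCircle => |R * ψ t| ^ p, hhp⟩ : C(UnitAddCircle, ℝ))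
        (φ : UnitAddCircle)) ≤ e := h
  linarith

theorem lf_hop {d : ℕ} (hd : 0 < d) (ψ : C(UnitAddCircle, ℝ)) {R g e : ℝ} (hR : 0 < R)
    (hg : 0 ≤ g) (hg2 : g < (d : ℝ) / 3) (he : 0 < e)
    (hhol : ∃ C : ℝ, ∀ s t : ℝ,
      |ψ (s : UnitAddCircle) - ψ (t : UnitAddCircle)| ≤ C * |s - t| ^ (2 / 3 : ℝ))
    (hmean : (∫ φ in Ioc (0 : ℝ) 1, ψ (φ : UnitAddCircle)) = 0) :
    ∃ M₀ : ℕ, ∀ M : ℕ, M₀ ≤ M → ∀ x : Fin d → ℤ,
      ‖mFourierCoeff (fun k : UnitAddTorus (Fin d) => (((lf ψ R M) (lap d k) : ℝ) : ℂ)) x‖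
        ≤ e / (1 + ‖x‖) ^ g := by
  obtain ⟨M₃, hM₃⟩ := Hop.main d ψ g (e / R) hd hg hg2 (by positivity) hhol hmean
  refine ⟨M₃, fun M hM x => ?_⟩
  have h1 : mFourierCoeff (fun k : UnitAddTorus (Fin d) =>
      (((lf ψ R M) (lap d k) : ℝ) : ℂ)) x = (R : ℂ) * mFourierCoeff
      (fun k : UnitAddTorus (Fin d) => ((ψ ((M * lap d k / (2 * Real.pi) : ℝ) :
        UnitAddCircle) : ℝ) : ℂ)) x := by
    rw [← Pool.Agent.W191.LL.mfc_smul]
    congr 1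
    funext k
    change ((R * ψ _ : ℝ) : ℂ) = _
    push_cast
    rfl
  rw [h1, norm_mul, Complex.norm_real, Real.norm_of_nonneg hR.le]
  calc R * ‖mFourierCoeff (fun k : UnitAddTorus (Fin d) =>
      ((ψ ((M * lap d k / (2 * Real.pi) : ℝ) : UnitAddCircle) : ℝ) : ℂ)) x‖
      ≤ R * (e / R / (1 + ‖x‖) ^ g) := mul_le_mul_of_nonneg_left (hM₃ M hM x) hR.le
    _ = e / (1 + ‖x‖) ^ g := by
        have : 0 < (1 + ‖x‖) ^ g := by positivity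
        field_simp

theorem add_lp {d : ℕ} {p : ℝ} (hp : 1 < p) (hp2 : p < 2) (f h : C(ℝ, ℝ)) :
    ∫ k : UnitAddTorus (Fin d), |(f + h) (lap d k)| ^ p ≤
      4 * ((∫ k : UnitAddTorus (Fin d), |f (lap d k)| ^ p) +
        ∫ k : UnitAddTorus (Fin d), |h (lap d k)| ^ p) := by
  have h1 : ∀ k : UnitAddTorus (Fin d), |(f + h) (lap d k)| ^ p ≤
      4 * (|f (lap d k)| ^ p + |h (lap d k)| ^ p) := fun k => lp_add hp hp2
  have i1 : Integrable (fun k : UnitAddTorus (Fin d) => |f (lap d k)| ^ p) := hci hp (gK f d)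
  have i2 : Integrable (fun k : UnitAddTorus (Fin d) => |h (lap d k)| ^ p) := hci hp (gK h d)
  have i3 : Integrable (fun k : UnitAddTorus (Fin d) => |(f + h) (lap d k)| ^ p) :=
    hci hp (gK (f + h) d)
  rw [← integral_add i1 i2, ← integral_const_mul]
  exact integral_mono i3 ((i1.add i2).const_mul 4) h1

theorem add_hop {d : ℕ} (f h : C(ℝ, ℝ)) {x : Fin d → ℤ} {A B : ℝ}
    (hf : ‖mFourierCoeff (fun k : UnitAddTorus (Fin d) => ((f (lap d k) : ℝ) : ℂ)) x‖ ≤ A)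
    (hh : ‖mFourierCoeff (fun k : UnitAddTorus (Fin d) => ((h (lap d k) : ℝ) : ℂ)) x‖ ≤ B) :
    ‖mFourierCoeff (fun k : UnitAddTorus (Fin d) => (((f + h) (lap d k) : ℝ) : ℂ)) x‖ ≤
      A + B := by
  have hc1 : Continuous fun k : UnitAddTorus (Fin d) => ((f (lap d k) : ℝ) : ℂ) := by
    fun_prop
  have hc2 : Continuous fun k : UnitAddTorus (Fin d) => ((h (lap d k) : ℝ) : ℂ) := by
    fun_prop
  have hsplit : (fun k : UnitAddTorus (Fin d) => (((f + h) (lap d k) : ℝ) : ℂ)) =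
      fun k => ((f (lap d k) : ℝ) : ℂ) + ((h (lap d k) : ℝ) : ℂ) := by
    funext k
    rw [ContinuousMap.add_apply]
    push_cast
    rfl
  rw [hsplit, Pool.Agent.W191.LL.mfc_add _ _ hc1 hc2 x]
  exact (norm_add_le _ _).trans (add_le_add hf hh)

theorem sum_lp {d : ℕ} {ψ : C(UnitAddCircle, ℝ)} (hψ : ∀ t, |ψ t| ≤ 1) {r p : ℝ} (hp : 1 < p)
    (hr0 : 0 < r) (hr1 : r ≤ 1 / 2) {f : C(ℝ, ℝ)} (hf : IsSum ψ (2 * r) f) :
    ∫ k : UnitAddTorus (Fin d), |f (lap d k)| ^ p ≤ 2 * r := by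
  have hb2 : ∀ t, |f t| ≤ 2 * r := issum_le hψ hf
  have h8 : ∀ k : UnitAddTorus (Fin d), |f (lap d k)| ^ p ≤ 2 * r := by
    intro k
    calc |f (lap d k)| ^ p ≤ (2 * r) ^ p :=
          Real.rpow_le_rpow (abs_nonneg _) (hb2 _) (by linarith)
      _ ≤ (2 * r) ^ (1 : ℝ) :=
          Real.rpow_le_rpow_of_exponent_ge (by linarith) (by linarith) hp.le
      _ = 2 * r := Real.rpow_one _
  have hvol : IsProbabilityMeasure (volume : Measure (UnitAddTorus (Fin d))) := by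
    rw [Eqd.vol_eq]
    unfold Pool.Agent.W191.LL.mu
    infer_instance
  calc ∫ k : UnitAddTorus (Fin d), |f (lap d k)| ^ p
      ≤ ∫ _ : UnitAddTorus (Fin d), 2 * r :=
        integral_mono (hci hp (gK f d)) (integrable_const _) h8
    _ = 2 * r := by simp

theorem sum_hop {d : ℕ} (hd : 0 < d) {ψ : C(UnitAddCircle, ℝ)} {C r e g : ℝ} (hC : 0 ≤ C)
    (hr0 : 0 < r) (hg2 : g < (d : ℝ) / 3) (he : 0 ≤ e) (hCr : 2 * r * C ≤ e)
    (hCb : ∀ (M : ℕ) (x : Fin d → ℤ), ‖mFourierCoeff (fun k : UnitAddTorus (Fin d) =>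
      ((ψ ((M * lap d k / (2 * Real.pi) : ℝ) : UnitAddCircle) : ℝ) : ℂ)) x‖
        ≤ C / (1 + ‖x‖) ^ ((d : ℝ) / 3)) {f : C(ℝ, ℝ)} (hf : IsSum ψ (2 * r) f)
    (x : Fin d → ℤ) :
    ‖mFourierCoeff (fun k : UnitAddTorus (Fin d) => ((f (lap d k) : ℝ) : ℂ)) x‖ ≤
      e / (1 + ‖x‖) ^ g := by
  have hX1 : (1 : ℝ) ≤ 1 + ‖x‖ := by linarith [norm_nonneg x]
  have hden : 0 < (1 + ‖x‖) ^ g := by positivity
  refine (WSP.main d ψ C (2 * r) f hd hC (by linarith) hCb hf x).trans ?_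
  have h2 : (1 + ‖x‖) ^ g ≤ (1 + ‖x‖) ^ ((d : ℝ) / 3) :=
    Real.rpow_le_rpow_of_exponent_le hX1 hg2.le
  exact div_le_div₀ he hCr hden h2

end

end Run7.h475.NP.Prt
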