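import Pool.Agent.Run7.h475.NP.Fin

/-!
A level function which is small in `L^p` and enlarges the range of the kinetic energy.
-/

set_option autoImplicit false

namespace Run7.h475.NP.Rng

open MeasureTheory Filter Topology Set Pool.Agent.W792.LL Pool.Agent.W792.WA Pool.Agent.N659.HB
open UnitAddTorus

noncomputable section

/-- A narrow tent. -/
def tent (w : ℝ) : C(UnitAddCircle, ℝ) where
  toFun t := max 0 (1 - ‖t‖ / w)
  continuous_toFun := continuous_const.max (continuous_const.sub (continuous_norm.div_const w))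

/-- Difference of two tents. -/
def psA (w : ℝ) : C(UnitAddCircle, ℝ) where
  toFun t := tent w t - tent w (t - ((1 / 2 : ℝ) : UnitAddCircle))
  continuous_toFun := (tent w).continuous.sub
    ((tent w).continuous.comp (continuous_id.sub continuous_const))

theorem tent_nonneg (w : ℝ) (t : UnitAddCircle) : 0 ≤ tent w t := le_max_left _ _

theorem tent_le (w : ℝ) (hw : 0 < w) (t : UnitAddCircle) : tent w t ≤ 1 := by
  refine max_le (by norm_num) ?_
  have : 0 ≤ ‖t‖ / w := by positivity
  linarith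

theorem tent_zero (w : ℝ) : tent w 0 = 1 := by
  change max 0 (1 - ‖(0 : UnitAddCircle)‖ / w) = 1
  simp

theorem norm_half : ‖((1 / 2 : ℝ) : UnitAddCircle)‖ = 1 / 2 := by
  rw [UnitAddCircle.norm_eq]
  norm_num

theorem tent_half (w : ℝ) (hw : 0 < w) (hw2 : w ≤ 1 / 2) (t : UnitAddCircle)
    (ht : ‖t‖ = 1 / 2) : tent w t = 0 := by
  change max 0 (1 - ‖t‖ / w) = 0
  rw [ht, max_eq_left]
  have : 1 ≤ 1 / 2 / w := by
    rw [le_div_iff₀ hw]
    linarith
  linarith

theorem psA_zero {w : ℝ} (hw : 0 < w) (hw2 : w ≤ 1 / 2) : psA w 0 = 1 := by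
  change tent w 0 - tent w (0 - ((1 / 2 : ℝ) : UnitAddCircle)) = 1
  rw [tent_zero, tent_half w hw hw2, sub_zero]
  rw [zero_sub, norm_neg, norm_half]

theorem psA_half {w : ℝ} (hw : 0 < w) (hw2 : w ≤ 1 / 2) :
    psA w ((1 / 2 : ℝ) : UnitAddCircle) = -1 := by
  change tent w ((1 / 2 : ℝ) : UnitAddCircle) -
    tent w (((1 / 2 : ℝ) : UnitAddCircle) - ((1 / 2 : ℝ) : UnitAddCircle)) = -1
  rw [sub_self, tent_zero, tent_half w hw hw2 _ norm_half]
  norm_num

theorem psA_bound {w : ℝ} (hw : 0 < w) (t : UnitAddCircle) : |psA w t| ≤ 1 := by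
  change |tent w t - tent w (t - ((1 / 2 : ℝ) : UnitAddCircle))| ≤ 1
  rw [abs_le]
  constructor
  · linarith [tent_nonneg w t, tent_le w hw (t - ((1 / 2 : ℝ) : UnitAddCircle))]
  · linarith [tent_nonneg w (t - ((1 / 2 : ℝ) : UnitAddCircle)), tent_le w hw t]

theorem tent_lip {w : ℝ} (hw : 0 < w) (s t : UnitAddCircle) :
    |tent w s - tent w t| ≤ ‖s - t‖ / w := by
  change |max 0 (1 - ‖s‖ / w) - max 0 (1 - ‖t‖ / w)| ≤ _
  rw [max_comm 0, max_comm 0]
  refine (abs_max_sub_max_le_abs (1 - ‖s‖ / w) (1 - ‖t‖ / w) 0).trans ?_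
  rw [show (1 - ‖s‖ / w) - (1 - ‖t‖ / w) = -((‖s‖ - ‖t‖) / w) by ring, abs_neg, abs_div,
    abs_of_pos hw]
  exact div_le_div_of_nonneg_right (abs_norm_sub_norm_le s t) hw.le

theorem coe_norm_le (x : ℝ) : ‖(x : UnitAddCircle)‖ ≤ |x| := by
  rw [UnitAddCircle.norm_eq]
  have h := round_le x 0
  simpa using h

theorem psA_hol {w : ℝ} (hw : 0 < w) : ∃ C : ℝ, ∀ s t : ℝ,
    |psA w (s : UnitAddCircle) - psA w (t : UnitAddCircle)| ≤ C * |s - t| ^ (2 / 3 : ℝ) := by
  refine ⟨2 / w + 2, fun s t => ?_⟩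
  have h1 : |psA w (s : UnitAddCircle) - psA w (t : UnitAddCircle)| ≤ 2 / w * |s - t| := by
    change |(tent w _ - tent w (_ - _)) - (tent w _ - tent w (_ - _))| ≤ _
    have e : (tent w (s : UnitAddCircle) - tent w ((s : UnitAddCircle) - ((1 / 2 : ℝ) : UnitAddCircle))) -
        (tent w (t : UnitAddCircle) - tent w ((t : UnitAddCircle) - ((1 / 2 : ℝ) : UnitAddCircle))) =
        (tent w (s : UnitAddCircle) - tent w (t : UnitAddCircle)) -
        (tent w ((s : UnitAddCircle) - ((1 / 2 : ℝ) : UnitAddCircle)) -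
          tent w ((t : UnitAddCircle) - ((1 / 2 : ℝ) : UnitAddCircle))) := by ring
    rw [e]
    have h2 := tent_lip hw (s : UnitAddCircle) (t : UnitAddCircle)
    have h3 := tent_lip hw ((s : UnitAddCircle) - ((1 / 2 : ℝ) : UnitAddCircle))
      ((t : UnitAddCircle) - ((1 / 2 : ℝ) : UnitAddCircle))
    rw [sub_sub_sub_cancel_right] at h3
    have h4 : ‖(s : UnitAddCircle) - (t : UnitAddCircle)‖ ≤ |s - t| := by
      rw [← AddCircle.coe_sub]
      exact coe_norm_le _
    have h5 : ‖(s : UnitAddCircle) - (t : UnitAddCircle)‖ / w ≤ |s - t| / w :=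
      div_le_div_of_nonneg_right h4 hw.le
    have h6 := (abs_sub _ _).trans (add_le_add h2 h3)
    refine h6.trans ?_
    have h7 : 2 / w * |s - t| = |s - t| / w + |s - t| / w := by ring
    rw [h7]
    exact add_le_add h5 h5
  rcases le_total |s - t| 1 with h | h
  · have h2 : |s - t| ≤ |s - t| ^ (2 / 3 : ℝ) := by
      calc |s - t| = |s - t| ^ (1 : ℝ) := (Real.rpow_one _).symm
        _ ≤ |s - t| ^ (2 / 3 : ℝ) :=
          Real.rpow_le_rpow_of_exponent_ge_of_imp (abs_nonneg _) h (by norm_num) (by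
            intro _ h
            norm_num at h)
    have h3 : 0 ≤ |s - t| ^ (2 / 3 : ℝ) := by positivity
    have h4 : 0 < 2 / w := by positivity
    nlinarith [mul_le_mul_of_nonneg_left h2 h4.le]
  · have h2 : 1 ≤ |s - t| ^ (2 / 3 : ℝ) := Real.one_le_rpow h (by norm_num)
    have h3 : |psA w (s : UnitAddCircle) - psA w (t : UnitAddCircle)| ≤ 2 := by
      refine (abs_sub _ _).trans ?_
      linarith [psA_bound hw (s : UnitAddCircle), psA_bound hw (t : UnitAddCircle)]
    have h4 : 0 < 2 / w := by positivity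
    nlinarith [mul_nonneg h4.le (by linarith : (0 : ℝ) ≤ |s - t| ^ (2 / 3 : ℝ))]

theorem int_circ (f : UnitAddCircle → ℝ) :
    ∫ φ in Ioc (0 : ℝ) 1, f (φ : UnitAddCircle) = ∫ t : UnitAddCircle, f t := by
  have h := UnitAddCircle.integral_preimage 0 f
  rwa [zero_add] at h

theorem tent_int {w : ℝ} : Integrable (fun t : UnitAddCircle => tent w t) :=
  (tent w).continuous.integrable_of_hasCompactSupport (HasCompactSupport.of_compactSpace _)

theorem psA_mean (w : ℝ) : (∫ φ in Ioc (0 : ℝ) 1, psA w (φ : UnitAddCircle)) = 0 := by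
  rw [int_circ]
  change ∫ t : UnitAddCircle, (tent w t - tent w (t - ((1 / 2 : ℝ) : UnitAddCircle))) = 0
  have hi : Integrable (fun t : UnitAddCircle => tent w (t - ((1 / 2 : ℝ) : UnitAddCircle))) :=
    ((tent w).continuous.comp (continuous_id.sub
      continuous_const)).integrable_of_hasCompactSupport (HasCompactSupport.of_compactSpace _)
  rw [integral_sub tent_int hi, integral_sub_right_eq_self (fun t : UnitAddCircle => tent w t)]
  ring

theorem tent_intle {w : ℝ} (hw : 0 < w) : ∫ t : UnitAddCircle, tent w t ≤ 2 * w := by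
  have h1 : ∀ t : UnitAddCircle, tent w t ≤ (Metric.closedBall (0 : UnitAddCircle) w).indicator
      (fun _ => (1 : ℝ)) t := by
    intro t
    by_cases h : t ∈ Metric.closedBall (0 : UnitAddCircle) w
    · rw [indicator_of_mem h]
      exact tent_le w hw t
    · rw [indicator_of_notMem h]
      rw [mem_closedBall_zero_iff, not_le] at h
      change max 0 (1 - ‖t‖ / w) ≤ 0
      refine max_le le_rfl ?_
      have : 1 ≤ ‖t‖ / w := by
        rw [le_div_iff₀ hw]
        linarith
      linarith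
  have hm : MeasurableSet (Metric.closedBall (0 : UnitAddCircle) w) :=
    Metric.isClosed_closedBall.measurableSet
  calc ∫ t : UnitAddCircle, tent w t
      ≤ ∫ t : UnitAddCircle, (Metric.closedBall (0 : UnitAddCircle) w).indicator
        (fun _ => (1 : ℝ)) t :=
        integral_mono tent_int ((integrable_const _).indicator hm) h1
    _ = (volume : Measure UnitAddCircle).real (Metric.closedBall (0 : UnitAddCircle) w) := by
        rw [integral_indicator_const _ hm, smul_eq_mul, mul_one]
    _ ≤ 2 * w := by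
        rw [measureReal_def, AddCircle.volume_closedBall]
        rw [ENNReal.toReal_ofReal (le_min (by norm_num) (by positivity))]
        exact min_le_right _ _

theorem psA_lp {w R p : ℝ} (hw : 0 < w) (hR : 0 < R) (hp : 1 < p) :
    ∫ φ in Ioc (0 : ℝ) 1, |R * psA w (φ : UnitAddCircle)| ^ p ≤ R ^ p * (4 * w) := by
  rw [int_circ (fun t => |R * psA w t| ^ p)]
  have hi2 : Integrable (fun t : UnitAddCircle => tent w (t - ((1 / 2 : ℝ) : UnitAddCircle))) :=
    ((tent w).continuous.comp (continuous_id.sub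
      continuous_const)).integrable_of_hasCompactSupport (HasCompactSupport.of_compactSpace _)
  have h1 : ∀ t : UnitAddCircle, |R * psA w t| ^ p ≤
      R ^ p * (tent w t + tent w (t - ((1 / 2 : ℝ) : UnitAddCircle))) := by
    intro t
    rw [abs_mul, abs_of_pos hR, Real.mul_rpow hR.le (abs_nonneg _)]
    apply mul_le_mul_of_nonneg_left _ (by positivity)
    calc |psA w t| ^ p ≤ |psA w t| ^ (1 : ℝ) :=
          Real.rpow_le_rpow_of_exponent_ge_of_imp (abs_nonneg _) (psA_bound hw t) hp.le (by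
            intro _ h
            linarith)
      _ = |psA w t| := Real.rpow_one _
      _ ≤ tent w t + tent w (t - ((1 / 2 : ℝ) : UnitAddCircle)) := by
          change |tent w t - tent w (t - ((1 / 2 : ℝ) : UnitAddCircle))| ≤ _
          refine (abs_sub _ _).trans ?_
          rw [abs_of_nonneg (tent_nonneg _ _), abs_of_nonneg (tent_nonneg _ _)]
  have hc : Continuous fun t : UnitAddCircle => |R * psA w t| ^ p :=
    (continuous_const.mul (psA w).continuous).abs.rpow_const fun _ => Or.inr (by linarith)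
  have hi1 : Integrable (fun t : UnitAddCircle => |R * psA w t| ^ p) :=
    hc.integrable_of_hasCompactSupport (HasCompactSupport.of_compactSpace _)
  calc ∫ t : UnitAddCircle, |R * psA w t| ^ p
      ≤ ∫ t : UnitAddCircle, R ^ p * (tent w t + tent w (t - ((1 / 2 : ℝ) : UnitAddCircle))) :=
        integral_mono hi1 ((tent_int.add hi2).const_mul _) h1
    _ = R ^ p * ((∫ t : UnitAddCircle, tent w t) + ∫ t : UnitAddCircle, tent w t) := by
        rw [integral_const_mul, integral_add tent_int hi2,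
          integral_sub_right_eq_self (fun t : UnitAddCircle => tent w t)]
    _ ≤ R ^ p * (4 * w) := by
        apply mul_le_mul_of_nonneg_left _ (by positivity)
        linarith [tent_intle hw]

/-- The range of the kinetic energy after adding the level. -/
theorem range {d : ℕ} (hd : 0 < d) (K : C(UnitAddTorus (Fin d), ℝ)) {w R : ℝ} (hw : 0 < w)
    (hw2 : w ≤ 1 / 2) (hR : ‖K‖ + 4 * d ≤ R) {M : ℕ} (hM : 1 ≤ M) {E : ℝ} (h0 : 0 ≤ E)
    (h1 : E ≤ 4 * d) : ∃ k, addL (psA w) K R M k = E := by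
  have hM0 : (0 : ℝ) < M := by exact_mod_cast hM
  have hM1 : (1 : ℝ) ≤ M := by exact_mod_cast hM
  have hd1 : (1 : ℝ) ≤ d := by exact_mod_cast hd
  obtain ⟨k₁, hk₁⟩ := Pool.Agent.W335.WAB.BaseJ.lap_surj d (E := 0) le_rfl (by positivity)
  obtain ⟨k₂, hk₂⟩ := Pool.Agent.W335.WAB.BaseJ.lap_surj d (E := Real.pi / M) (by positivity) (by
    have : Real.pi / M ≤ Real.pi := div_le_self Real.pi_pos.le hM1
    linarith [Real.pi_le_four])
  have e1 : addL (psA w) K R M k₁ = K k₁ + R := by
    change K k₁ + R * psA w ((M * lap d k₁ / (2 * Real.pi) : ℝ) : UnitAddCircle) = _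
    rw [hk₁]
    have : ((M * 0 / (2 * Real.pi) : ℝ) : UnitAddCircle) = 0 := by simp
    rw [this, psA_zero hw hw2, mul_one]
  have e2 : addL (psA w) K R M k₂ = K k₂ - R := by
    change K k₂ + R * psA w ((M * lap d k₂ / (2 * Real.pi) : ℝ) : UnitAddCircle) = _
    rw [hk₂]
    have : (M * (Real.pi / M) / (2 * Real.pi) : ℝ) = 1 / 2 := by
      field_simp
    rw [this, psA_half hw hw2]
    ring
  have hn1 := abs_le.1 (K.norm_coe_le_norm k₁)
  have hn2 := abs_le.1 (K.norm_coe_le_norm k₂)
  have h := mem_range_of_exists_le_of_exists_ge (c := E) (addL (psA w) K R M).continuous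
    ⟨k₂, by rw [e2]; linarith⟩ ⟨k₁, by rw [e1]; linarith⟩
  exact h

end

end Run7.h475.NP.Rng
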