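import Pool.Agent.Run7.h475.NP.Caui

/-!
Project NP: level functions with law close to the Cauchy law.
-/

set_option autoImplicit false

namespace Run7.h475.NP.Tan

open MeasureTheory Filter Topology Set Pool.Agent.W792.LL Pool.Agent.W792.WA
open Run7.h475.NP.Caui (cm)

/-- change of variables: the tangent of a uniform angle has the Cauchy law -/
theorem cauchy_tan (G : ℝ → ℂ) :
    ∫ a, G a ∂cm = ∫ u in Ioo (-(1/2) : ℝ) (1/2), G (Real.tan (Real.pi * u)) := by
  rw [cm, ProbabilityTheory.cauchyMeasure_of_scale_ne_zero 0 one_ne_zero,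
    integral_withDensity_eq_integral_toReal_smul (by fun_prop)
      (ae_of_all _ fun v => by
        rw [ProbabilityTheory.cauchyPDF_def]
        exact ENNReal.ofReal_lt_top)]
  have hpi := Real.pi_pos
  have himg : (fun u : ℝ => Real.tan (Real.pi * u)) '' Ioo (-(1/2) : ℝ) (1/2) = univ := by
    apply eq_univ_of_forall
    intro a
    refine ⟨Real.arctan a / Real.pi, ⟨?_, ?_⟩, ?_⟩
    · rw [lt_div_iff₀ hpi]
      have := Real.neg_pi_div_two_lt_arctan a
      linarith
    · rw [div_lt_iff₀ hpi]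
      have := Real.arctan_lt_pi_div_two a
      linarith
    · simp only
      rw [mul_div_cancel₀ _ hpi.ne', Real.tan_arctan]
  have hcos : ∀ u ∈ Ioo (-(1/2) : ℝ) (1/2), 0 < Real.cos (Real.pi * u) := by
    intro u hu
    apply Real.cos_pos_of_mem_Ioo
    constructor
    · nlinarith [hu.1]
    · nlinarith [hu.2]
  have hder : ∀ u ∈ Ioo (-(1/2) : ℝ) (1/2), HasDerivWithinAt
      (fun u : ℝ => Real.tan (Real.pi * u)) (Real.pi / Real.cos (Real.pi * u) ^ 2)
      (Ioo (-(1/2) : ℝ) (1/2)) u := by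
    intro u hu
    have h1 := (Real.hasDerivAt_tan (hcos u hu).ne').comp u
      ((hasDerivAt_id u).const_mul Real.pi)
    refine HasDerivAt.hasDerivWithinAt ?_
    have h3 : 1 / Real.cos (Real.pi * id u) ^ 2 * (Real.pi * 1) =
        Real.pi / Real.cos (Real.pi * u) ^ 2 := by
      simp only [id]
      ring
    rw [← h3]
    exact h1
  have hinj : InjOn (fun u : ℝ => Real.tan (Real.pi * u)) (Ioo (-(1/2) : ℝ) (1/2)) := by
    intro u hu v hv h
    have := Real.injOn_tan (x₁ := Real.pi * u) (x₂ := Real.pi * v)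
      ⟨by nlinarith [hu.1], by nlinarith [hu.2]⟩ ⟨by nlinarith [hv.1], by nlinarith [hv.2]⟩ h
    exact mul_left_cancel₀ hpi.ne' this
  rw [← setIntegral_univ, ← himg, integral_image_eq_integral_abs_deriv_smul measurableSet_Ioo
    hder hinj]
  refine setIntegral_congr_fun measurableSet_Ioo fun u hu => ?_
  have hc := hcos u hu
  rw [ProbabilityTheory.cauchyPDF_def, ENNReal.toReal_ofReal
      (ProbabilityTheory.cauchyPDF_pos 0 one_ne_zero _).le,
      ProbabilityTheory.cauchyPDFReal_def, smul_smul, abs_of_pos (by positivity)]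
  have e : Real.pi / Real.cos (Real.pi * u) ^ 2 * (Real.pi⁻¹ * ((1 : NNReal) : ℝ) *
      ((Real.tan (Real.pi * u) - 0) ^ 2 + ((1 : NNReal) : ℝ) ^ 2)⁻¹) = 1 := by
    have h1 : (Real.tan (Real.pi * u) - 0) ^ 2 + ((1 : NNReal) : ℝ) ^ 2 =
        (Real.cos (Real.pi * u) ^ 2)⁻¹ := by
      rw [Real.tan_eq_sin_div_cos, NNReal.coe_one, sub_zero]
      have := Real.sin_sq_add_cos_sq (Real.pi * u)
      field_simp
      linarith
    rw [h1, inv_inv]
    simp
    field_simp
  rw [e, one_smul]

/-- the clamp -/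
noncomputable def cl (c u : ℝ) : ℝ := max (-c) (min u c)

/-- the truncated tangent -/
noncomputable def hh (c u : ℝ) : ℝ := Real.tan (Real.pi * cl c u) + (u - cl c u) / 2

section

variable {c : ℝ}

theorem cl_mem (hc : 0 ≤ c) (u : ℝ) : -c ≤ cl c u ∧ cl c u ≤ c := by
  unfold cl
  exact ⟨le_max_left _ _, max_le (by linarith) (min_le_right _ _)⟩

theorem cl_eq {u : ℝ} (h : |u| ≤ c) : cl c u = u := by
  rw [abs_le] at h
  unfold cl
  rw [min_eq_left h.2, max_eq_right h.1]

theorem cl_neg (hc : 0 ≤ c) (u : ℝ) : cl c (-u) = -cl c u := by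
  unfold cl
  simp only [max_def, min_def]
  split_ifs <;> linarith

theorem cl_mono (c : ℝ) : Monotone (cl c) := by
  intro u v h
  unfold cl
  exact max_le_max le_rfl (min_le_min h le_rfl)

theorem sub_cl_mono (hc : 0 ≤ c) {u v : ℝ} (h : u ≤ v) : u - cl c u ≤ v - cl c v := by
  unfold cl
  simp only [max_def, min_def]
  split_ifs <;> linarith

theorem cos_pos (hc : 0 ≤ c) (hc2 : c < 1 / 2) {x : ℝ} (h : -c ≤ x ∧ x ≤ c) :
    0 < Real.cos (Real.pi * c) ∧ Real.cos (Real.pi * c) ≤ Real.cos (Real.pi * x) := by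
  have hpi := Real.pi_pos
  constructor
  · apply Real.cos_pos_of_mem_Ioo
    constructor <;> nlinarith
  · rw [← Real.cos_abs (Real.pi * x)]
    apply Real.cos_le_cos_of_nonneg_of_le_pi (abs_nonneg _)
    · nlinarith
    · rw [abs_mul, abs_of_pos hpi]
      exact mul_le_mul_of_nonneg_left (abs_le.2 h) hpi.le

theorem tan_lip (hc : 0 ≤ c) (hc2 : c < 1 / 2) {x y : ℝ} (hx : -c ≤ x ∧ x ≤ c)
    (hy : -c ≤ y ∧ y ≤ c) :
    |Real.tan (Real.pi * x) - Real.tan (Real.pi * y)| ≤
      Real.pi / Real.cos (Real.pi * c) ^ 2 * |x - y| := by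
  have hpi := Real.pi_pos
  obtain ⟨h0, h1⟩ := cos_pos hc hc2 hx
  obtain ⟨_, h2⟩ := cos_pos hc hc2 hy
  have hx0 := lt_of_lt_of_le h0 h1
  have hy0 := lt_of_lt_of_le h0 h2
  have e : Real.tan (Real.pi * x) - Real.tan (Real.pi * y) =
      Real.sin (Real.pi * (x - y)) / (Real.cos (Real.pi * x) * Real.cos (Real.pi * y)) := by
    rw [mul_sub, Real.sin_sub, Real.tan_eq_sin_div_cos, Real.tan_eq_sin_div_cos]
    field_simp
    try ring
  rw [e, abs_div, abs_of_pos (mul_pos hx0 hy0), div_mul_eq_mul_div]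
  refine div_le_div₀ (by positivity) ?_ (by positivity) ?_
  · have h3 : |Real.sin (Real.pi * (x - y))| ≤ |Real.pi * (x - y)| := Real.abs_sin_le_abs
    rw [abs_mul, abs_of_pos hpi] at h3
    exact h3
  · rw [sq]
    exact mul_le_mul h1 h2 h0.le hx0.le

theorem cl_lip (c u v : ℝ) : |cl c u - cl c v| ≤ |u - v| := by
  unfold cl
  have h1 := abs_max_sub_max_le_max (-c) (min u c) (-c) (min v c)
  have h2 := abs_min_sub_min_le_max u c v c
  rw [sub_self, abs_zero, max_eq_right (abs_nonneg (min u c - min v c))] at h1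
  rw [sub_self, abs_zero, max_eq_left (abs_nonneg (u - v))] at h2
  exact h1.trans h2

theorem hh_lip (hc : 0 ≤ c) (hc2 : c < 1 / 2) (u v : ℝ) :
    |hh c u - hh c v| ≤ (Real.pi / Real.cos (Real.pi * c) ^ 2 + 1) * |u - v| := by
  have h1 := tan_lip hc hc2 (cl_mem hc u) (cl_mem hc v)
  have h2 := cl_lip c u v
  have h3 : 0 ≤ Real.pi / Real.cos (Real.pi * c) ^ 2 := by
    have := Real.pi_pos
    positivity
  have e : hh c u - hh c v = (Real.tan (Real.pi * cl c u) - Real.tan (Real.pi * cl c v)) +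
      ((u - v) - (cl c u - cl c v)) / 2 := by
    unfold hh
    ring
  rw [e]
  refine (abs_add_le _ _).trans ?_
  have h4 : |((u - v) - (cl c u - cl c v)) / 2| ≤ |u - v| := by
    rw [abs_div, abs_of_pos (by norm_num : (0:ℝ) < 2), div_le_iff₀ (by norm_num)]
    refine (abs_sub _ _).trans ?_
    linarith
  nlinarith [mul_le_mul_of_nonneg_left h2 h3]

theorem hh_neg (hc : 0 ≤ c) (u : ℝ) : hh c (-u) = -hh c u := by
  unfold hh
  rw [cl_neg hc, mul_neg, Real.tan_neg]
  ring

theorem hh_strict (hc : 0 ≤ c) (hc2 : c < 1 / 2) : StrictMono (hh c) := by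
  intro u v h
  have hpi := Real.pi_pos
  have h1 := cl_mono c h.le
  have h2 := sub_cl_mono hc h.le
  unfold hh
  rcases h1.eq_or_lt with h3 | h3
  · rw [h3]
    linarith
  · have hu := cl_mem hc u
    have hv := cl_mem hc v
    have h4 : Real.tan (Real.pi * cl c u) < Real.tan (Real.pi * cl c v) := by
      apply Real.strictMonoOn_tan
      · constructor <;> nlinarith
      · constructor <;> nlinarith
      · exact mul_lt_mul_of_pos_left h3 hpi
    linarith

theorem hh_zero (hc : 0 ≤ c) : hh c 0 = 0 := by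
  have := hh_neg hc 0
  rw [neg_zero] at this
  linarith

theorem hh_abs (hc : 0 ≤ c) (hc2 : c < 1 / 2) {u : ℝ} (hu : |u| ≤ 1 / 2) :
    |hh c u| ≤ hh c (1 / 2) := by
  rw [abs_le] at hu ⊢
  have hm := (hh_strict hc hc2).monotone
  constructor
  · rw [← hh_neg hc]
    exact hm hu.1
  · exact hm hu.2

theorem hh_half_pos (hc : 0 ≤ c) (hc2 : c < 1 / 2) : 0 < hh c (1 / 2) := by
  rw [← hh_zero hc]
  exact hh_strict hc hc2 (by norm_num)

theorem hh_eq {u : ℝ} (h : |u| ≤ c) : hh c u = Real.tan (Real.pi * u) := by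
  unfold hh
  rw [cl_eq h]
  simp

theorem hh_cont (hc : 0 ≤ c) (hc2 : c < 1 / 2) : Continuous (hh c) := by
  refine (LipschitzWith.of_dist_le_mul (K := (Real.pi / Real.cos (Real.pi * c) ^ 2 + 1).toNNReal)
    fun u v => ?_).continuous
  rw [Real.dist_eq, Real.dist_eq, Real.coe_toNNReal _ (by
    have := Real.pi_pos
    positivity)]
  exact hh_lip hc hc2 u v

end

/-- the norm on the circle -/
theorem norm_le (t : UnitAddCircle) : ‖t‖ ≤ 1 / 2 := by
  have := AddCircle.norm_le_half_period (1 : ℝ) one_ne_zero (x := t)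
  simpa using this

theorem norm_lo {φ : ℝ} (h0 : 0 ≤ φ) (h1 : φ ≤ 1 / 2) : ‖(φ : UnitAddCircle)‖ = φ := by
  have := (AddCircle.norm_coe_eq_abs_iff (1 : ℝ) (x := φ) one_ne_zero).2
    (by rw [abs_of_nonneg h0, abs_one]; linarith)
  rw [this, abs_of_nonneg h0]

theorem norm_hi {φ : ℝ} (h0 : 1 / 2 ≤ φ) (h1 : φ ≤ 1) : ‖(φ : UnitAddCircle)‖ = 1 - φ := by
  have e : (φ : UnitAddCircle) = -((1 - φ : ℝ) : UnitAddCircle) := by
    have h1 : ((1 : ℝ) : UnitAddCircle) = 0 := AddCircle.coe_period 1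
    rw [← AddCircle.coe_neg, neg_sub, AddCircle.coe_sub, h1, sub_zero]
  rw [e, norm_neg, norm_lo (by linarith) (by linarith)]

/-- the law of `1/2 - 2 ‖φ‖` is uniform -/
theorem chv {E : Type} [NormedAddCommGroup E] [NormedSpace ℝ E] (F : ℝ → E) (B : ℝ)
    (hF : StronglyMeasurable F) (hB : ∀ u, |u| ≤ 1 / 2 → ‖F u‖ ≤ B) :
    ∫ φ in Ioc (0 : ℝ) 1, F (1 / 2 - 2 * ‖(φ : UnitAddCircle)‖) =
      ∫ u in (-(1/2) : ℝ)..(1/2), F u := by
  have hcn : Continuous fun φ : ℝ => 1 / 2 - 2 * ‖(φ : UnitAddCircle)‖ :=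
    continuous_const.sub (continuous_const.mul
      (continuous_norm.comp (AddCircle.continuous_mk' (1 : ℝ))))
  have hi : ∀ a b : ℝ, IntervalIntegrable
      (fun φ : ℝ => F (1 / 2 - 2 * ‖(φ : UnitAddCircle)‖)) volume a b := by
    intro a b
    rw [intervalIntegrable_iff]
    refine Measure.integrableOn_of_bounded (M := B) (by simp)
      ((hF.comp_measurable hcn.measurable).aestronglyMeasurable) (ae_of_all _ fun φ => ?_)
    apply hB
    rw [abs_le]
    have h1 := norm_le (φ : UnitAddCircle)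
    have h2 := norm_nonneg (φ : UnitAddCircle)
    constructor <;> linarith
  have hi2 : ∀ a b : ℝ, -(1/2) ≤ a → a ≤ b → b ≤ 1/2 →
      IntervalIntegrable F volume a b := by
    intro a b ha hab hb
    rw [intervalIntegrable_iff_integrableOn_Ioc_of_le hab]
    refine Measure.integrableOn_of_bounded (M := B) (by simp) hF.aestronglyMeasurable ?_
    filter_upwards [ae_restrict_mem measurableSet_Ioc] with u hu
    apply hB
    rw [abs_le]
    constructor <;> linarith [hu.1, hu.2]
  rw [← intervalIntegral.integral_of_le zero_le_one,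
    ← intervalIntegral.integral_add_adjacent_intervals (hi 0 (1/2)) (hi (1/2) 1)]
  have e1 : ∫ φ in (0:ℝ)..(1/2), F (1 / 2 - 2 * ‖(φ : UnitAddCircle)‖) =
      (2 : ℝ)⁻¹ • ∫ u in (-(1/2) : ℝ)..(1/2), F u := by
    have : ∫ φ in (0:ℝ)..(1/2), F (1 / 2 - 2 * ‖(φ : UnitAddCircle)‖) =
        ∫ φ in (0:ℝ)..(1/2), F (1 / 2 - 2 * φ) := by
      apply intervalIntegral.integral_congr
      intro φ hφ
      rw [uIcc_of_le (by norm_num)] at hφ
      simp only
      rw [norm_lo hφ.1 hφ.2]
    rw [this, intervalIntegral.integral_comp_sub_mul F (two_ne_zero) (1/2)]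
    norm_num
  have e2 : ∫ φ in (1/2:ℝ)..1, F (1 / 2 - 2 * ‖(φ : UnitAddCircle)‖) =
      (2 : ℝ)⁻¹ • ∫ u in (-(1/2) : ℝ)..(1/2), F u := by
    have : ∫ φ in (1/2:ℝ)..1, F (1 / 2 - 2 * ‖(φ : UnitAddCircle)‖) =
        ∫ φ in (1/2:ℝ)..1, F (2 * φ - 3 / 2) := by
      apply intervalIntegral.integral_congr
      intro φ hφ
      rw [uIcc_of_le (by norm_num)] at hφ
      simp only
      rw [norm_hi hφ.1 hφ.2]
      congr 1
      ring
    rw [this, intervalIntegral.integral_comp_mul_sub F (two_ne_zero) (3/2)]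
    norm_num
  rw [e1, e2, ← add_smul]
  norm_num

/-- total variation -/
theorem tv {c γ : ℝ} (hc : 0 ≤ c) (hc2 : c < 1 / 2) (f : ℝ → ℂ) (F : ℝ) (hf : Measurable f)
    (hF : ∀ a, ‖f a‖ ≤ F) :
    ‖(∫ u in (-(1/2) : ℝ)..(1/2), f (γ * hh c u)) - ∫ a, f (γ * a) ∂cm‖ ≤
      2 * (1 - 2 * c) * F := by
  have hpi := Real.pi_pos
  have hF0 : 0 ≤ F := (norm_nonneg _).trans (hF 0)
  rw [cauchy_tan, intervalIntegral.integral_of_le (by norm_num), integral_Ioc_eq_integral_Ioo]
  have hcont := hh_cont hc hc2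
  have hm1 : Measurable fun u : ℝ => f (γ * hh c u) :=
    hf.comp (measurable_const.mul hcont.measurable)
  have hm2 : Measurable fun u : ℝ => f (γ * Real.tan (Real.pi * u)) := by
    refine hf.comp (measurable_const.mul ?_)
    have e : (fun u : ℝ => Real.tan (Real.pi * u)) =
        fun u : ℝ => Real.sin (Real.pi * u) / Real.cos (Real.pi * u) := by
      funext u
      exact Real.tan_eq_sin_div_cos _
    rw [e]
    exact (Real.measurable_sin.comp (measurable_const.mul measurable_id)).div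
      (Real.measurable_cos.comp (measurable_const.mul measurable_id))
  have hi1 : IntegrableOn (fun u : ℝ => f (γ * hh c u)) (Ioo (-(1/2) : ℝ) (1/2)) :=
    Measure.integrableOn_of_bounded (M := F) (by simp) hm1.aestronglyMeasurable
      (ae_of_all _ fun u => hF _)
  have hi2 : IntegrableOn (fun u : ℝ => f (γ * Real.tan (Real.pi * u)))
      (Ioo (-(1/2) : ℝ) (1/2)) :=
    Measure.integrableOn_of_bounded (M := F) (by simp) hm2.aestronglyMeasurable
      (ae_of_all _ fun u => hF _)
  rw [← integral_sub hi1 hi2]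
  have hms : MeasurableSet (Icc (-c) c)ᶜ := measurableSet_Icc.compl
  have hg : IntegrableOn ((Icc (-c) c)ᶜ.indicator fun _ : ℝ => 2 * F) (Ioo (-(1/2) : ℝ) (1/2)) :=
    (integrable_const (2 * F)).indicator hms
  refine (norm_integral_le_of_norm_le hg (ae_of_all _ fun u => ?_)).trans ?_
  · by_cases hu : u ∈ Icc (-c) c
    · rw [indicator_of_notMem (by simpa using hu), hh_eq (abs_le.2 hu), sub_self, norm_zero]
    · rw [indicator_of_mem (by simpa using hu)]
      refine (norm_sub_le _ _).trans ?_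
      have h1 := hF (γ * hh c u)
      have h2 := hF (γ * Real.tan (Real.pi * u))
      linarith
  · rw [setIntegral_indicator hms, setIntegral_const, smul_eq_mul]
    have hv : volume.real (Ioo (-(1/2) : ℝ) (1/2) ∩ (Icc (-c) c)ᶜ) = 1 - 2 * c := by
      rw [← sdiff_eq, measureReal_sdiff (by
        intro x hx
        exact ⟨by linarith [hx.1], by linarith [hx.2]⟩) measurableSet_Icc (by
          rw [Real.volume_Ioo]
          exact ENNReal.ofReal_ne_top)]
      rw [Real.volume_real_Ioo_of_le (by norm_num), Real.volume_real_Icc_of_le (by linarith)]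
      ring
    rw [hv]
    apply le_of_eq
    ring

/-- numerical inequality -/
theorem num {p τ : ℝ} (hp : 1 < p) (hp2 : p < 2) (hτ : 0 < τ) :
    Real.pi ^ (-p) * ((τ / 2) ^ (1 - p) / (p - 1)) + (τ / 2) * τ ^ (-p) ≤
      τ ^ (1 - p) / (p - 1) := by
  have hpi := Real.pi_pos
  have h1 : (τ / 2) ^ (1 - p) = τ ^ (1 - p) * 2 ^ (p - 1) := by
    rw [Real.div_rpow hτ.le (by norm_num), div_eq_mul_inv, ← Real.rpow_neg (by norm_num)]
    congr 2
    ring
  have h2 : τ * τ ^ (-p) = τ ^ (1 - p) := by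
    rw [sub_eq_add_neg, Real.rpow_add hτ, Real.rpow_one]
  have h3 : Real.pi ^ (-p) * 2 ^ (p - 1) ≤ 1 / 2 := by
    have e : Real.pi ^ (-p) * 2 ^ (p - 1) = (2 / Real.pi) ^ p / 2 := by
      rw [Real.div_rpow (by norm_num) hpi.le, Real.rpow_neg hpi.le, Real.rpow_sub (by norm_num),
        Real.rpow_one]
      ring
    rw [e]
    have : (2 / Real.pi) ^ p ≤ 1 := by
      apply Real.rpow_le_one (by positivity)
      · rw [div_le_one hpi]
        linarith [Real.pi_gt_three]
      · linarith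
    linarith
  have hT : 0 < τ ^ (1 - p) := Real.rpow_pos_of_pos hτ _
  have hp1 : 0 < p - 1 := by linarith
  rw [h1]
  have e2 : Real.pi ^ (-p) * (τ ^ (1 - p) * 2 ^ (p - 1) / (p - 1)) + τ / 2 * τ ^ (-p) =
      τ ^ (1 - p) / (p - 1) * (Real.pi ^ (-p) * 2 ^ (p - 1) + (p - 1) / 2) := by
    rw [show τ / 2 * τ ^ (-p) = τ ^ (1 - p) / 2 by rw [← h2]; ring]
    field_simp
  rw [e2]
  have h5 : 0 < τ ^ (1 - p) / (p - 1) := by positivity
  nlinarith

/-- the `L^p` norm of the truncated tangent -/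
theorem lp {p τ : ℝ} (hp : 1 < p) (hp2 : p < 2) (hτ : 0 < τ) (hτ2 : τ ≤ 1 / 2) :
    ∫ u in (-(1/2) : ℝ)..(1/2), |hh ((1 - τ) / 2) u| ^ p ≤ 2 * (τ ^ (1 - p) / (p - 1)) := by
  have hpi := Real.pi_pos
  have hpi3 := Real.pi_gt_three
  set c : ℝ := (1 - τ) / 2 with hcd
  have hc : 0 ≤ c := by rw [hcd]; linarith
  have hc2 : c < 1 / 2 := by rw [hcd]; linarith
  have hcont := hh_cont hc hc2
  have hcp : Continuous fun u : ℝ => |hh c u| ^ p :=
    hcont.abs.rpow_const fun _ => Or.inr (by linarith)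
  have hi : ∀ a b : ℝ, IntervalIntegrable (fun u : ℝ => |hh c u| ^ p) volume a b :=
    fun a b => hcp.intervalIntegrable a b
  have hsym : ∫ u in (-(1/2) : ℝ)..0, |hh c u| ^ p = ∫ u in (0 : ℝ)..(1/2), |hh c u| ^ p := by
    have := intervalIntegral.integral_comp_neg (a := 0) (b := 1/2) (fun u : ℝ => |hh c u| ^ p)
    rw [neg_zero] at this
    rw [← this]
    apply intervalIntegral.integral_congr
    intro u _
    simp only
    rw [hh_neg hc, abs_neg]
  rw [← intervalIntegral.integral_add_adjacent_intervals (hi _ 0) (hi 0 _), hsym,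
    ← intervalIntegral.integral_add_adjacent_intervals (hi 0 c) (hi c _)]
  -- the cotangent bound
  have hcot : ∀ v : ℝ, 0 < v → v ≤ 1 / 2 → 0 ≤ Real.tan (Real.pi * (1 / 2 - v)) ∧
      Real.tan (Real.pi * (1 / 2 - v)) ≤ 1 / (Real.pi * v) := by
    intro v hv hv2
    have hx0 : 0 < Real.pi * v := by positivity
    have e : Real.tan (Real.pi * (1 / 2 - v)) = (Real.tan (Real.pi * v))⁻¹ := by
      rw [show Real.pi * (1 / 2 - v) = Real.pi / 2 - Real.pi * v by ring,
        Real.tan_pi_div_two_sub]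
    rw [e]
    rcases hv2.eq_or_lt with h | h
    · rw [h, show Real.pi * (1 / 2) = Real.pi / 2 by ring, Real.tan_pi_div_two, inv_zero]
      constructor
      · exact le_rfl
      · positivity
    · have h1 : Real.pi * v < Real.pi / 2 := by nlinarith
      have h2 := Real.lt_tan hx0 h1
      constructor
      · exact inv_nonneg.2 (by linarith)
      · rw [one_div]
        exact inv_anti₀ hx0 h2.le
  have hmono := (hh_strict hc hc2).monotone
  have b1 : ∫ u in (0 : ℝ)..c, |hh c u| ^ p ≤ Real.pi ^ (-p) * ((τ / 2) ^ (1 - p) / (p - 1)) := by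
    have h1 : ∫ u in (0 : ℝ)..c, |hh c u| ^ p ≤
        ∫ u in (0 : ℝ)..c, Real.pi ^ (-p) * (1 / 2 - u) ^ (-p) := by
      apply intervalIntegral.integral_mono_on hc (hi _ _)
      · apply ContinuousOn.intervalIntegrable
        rw [uIcc_of_le hc]
        apply continuousOn_const.mul
        apply ContinuousOn.rpow_const (by fun_prop)
        intro u hu
        left
        have := hu.2
        intro h
        linarith
      · intro u hu
        have hu2 : |u| ≤ c := by rw [abs_of_nonneg hu.1]; exact hu.2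
        have hv : 0 < 1 / 2 - u := by linarith [hu.2]
        obtain ⟨h3, h4⟩ := hcot (1 / 2 - u) hv (by linarith [hu.1])
        rw [show 1 / 2 - (1 / 2 - u) = u by ring] at h3 h4
        rw [hh_eq hu2, abs_of_nonneg h3, ← Real.mul_rpow hpi.le hv.le,
          Real.rpow_neg (by positivity)]
        rw [← Real.inv_rpow (by positivity), ← one_div]
        exact Real.rpow_le_rpow h3 h4 (by linarith)
    refine h1.trans ?_
    rw [intervalIntegral.integral_const_mul,
      intervalIntegral.integral_comp_sub_left (fun v : ℝ => v ^ (-p)) (1 / 2),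
      integral_rpow (Or.inr ⟨by linarith, by
        rw [uIcc_of_le (by linarith)]
        intro h
        have := h.1
        linarith⟩)]
    apply mul_le_mul_of_nonneg_left _ (by positivity)
    rw [show (1:ℝ) / 2 - c = τ / 2 by rw [hcd]; ring, show -p + 1 = 1 - p by ring,
      show (((1:ℝ) / 2 - 0) ^ (1 - p) - (τ / 2) ^ (1 - p)) / (1 - p) =
        ((τ / 2) ^ (1 - p) - ((1:ℝ) / 2 - 0) ^ (1 - p)) / (p - 1) by
      rw [← neg_sub, ← neg_sub p 1, neg_div_neg_eq]]
    apply div_le_div_of_nonneg_right _ (by linarith)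
    have : 0 ≤ ((1:ℝ) / 2 - 0) ^ (1 - p) := Real.rpow_nonneg (by norm_num) _
    linarith
  have b2 : ∫ u in c..(1/2), |hh c u| ^ p ≤ (τ / 2) * τ ^ (-p) := by
    have h1 : ∫ u in c..(1/2), |hh c u| ^ p ≤ ∫ _ in c..(1/2 : ℝ), τ ^ (-p) := by
      apply intervalIntegral.integral_mono_on hc2.le (hi _ _) (by simp)
      intro u hu
      have h0 : 0 ≤ hh c u := by
        rw [← hh_zero hc]
        exact hmono (by linarith [hu.1])
      have h2 : hh c u ≤ 1 / τ := by
        refine (hmono hu.2).trans ?_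
        have e : cl c (1 / 2) = c := by
          unfold cl
          rw [min_eq_right hc2.le, max_eq_right (by linarith)]
        unfold hh
        rw [e]
        obtain ⟨_, h4⟩ := hcot (τ / 2) (by positivity) (by linarith)
        rw [show (1:ℝ) / 2 - τ / 2 = c by rw [hcd]; ring] at h4
        have h5 : 1 / (Real.pi * (τ / 2)) ≤ (2 / 3) * (1 / τ) := by
          rw [div_le_iff₀ (by positivity)]
          have : 2 / 3 * (1 / τ) * (Real.pi * (τ / 2)) = Real.pi / 3 := by
            field_simp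
          rw [this]
          linarith
        have h6 : ((1:ℝ) / 2 - c) / 2 ≤ (1 / 3) * (1 / τ) := by
          have h7 : 2 ≤ 1 / τ := by
            rw [le_div_iff₀ hτ]
            linarith
          rw [hcd]
          linarith
        linarith
      rw [abs_of_nonneg h0, Real.rpow_neg hτ.le, ← Real.inv_rpow hτ.le, ← one_div]
      exact Real.rpow_le_rpow h0 h2 (by linarith)
    refine h1.trans ?_
    rw [intervalIntegral.integral_const, smul_eq_mul, show (1:ℝ) / 2 - c = τ / 2 by
      rw [hcd]; ring]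
  have := num hp hp2 hτ
  linarith

theorem main : Pool.Agent.N659.HB.S_TAN2 := by
  intro γ τ hγ hτ hτ2
  set c : ℝ := (1 - τ) / 2 with hcd
  have hc : 0 ≤ c := by rw [hcd]; linarith
  have hc2 : c < 1 / 2 := by rw [hcd]; linarith
  set H : ℝ := hh c (1 / 2) with hH
  have hH0 : 0 < H := hh_half_pos hc hc2
  have hcont := hh_cont hc hc2
  set ψ : C(UnitAddCircle, ℝ) := ⟨fun t => 1 / H * hh c (1 / 2 - 2 * ‖t‖), by
    exact continuous_const.mul (hcont.comp (continuous_const.sub
      (continuous_const.mul continuous_norm)))⟩ with hψ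
  have hψv : ∀ t, ψ t = 1 / H * hh c (1 / 2 - 2 * ‖t‖) := fun t => rfl
  have hRψ : ∀ t, γ * H * ψ t = γ * hh c (1 / 2 - 2 * ‖t‖) := by
    intro t
    rw [hψv]
    field_simp
  have hab : ∀ t : UnitAddCircle, |1 / 2 - 2 * ‖t‖| ≤ 1 / 2 := by
    intro t
    have h1 := norm_le t
    have h2 := norm_nonneg t
    rw [abs_le]
    constructor <;> linarith
  refine ⟨ψ, γ * H, ⟨?_, ?_⟩, by positivity, ?_, ?_, ?_, ?_⟩
  · intro t
    rw [hψv, abs_mul, abs_of_pos (by positivity), one_div, inv_mul_le_iff₀ hH0, mul_one]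
    exact hh_abs hc hc2 (hab t)
  · intro a
    have hinj := (hh_strict hc hc2).injective
    by_cases hex : ∃ u, hh c u = a * H
    · obtain ⟨u, hu⟩ := hex
      have hsub : {φ : ℝ | φ ∈ Ioc (0 : ℝ) 1 ∧ ψ (φ : UnitAddCircle) = a} ⊆
          {(1 / 2 - u) / 2, 1 - (1 / 2 - u) / 2} := by
        rintro φ ⟨hφ, h⟩
        rw [hψv, one_div, inv_mul_eq_iff_eq_mul₀ hH0.ne', mul_comm H a] at h
        have h2 := hinj (h.trans hu.symm)
        rcases le_total φ (1 / 2) with h3 | h3
        · rw [norm_lo hφ.1.le h3] at h2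
          left
          linarith
        · rw [norm_hi h3 hφ.2] at h2
          right
          simp only [mem_singleton_iff]
          linarith
      exact measure_mono_null hsub (((finite_singleton _).insert _).measure_zero volume)
    · have : {φ : ℝ | φ ∈ Ioc (0 : ℝ) 1 ∧ ψ (φ : UnitAddCircle) = a} = ∅ := by
        apply eq_empty_of_forall_notMem
        rintro φ ⟨_, h⟩
        rw [hψv, one_div, inv_mul_eq_iff_eq_mul₀ hH0.ne', mul_comm H a] at h
        exact hex ⟨_, h⟩
      rw [this, measure_empty]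
  · set L : ℝ := Real.pi / Real.cos (Real.pi * c) ^ 2 + 1 with hL
    have hL0 : 0 ≤ L := by
      have := Real.pi_pos
      rw [hL]
      positivity
    refine ⟨1 / H * (L * 2), fun s t => ?_⟩
    rw [hψv, hψv, ← mul_sub, abs_mul, abs_of_pos (show 0 < 1 / H by positivity), mul_assoc]
    apply mul_le_mul_of_nonneg_left _ (by positivity)
    refine (hh_lip hc hc2 _ _).trans ?_
    rw [mul_assoc]
    apply mul_le_mul_of_nonneg_left _ hL0
    have e : |1 / 2 - 2 * ‖(s : UnitAddCircle)‖ - (1 / 2 - 2 * ‖(t : UnitAddCircle)‖)| =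
        2 * |‖(s : UnitAddCircle)‖ - ‖(t : UnitAddCircle)‖| := by
      rw [show 1 / 2 - 2 * ‖(s : UnitAddCircle)‖ - (1 / 2 - 2 * ‖(t : UnitAddCircle)‖) =
        -(2 * (‖(s : UnitAddCircle)‖ - ‖(t : UnitAddCircle)‖)) by ring, abs_neg, abs_mul,
        abs_of_pos (by norm_num : (0:ℝ) < 2)]
    rw [e]
    apply mul_le_mul_of_nonneg_left _ (by norm_num)
    refine (abs_norm_sub_norm_le _ _).trans ?_
    rw [← AddCircle.coe_sub]
    rcases le_total |s - t| 1 with h | h
    · have h1 : ‖((s - t : ℝ) : UnitAddCircle)‖ ≤ |s - t| := by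
        have := UnitAddCircle.norm_eq (x := s - t)
        rw [this]
        have h3 := round_le (s - t) 0
        simpa using h3
      refine h1.trans ?_
      rcases (abs_nonneg (s - t)).eq_or_lt with h4 | h4
      · rw [← h4, Real.zero_rpow (by norm_num)]
      · calc |s - t| = |s - t| ^ (1 : ℝ) := (Real.rpow_one _).symm
          _ ≤ |s - t| ^ (2 / 3 : ℝ) :=
            Real.rpow_le_rpow_of_exponent_ge h4 h (by norm_num)
    · have h1 := norm_le ((s - t : ℝ) : UnitAddCircle)
      have h2 : (1 : ℝ) ≤ |s - t| ^ (2 / 3 : ℝ) := Real.one_le_rpow h (by norm_num)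
      linarith
  · have h1 := chv (fun u : ℝ => 1 / H * hh c u) 1
      (continuous_const.mul hcont).stronglyMeasurable (fun u hu => by
        rw [Real.norm_eq_abs, abs_mul, abs_of_pos (show 0 < 1 / H by positivity), one_div,
          inv_mul_le_iff₀ hH0, mul_one]
        exact hh_abs hc hc2 hu)
    simp only [hψv]
    rw [h1, intervalIntegral.integral_const_mul]
    have h2 := intervalIntegral.integral_comp_neg (a := -(1/2)) (b := 1/2) (hh c)
    rw [neg_neg] at h2
    have h3 : ∫ u in (-(1/2) : ℝ)..(1/2), hh c (-u) = -∫ u in (-(1/2) : ℝ)..(1/2), hh c u := by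
      rw [← intervalIntegral.integral_neg]
      apply intervalIntegral.integral_congr
      intro u _
      exact hh_neg hc u
    have h4 : ∫ u in (-(1/2) : ℝ)..(1/2), hh c u = 0 := by linarith
    rw [h4, mul_zero]
  · intro f F hf hF
    have e1 : ∫ a, f a ∂(lev ψ (γ * H)) = ∫ u in (-(1/2) : ℝ)..(1/2), f (γ * hh c u) := by
      unfold lev
      rw [integral_map]
      · have h1 := chv (fun u : ℝ => f (γ * hh c u)) F
          (hf.comp (measurable_const.mul hcont.measurable)).stronglyMeasurable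
          (fun u _ => hF _)
        rw [← h1]
        apply setIntegral_congr_fun measurableSet_Ioc
        intro φ _
        simp only
        rw [hRψ]
      · have : Continuous fun φ : ℝ => γ * H * ψ (φ : UnitAddCircle) :=
          continuous_const.mul (ψ.continuous.comp (AddCircle.continuous_mk' (1 : ℝ)))
        exact this.aemeasurable
      · exact hf.aestronglyMeasurable
    rw [e1]
    have h2 := tv (γ := γ) hc hc2 f F hf hF
    rw [show 2 * (1 - 2 * c) * F = 2 * τ * F by rw [hcd]; ring] at h2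
    exact h2
  · intro p hp hp2
    have h1 := chv (fun u : ℝ => |γ * hh c u| ^ p) ((γ * H) ^ p)
      ((continuous_const.mul hcont).abs.rpow_const
        fun _ => Or.inr (by linarith)).stronglyMeasurable
      (fun u hu => by
        rw [Real.norm_of_nonneg (by positivity)]
        apply Real.rpow_le_rpow (abs_nonneg _) _ (by linarith)
        rw [abs_mul, abs_of_pos hγ]
        exact mul_le_mul_of_nonneg_left (hh_abs hc hc2 hu) hγ.le)
    have e : ∫ φ in Ioc (0 : ℝ) 1, |γ * H * ψ (φ : UnitAddCircle)| ^ p =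
        ∫ φ in Ioc (0 : ℝ) 1, |γ * hh c (1 / 2 - 2 * ‖(φ : UnitAddCircle)‖)| ^ p := by
      apply setIntegral_congr_fun measurableSet_Ioc
      intro φ _
      simp only
      rw [hRψ]
    rw [e, h1]
    have e2 : ∫ u in (-(1/2) : ℝ)..(1/2), |γ * hh c u| ^ p =
        γ ^ p * ∫ u in (-(1/2) : ℝ)..(1/2), |hh c u| ^ p := by
      rw [← intervalIntegral.integral_const_mul]
      apply intervalIntegral.integral_congr
      intro u _
      simp only
      rw [abs_mul, abs_of_pos hγ, Real.mul_rpow hγ.le (abs_nonneg _)]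
    rw [e2]
    have h3 := lp hp hp2 hτ hτ2
    have h4 : 0 ≤ γ ^ p := by positivity
    calc γ ^ p * ∫ u in (-(1/2) : ℝ)..(1/2), |hh c u| ^ p
        ≤ γ ^ p * (2 * (τ ^ (1 - p) / (p - 1))) := mul_le_mul_of_nonneg_left h3 h4
      _ = 2 * γ ^ p * τ ^ (1 - p) / (p - 1) := by ring

end Run7.h475.NP.Tan
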